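import Pool.Agent.Lib.MP_ca56d1_nt.AR.St

/-! Frobenius elements of an abelian extension. -/

namespace Pool.Agent.Stark.AR

open NumberField IsDedekindDomain StarkStmt
open scoped Pointwise

namespace FrAux

/-- Roots of unity of order prime to a prime ideal are distinct modulo it. -/
theorem root_eq {R : Type*} [CommRing R] [IsDomain R] {Q : Ideal R} (hQ : Q.IsPrime) {m : ℕ}
    {a b : R} (ha : a ^ m = 1) (hb : b ^ m = 1) (hm0 : m ≠ 0) (hm : (m : R) ∉ Q)
    (hab : a - b ∈ Q) : a = b := by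
  by_contra hne
  have h1 := (Commute.all a b).geom_sum₂_mul m
  rw [ha, hb, sub_self] at h1
  have h2 := (mul_eq_zero.1 h1).resolve_right (sub_ne_zero.2 hne)
  have h3 : Ideal.Quotient.mk Q a = Ideal.Quotient.mk Q b := Ideal.Quotient.eq.2 hab
  have h4 := congrArg (Ideal.Quotient.mk Q) h2
  simp only [map_sum, map_mul, map_pow, map_zero, ← h3] at h4
  rw [geom_sum₂_self] at h4
  have h5 : (m : R) * a ^ (m - 1) ∈ Q := by
    rw [← Ideal.Quotient.eq_zero_iff_mem, map_mul, map_pow, map_natCast]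
    exact h4
  rcases hQ.mem_or_mem h5 with h6 | h6
  · exact hm h6
  · have h7 : a ^ (m - 1) * a ∈ Q := Q.mul_mem_right _ h6
    rw [← pow_succ, Nat.sub_add_cancel (Nat.one_le_iff_ne_zero.2 hm0), ha] at h7
    exact hQ.ne_top ((Ideal.eq_top_iff_one _).2 h7)

theorem dvd_iff {N f k : ℕ} (hN : 2 ≤ N) : N ^ f - 1 ∣ N ^ k - 1 ↔ f ∣ k := by
  constructor
  · intro h
    have h1 := Nat.pow_sub_one_gcd_pow_sub_one N f k
    rw [Nat.gcd_eq_left h] at h1
    have h2 : 0 < N ^ f := by positivity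
    have h3 : 0 < N ^ Nat.gcd f k := by positivity
    have h4 : N ^ f = N ^ Nat.gcd f k := by omega
    have h5 := Nat.pow_right_injective hN h4
    rw [h5]
    exact Nat.gcd_dvd_right f k
  · rintro ⟨c, rfl⟩
    have h1 := Nat.pow_sub_one_gcd_pow_sub_one N f (f * c)
    rw [Nat.gcd_mul_right_right] at h1
    rw [← h1]
    exact Nat.gcd_dvd_right _ _

theorem field_iff {F : Type*} [Field F] [Fintype F] {n : ℕ} (hn : 1 ≤ n) :
    (∀ x : F, x ^ n = x) ↔ Fintype.card F - 1 ∣ n - 1 := by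
  rw [← FiniteField.forall_pow_eq_one_iff]
  obtain ⟨j, rfl⟩ : ∃ j, n = j + 1 := ⟨n - 1, by omega⟩
  rw [Nat.add_sub_cancel]
  constructor
  · intro h u
    have h1 : u ^ (j + 1) = u := Units.ext (by simpa using h u)
    rw [pow_succ] at h1
    exact mul_eq_right.1 h1
  · intro h x
    by_cases hx : x = 0
    · rw [hx, zero_pow (Nat.succ_ne_zero j)]
    · have h1 : x ^ j = 1 := by
        simpa using congrArg Units.val (h (Units.mk0 x hx))
      rw [pow_succ, h1, one_mul]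

variable {K L : Type} [Field K] [NumberField K] [Field L] [NumberField L] [Algebra K L]

theorem inert [IsGalois K L] (Q : Pr L) :
    eI K Q = 1 ↔ ∀ g : L ≃ₐ[K] L, (∀ x : 𝓞 L, g • x - x ∈ Q.asIdeal) → g = 1 := by
  have hG := IsGaloisGroup.of_isFractionRing (L ≃ₐ[K] L) (𝓞 K) (𝓞 L) K L
  have h0 := SplitAux.lies (F := K) Q
  have h1 := Q.isPrime
  have h2 := (below K Q).isPrime
  have hfin : Finite (𝓞 K ⧸ (below K Q).asIdeal) :=
    Ideal.finiteQuotientOfFreeOfNeBot _ (below K Q).ne_bot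
  have h3 := Ideal.card_inertia_eq_ramificationIdxIn (G := L ≃ₐ[K] L) (below K Q).asIdeal Q.asIdeal
  rw [Ideal.ramificationIdxIn_eq_ramificationIdx _ Q.asIdeal (L ≃ₐ[K] L)] at h3
  rw [eI, ← h3, Subgroup.card_eq_one, Subgroup.eq_bot_iff_forall]
  rfl

theorem spec (hG : GalSt K L) [IsAbelianGalois K L] (Q : Pr L) (x : 𝓞 L) :
    fr K L (below K Q) • x - x ^ Ideal.absNorm (below K Q).asIdeal ∈ Q.asIdeal := by
  obtain ⟨Q0, hQ0, hover, hfr⟩ := isFrob_frob (L := L) (below K Q)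
  obtain ⟨Q1, rfl, hQ1⟩ := SplitAux.of_mem (q := below K Q) (P := Q0) ⟨hQ0, hover⟩
  obtain ⟨g, hg⟩ := hG.trans inferInstance Q1 Q hQ1
  have h1 := Ideal.smul_mem_pointwise_smul g _ _ (hfr (g⁻¹ • x))
  rw [← smul_asIdeal, hg, smul_sub, smul_pow', smul_inv_smul, smul_smul, smul_smul] at h1
  have h2 : g * frob K L (below K Q).asIdeal * g⁻¹ = fr K L (below K Q) := by
    rw [IsMulCommutative.is_comm.comm g, mul_inv_cancel_right]
    rfl
  rwa [h2] at h1

theorem uniq (hG : GalSt K L) [IsAbelianGalois K L] (Q : Pr L) (g : L ≃ₐ[K] L) (he : eI K Q = 1)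
    (hg : ∀ x : 𝓞 L, g • x - x ^ Ideal.absNorm (below K Q).asIdeal ∈ Q.asIdeal) :
    g = fr K L (below K Q) := by
  have h := (inert Q).1 he (g * (fr K L (below K Q))⁻¹) fun x => by
    have h1 := Q.asIdeal.sub_mem (hg ((fr K L (below K Q))⁻¹ • x))
      (spec hG Q ((fr K L (below K Q))⁻¹ • x))
    rwa [sub_sub_sub_cancel_right, smul_inv_smul, smul_smul] at h1
  exact mul_inv_eq_one.1 h

theorem pow_spec (hG : GalSt K L) [IsAbelianGalois K L] (Q : Pr L) (k : ℕ) (x : 𝓞 L) :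
    Ideal.Quotient.mk Q.asIdeal ((fr K L (below K Q) ^ k) • x) =
      Ideal.Quotient.mk Q.asIdeal x ^ (Ideal.absNorm (below K Q).asIdeal ^ k) := by
  induction k with
  | zero => simp
  | succ k ih =>
    rw [pow_succ', mul_smul, Ideal.Quotient.eq.2 (spec hG Q _), map_pow, ih, ← pow_mul, ← pow_succ]

theorem ord (hG : GalSt K L) [IsAbelianGalois K L] (Q : Pr L) (he : eI K Q = 1) :
    orderOf (fr K L (below K Q)) = fI K Q := by
  have := Q.isMaximal
  let _ : Field (𝓞 L ⧸ Q.asIdeal) := Ideal.Quotient.field _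
  have hfin : Finite (𝓞 L ⧸ Q.asIdeal) := Ideal.finiteQuotientOfFreeOfNeBot _ Q.ne_bot
  let _ : Fintype (𝓞 L ⧸ Q.asIdeal) := Fintype.ofFinite _
  have hN := FrobAux.two_le_absNorm (below K Q)
  have hc : Fintype.card (𝓞 L ⧸ Q.asIdeal) = Ideal.absNorm (below K Q).asIdeal ^ fI K Q := by
    rw [← hG.norm_eq, Ideal.absNorm_apply, Submodule.cardQuot_apply, Nat.card_eq_fintype_card]
  have key : ∀ k, orderOf (fr K L (below K Q)) ∣ k ↔ fI K Q ∣ k := by
    intro k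
    have hk : 1 ≤ Ideal.absNorm (below K Q).asIdeal ^ k := Nat.one_le_pow _ _ (by omega)
    rw [orderOf_dvd_iff_pow_eq_one, ← dvd_iff hN, ← hc, ← field_iff hk]
    constructor
    · intro h y
      obtain ⟨x, rfl⟩ := Ideal.Quotient.mk_surjective y
      rw [← pow_spec hG, h, one_smul]
    · intro h
      refine (inert Q).1 he _ fun x => Ideal.Quotient.eq.1 ?_
      rw [pow_spec hG, h]
  exact Nat.dvd_antisymm ((key _).2 dvd_rfl) ((key _).1 dvd_rfl)

omit [NumberField K] [NumberField L] in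
theorem root_int {m : ℕ} {ζ : L} (hm : m ≠ 0) (hζ : IsPrimitiveRoot ζ m) :
    ∃ z : 𝓞 L, (z : L) = ζ ∧ z ^ m = 1 := by
  refine ⟨⟨ζ, hζ.isIntegral (Nat.pos_of_ne_zero hm)⟩, rfl, ?_⟩
  apply RingOfIntegers.ext
  exact hζ.pow_eq_one

theorem zeta [IsGalois K L] (m : ℕ) (ζ : L) (q : Pr K) (hm : m ≠ 0) (hζ : IsPrimitiveRoot ζ m)
    (hq : (m : 𝓞 K) ∉ q.asIdeal) : fr K L q ζ = ζ ^ Ideal.absNorm q.asIdeal := by
  obtain ⟨Q0, hQ0, hover, hfr⟩ := isFrob_frob (L := L) q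
  obtain ⟨z, rfl, hz⟩ := root_int hm hζ
  have h1 : (m : 𝓞 L) ∉ Q0 := fun h => hq (by
    rw [hover.over, Ideal.under_def, Ideal.mem_comap, map_natCast]
    exact h)
  have h2 := root_eq hQ0 (by rw [← smul_pow', hz, smul_one])
    (by rw [← pow_mul, mul_comm, pow_mul, hz, one_pow]) hm h1 (hfr z)
  exact congrArg (fun y : 𝓞 L => (y : L)) h2

omit [NumberField K] [NumberField L] in
theorem sep (m : ℕ) (ζ : L) (Q : Pr L) (g : L ≃ₐ[K] L) (hm : m ≠ 0) (hζ : IsPrimitiveRoot ζ m)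
    (hQ : (m : 𝓞 L) ∉ Q.asIdeal) (hg : ∀ x : 𝓞 L, g • x - x ∈ Q.asIdeal) : g ζ = ζ := by
  obtain ⟨z, rfl, hz⟩ := root_int hm hζ
  have h2 := root_eq Q.isPrime (by rw [← smul_pow', hz, smul_one]) hz hm hQ (hg z)
  exact congrArg (fun y : 𝓞 L => (y : L)) h2

end FrAux

theorem frS (hG : GalA) : FrA := fun K L _ _ _ _ _ =>
  { inert := fun _ Q => FrAux.inert Q
    spec := fun _ Q x => FrAux.spec (hG K L) Q x
    uniq := fun _ Q g he hg => FrAux.uniq (hG K L) Q g he hg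
    ord := fun _ Q he => FrAux.ord (hG K L) Q he
    zeta := fun _ m ζ q hm hζ hq => FrAux.zeta m ζ q hm hζ hq
    sep := fun m ζ Q g hm hζ hQ hg => FrAux.sep m ζ Q g hm hζ hQ hg }

end Pool.Agent.Stark.AR
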