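import Pool.Agent.Lib.MP_ca56d1_nt.AR.St

/-! Primes, divisors and norms in an extension of number fields. -/

namespace Pool.Agent.Stark.AR

open NumberField IsDedekindDomain StarkStmt
open scoped Pointwise Classical

namespace GalAux

variable {K L : Type} [Field K] [NumberField K] [Field L] [NumberField L] [Algebra K L]

omit [NumberField K] in
theorem og_smul_int (g : L ≃ₐ[K] L) (Q : Pr L) (x : 𝓞 L) :
    og (g • Q) (g (x : L)) = og Q (x : L) := by
  by_cases hx : x = 0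
  · simp [hx, og]
  have hx' : g • x ≠ 0 := fun h => hx (by simpa using congrArg (g⁻¹ • ·) h)
  have e : ((g • x : 𝓞 L) : L) = g (x : L) := rfl
  have h : ∀ n : ℕ, (n : ℤ) ≤ og (g • Q) (g (x : L)) ↔ (n : ℤ) ≤ og Q (x : L) := fun n => by
    rw [← e, le_og_iff _ hx', le_og_iff _ hx, smul_asIdeal, ← smul_pow',
      Ideal.smul_mem_pointwise_smul_iff]
  have h1 : 0 ≤ og (g • Q) (g (x : L)) := og_nonneg (g • Q) (g • x)
  have h2 := og_nonneg Q x
  have h3 := (h (og (g • Q) (g (x : L))).toNat).1 (by omega)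
  have h4 := (h (og Q (x : L)).toNat).2 (by omega)
  omega

omit [NumberField K] in
theorem og_smul (g : L ≃ₐ[K] L) (Q : Pr L) (z : L) : og (g • Q) (g z) = og Q z := by
  obtain ⟨x, y, hy, rfl⟩ := IsFractionRing.div_surjective (A := 𝓞 L) z
  by_cases hx : x = 0
  · simp [hx, og]
  have hx' : (x : L) ≠ 0 := by simpa using hx
  have hy' : (y : L) ≠ 0 := by simpa using nonZeroDivisors.ne_zero hy
  have h1 := og_smul_int g Q x
  have h2 := og_smul_int g Q y
  change og (g • Q) (g ((x : L) / (y : L))) = og Q ((x : L) / (y : L))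
  rw [og, og] at h1 h2
  rw [map_div₀, og, og, ord_div hx' hy', ord_div (by simpa using hx') (by simpa using hy'), h1, h2]

omit [NumberField K] in
theorem pw_smul (g : L ≃ₐ[K] L) (Q : Pr L) (x : L) (j : ℤ) :
    g x ∈ pw ((g • Q).valuation L) j ↔ x ∈ pw (Q.valuation L) j := by
  have h := og_smul g Q x
  rw [og, og] at h
  rw [mem_pw_iff, mem_pw_iff, h, map_eq_zero]

omit [NumberField K] [NumberField L] in
theorem below_smul (g : L ≃ₐ[K] L) (Q : Pr L) : below K (g • Q) = below K Q := by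
  ext x
  change algebraMap (𝓞 K) (𝓞 L) x ∈ g • Q.asIdeal ↔ algebraMap (𝓞 K) (𝓞 L) x ∈ Q.asIdeal
  rw [Ideal.mem_pointwise_smul_iff_inv_smul_mem,
    show g⁻¹ • algebraMap (𝓞 K) (𝓞 L) x = algebraMap (𝓞 K) (𝓞 L) x from
      RingOfIntegers.ext (g⁻¹.commutes (x : K))]

theorem trans [IsGalois K L] (Q Q' : Pr L) (h : below K Q = below K Q') :
    ∃ g : L ≃ₐ[K] L, g • Q = Q' := by
  have := SplitAux.lies (F := K) Q
  have := SplitAux.lies_of h.symm
  obtain ⟨σ, hσ⟩ := Ideal.exists_smul_eq_of_isGaloisGroup (below K Q).asIdeal Q.asIdeal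
    Q'.asIdeal Gal(L/K)
  exact ⟨σ, HeightOneSpectrum.ext hσ⟩

theorem card_stab [IsGalois K L] (Q : Pr L) :
    Nat.card (MulAction.stabilizer (L ≃ₐ[K] L) Q) = eI K Q * fI K Q := by
  have := SplitAux.lies (F := K) Q
  have h1 : MulAction.stabilizer (L ≃ₐ[K] L) Q = MulAction.stabilizer (L ≃ₐ[K] L) Q.asIdeal := by
    ext g
    rw [MulAction.mem_stabilizer_iff, MulAction.mem_stabilizer_iff, HeightOneSpectrum.ext_iff,
      smul_asIdeal]
  rw [h1, Ideal.card_stabilizer_eq (below K Q).asIdeal Q.asIdeal,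
    Ideal.ramificationIdxIn_eq_ramificationIdx _ Q.asIdeal Gal(L/K),
    Ideal.inertiaDegIn_eq_inertiaDeg _ Q.asIdeal Gal(L/K), eI, fI]

theorem eI_eq [IsGalois K L] {Q Q' : Pr L} (h : below K Q' = below K Q) : eI K Q' = eI K Q := by
  have := SplitAux.lies (F := K) Q
  have := SplitAux.lies_of h
  rw [eI, eI, ← Ideal.ramificationIdxIn_eq_ramificationIdx (below K Q).asIdeal Q.asIdeal Gal(L/K),
    ← Ideal.ramificationIdxIn_eq_ramificationIdx (below K Q).asIdeal Q'.asIdeal Gal(L/K)]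

theorem pw_up (Q : Pr L) (t : K) (j : ℤ) :
    algebraMap K L t ∈ pw (Q.valuation L) (eI K Q * j) ↔ t ∈ pw ((below K Q).valuation K) j := by
  have h := og_algebraMap (F := K) Q t
  have e0 : (0 : ℤ) < eI K Q := by exact_mod_cast SplitAux.eI_pos Q
  rw [og, og] at h
  rw [mem_pw_iff, mem_pw_iff, h, map_eq_zero, mul_le_mul_iff_right₀ e0]

omit [NumberField K] [NumberField L] in
theorem nm_apply (D : Dv L) (q : Pr K) (T : Finset (Pr L)) (hT : ∀ Q, Q ∈ T ↔ below K Q = q) :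
    nm K D q = ∑ Q ∈ T, (fI K Q : ℤ) * D Q := by
  rw [nm, Finsupp.sum_apply, Finsupp.sum]
  simp only [Finsupp.single_apply]
  rw [← Finset.sum_filter]
  refine Finset.sum_subset (fun Q hQ => (hT Q).2 (Finset.mem_filter.1 hQ).2) fun Q hQ hQ' => ?_
  rw [Finset.mem_filter, and_iff_left ((hT Q).1 hQ), Finsupp.notMem_support_iff] at hQ'
  rw [hQ', mul_zero]

theorem og_prod {ι : Type} (Q : Pr L) (s : Finset ι) (f : ι → L) (h : ∀ i, f i ≠ 0) :
    og Q (∏ i ∈ s, f i) = ∑ i ∈ s, og Q (f i) := by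
  induction s using Finset.induction_on with
  | empty => simp [og]
  | insert a s ha ih =>
    rw [Finset.prod_insert ha, Finset.sum_insert ha, ← ih]
    exact ord_mul (h a) (Finset.prod_ne_zero_iff.2 fun i _ => h i)

theorem card_fib [IsGalois K L] {Q Q' : Pr L} (h : below K Q' = below K Q) :
    (Finset.univ.filter fun g : L ≃ₐ[K] L => g⁻¹ • Q = Q').card = eI K Q' * fI K Q' := by
  obtain ⟨σ, rfl⟩ := trans Q' Q h
  rw [← card_stab, ← Fintype.card_subtype, ← Nat.card_eq_fintype_card]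
  refine Nat.card_congr ((Equiv.mulLeft σ⁻¹).subtypeEquiv fun g => ?_)
  rw [MulAction.mem_stabilizer_iff, Equiv.coe_mulLeft, mul_smul, inv_smul_eq_iff, inv_smul_eq_iff,
    eq_comm]

theorem dv_norm [IsGalois K L] (a : L) (ha : a ≠ 0) : dv (Algebra.norm K a) = nm K (dv a) := by
  ext q
  obtain ⟨Q, rfl⟩ := below_surj (K := L) q
  have e0 : (eI K Q : ℤ) ≠ 0 := by exact_mod_cast (SplitAux.eI_pos Q).ne'
  have hT : ∀ Q', Q' ∈ (below_finite (K := L) (below K Q)).toFinset ↔ below K Q' = below K Q :=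
    fun Q' => by simp
  refine mul_left_cancel₀ e0 ?_
  rw [dv_apply, ← og_algebraMap, Algebra.norm_eq_prod_automorphisms,
    og_prod _ _ _ fun g => by simpa using ha, nm_apply _ _ _ hT, Finset.mul_sum,
    ← Finset.sum_fiberwise_of_maps_to (g := fun g : L ≃ₐ[K] L => g⁻¹ • Q)
      (fun g _ => (hT _).2 (below_smul _ _))]
  refine Finset.sum_congr rfl fun Q' hQ' => ?_
  have h1 := (hT Q').1 hQ'
  rw [Finset.sum_congr rfl (g := fun _ => og Q' a) fun g hg => by
    rw [← (Finset.mem_filter.1 hg).2, ← og_smul g (g⁻¹ • Q) a, smul_inv_smul], Finset.sum_const,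
    card_fib h1, eI_eq h1, dv_apply, nsmul_eq_mul]
  push_cast
  ring

omit [NumberField K] [NumberField L] in
theorem ev_nm {Γ : Type} [CommGroup Γ] (c : Pr K → Γ) (D : Dv L) :
    ev c (nm K D) = ev (fun Q => c (below K Q) ^ fI K Q) D := by
  have h : ∀ (s : Finset (Pr L)) (f : Pr L → Dv K), ev c (∑ i ∈ s, f i) = ∏ i ∈ s, ev c (f i) := by
    intro s f
    induction s using Finset.induction_on with
    | empty => simp
    | insert a s ha ih => rw [Finset.prod_insert ha, Finset.sum_insert ha, ev_add, ih]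
  rw [nm, Finsupp.sum, h]
  refine Finset.prod_congr rfl fun Q _ => ?_
  rw [ev_single, zpow_mul, zpow_natCast]

theorem ray_up (S : Finset (Pr K)) (SL : Finset (Pr L)) (N : ℕ) (a : K)
    (h : ∀ Q, Q ∈ SL ↔ below K Q ∈ S) (ha : Ray S N a) : Ray SL N (algebraMap K L a) := by
  refine ⟨(map_ne_zero _).2 ha.1, fun Q hQ => ?_⟩
  have h1 := (pw_up Q _ _).2 (ha.2 _ ((h Q).1 hQ))
  have e0 : (1 : ℤ) ≤ eI K Q := by exact_mod_cast SplitAux.eI_pos Q
  rw [map_sub, map_one] at h1
  exact ComplAux.pw_mono (le_mul_of_one_le_left (by positivity) e0) h1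

theorem ray_norm [IsGalois K L] (S : Finset (Pr K)) (SL : Finset (Pr L)) (N : ℕ)
    (h : ∀ Q, Q ∈ SL ↔ below K Q ∈ S) :
    ∃ N', ∀ a : L, Ray SL N' a → Ray S N (Algebra.norm K a) := by
  refine ⟨SL.sup (eI K) * (N + 1), fun a ha => ⟨Algebra.norm_ne_zero_iff.2 ha.1, fun q hq => ?_⟩⟩
  have h1 : Ray SL (SL.sup (eI K) * (N + 1)) (algebraMap K L (Algebra.norm K a)) := by
    rw [Algebra.norm_eq_prod_automorphisms]
    refine Finset.prod_induction _ (Ray SL _) (fun _ _ => Ray.mul) (Ray.one _ _) fun g _ =>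
      ⟨by simpa using ha.1, fun Q hQ => ?_⟩
    have h2 := (pw_smul g _ _ _).2 (ha.2 (g⁻¹ • Q) ((h _).2 (by rw [below_smul]; exact (h Q).1 hQ)))
    rwa [smul_inv_smul, map_sub, map_one] at h2
  obtain ⟨Q, rfl⟩ := below_surj (K := L) q
  have hQ := (h Q).2 hq
  have h2 : (eI K Q : ℤ) ≤ (SL.sup (eI K) : ℕ) := by exact_mod_cast Finset.le_sup hQ
  rw [← pw_up, map_sub, map_one]
  refine ComplAux.pw_mono ?_ (h1.2 Q hQ)
  have h3 := mul_le_mul_of_nonneg_right h2 (by positivity : (0 : ℤ) ≤ N + 1)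
  push_cast
  linarith

theorem norm_pos (φ : K →+* ℝ) (a : L) (hφ : RamR L φ) (ha : a ≠ 0) :
    0 < φ (Algebra.norm K a) := by
  let _ : Algebra K ℂ := (Complex.ofRealHom.comp φ).toAlgebra
  have hal : ∀ t : K, algebraMap K ℂ t = (φ t : ℂ) := fun _ => rfl
  let cj : (L →ₐ[K] ℂ) → (L →ₐ[K] ℂ) := fun σ =>
    { (starRingEnd ℂ).comp σ.toRingHom with
      commutes' := fun t => by
        change starRingEnd ℂ (σ (algebraMap K L t)) = _
        rw [σ.commutes, hal, Complex.conj_ofReal] }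
  have hcj : ∀ σ x, cj σ x = starRingEnd ℂ (σ x) := fun _ _ => rfl
  have h0 : ∀ σ : L →ₐ[K] ℂ, σ a ≠ 0 := fun σ => by simpa using ha
  have h0' : ∀ σ : L →ₐ[K] ℂ, ((‖σ a‖ : ℝ) : ℂ) ≠ 0 := fun σ => by simpa using ha
  have h1 : ∏ σ : L →ₐ[K] ℂ, σ a / (‖σ a‖ : ℝ) = 1 := by
    refine Finset.prod_involution (fun σ _ => cj σ) (fun σ _ => ?_) (fun σ _ _ h => hφ ?_)
      (fun _ _ => Finset.mem_univ _) fun σ _ => AlgHom.ext fun x => ?_
    · rw [hcj, RCLike.norm_conj, div_mul_div_comm, Complex.mul_conj', sq,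
        div_self (mul_ne_zero (h0' σ) (h0' σ))]
    · have hr : ComplexEmbedding.IsReal σ.toRingHom :=
        ComplexEmbedding.isReal_iff.2 (RingHom.ext fun x => AlgHom.congr_fun h x)
      refine ⟨hr.embedding, RingHom.ext fun t => Complex.ofReal_injective ?_⟩
      rw [RingHom.comp_apply, hr.coe_embedding_apply]
      exact σ.commutes t
    · rw [hcj, hcj, Complex.conj_conj]
  rw [Finset.prod_div_distrib, div_eq_one_iff_eq (Finset.prod_ne_zero_iff.2 fun σ _ => h0' σ),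
    ← Algebra.norm_eq_prod_embeddings, hal, ← Complex.ofReal_prod, Complex.ofReal_inj] at h1
  rw [h1]
  exact Finset.prod_pos fun σ _ => norm_pos_iff.2 (h0 σ)

theorem ramR_iff [IsGalois K L] (φ : K →+* ℝ) : RamR L φ ↔ ¬ (plc φ).IsUnramifiedIn L := by
  have h0 : ∀ ψ : L →+* ℝ, (plc ψ).comap (algebraMap K L) = plc (ψ.comp (algebraMap K L)) :=
    fun ψ => rfl
  refine not_congr ⟨?_, fun h => ?_⟩
  · rintro ⟨ψ, rfl⟩
    rw [← h0, InfinitePlace.isUnramifiedIn_comap, InfinitePlace.isUnramified_iff]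
    exact Or.inl (plc_isReal ψ)
  · obtain ⟨v, hv⟩ := InfinitePlace.comap_surjective (K := L) (plc φ)
    have h1 := (InfinitePlace.isUnramified_iff.1 (h v hv)).resolve_right (by
      rw [InfinitePlace.not_isComplex_iff_isReal, show v.comap (algebraMap K L) = plc φ from hv]
      exact plc_isReal φ)
    obtain ⟨ψ, rfl⟩ := exists_plc h1
    exact ⟨ψ, plc_injective ((h0 ψ).symm.trans hv)⟩

end GalAux

open GalAux

theorem gal : GalA := fun K L _ _ _ _ _ =>
  { og_smul := og_smul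
    pw_smul := pw_smul
    below_smul := below_smul
    trans := fun _ => GalAux.trans
    norm_eq := fun Q => by
      have := SplitAux.lies (F := K) Q
      exact (Ideal.absNorm_pow_inertiaDeg (below K Q).asIdeal Q.asIdeal).symm
    fI_pos := fun Q => Ideal.inertiaDeg_pos _ _
    card_stab := fun _ => card_stab
    pw_up := pw_up
    dv_norm := fun _ => dv_norm
    ev_nm := ev_nm
    nrm_eq := fun _ x => by
      rw [nrm_apply, Units.coe_prod, Algebra.norm_eq_prod_automorphisms]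
      rfl
    ray_up := ray_up
    ray_norm := fun _ => ray_norm
    norm_pos := norm_pos
    ramR_iff := fun _ => ramR_iff }

end Pool.Agent.Stark.AR
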