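import Pool.Agent.Lib.MP_ca56d1_nt.AR.St

/-! Frobenius elements in towers and the density of primes with Frobenius element in a subgroup. -/

namespace Pool.Agent.Stark.AR

open NumberField IsDedekindDomain StarkStmt Filter Topology

namespace TowAux

variable {K L M : Type} [Field K] [NumberField K] [Field L] [NumberField L] [Algebra K L] [Field M]
  [NumberField M] [Algebra K M] [Algebra M L] [IsScalarTower K M L]

omit [NumberField K] [NumberField L] [NumberField M] in
theorem below_below (Q : Pr L) : below K (below M Q) = below K Q := by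
  apply HeightOneSpectrum.ext
  exact Ideal.under_under Q.asIdeal

theorem eI_mul (Q : Pr L) : eI K Q = eI M Q * eI K (below M Q) := by
  obtain ⟨t, ht⟩ := (below K Q).valuation_exists_uniformizer K
  have h2 : og (below K Q) t = 1 := by
    rw [og, ord, ht]
    simp
  have h3 := og_algebraMap (F := K) Q t
  rw [h2, IsScalarTower.algebraMap_apply K M L, og_algebraMap (F := M) Q,
    og_algebraMap (F := K) (below M Q), below_below, h2] at h3
  have : ((eI K Q : ℕ) : ℤ) = ((eI M Q * eI K (below M Q) : ℕ) : ℤ) := by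
    push_cast
    simpa using h3.symm
  exact_mod_cast this

theorem bot {S : Finset (Pr K)} (h : UnrO L S) : UnrO M S := fun P hP => by
  obtain ⟨Q, rfl⟩ := below_surj (K := L) P
  have h1 := h Q (by rwa [below_below] at hP)
  rw [eI_mul (M := M)] at h1
  exact Nat.eq_one_of_mul_eq_one_left h1

theorem top {S : Finset (Pr K)} (h : UnrO L S) (Q : Pr L) (hQ : below K Q ∉ S) : eI M Q = 1 := by
  have h1 := h Q hQ
  rw [eI_mul (M := M)] at h1
  exact Nat.eq_one_of_mul_eq_one_right h1

theorem res (hF : FrA) (hab : IsAbelianGalois K L) {S : Finset (Pr K)} (h : UnrO L S) {q : Pr K}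
    (hq : q ∉ S) (x : M) : fr K L q (algebraMap M L x) = algebraMap M L (fr K M q x) := by
  have hM : IsAbelianGalois K M := IsAbelianGalois.tower_bot K M L
  obtain ⟨Q, rfl⟩ := below_surj (K := L) q
  have h1 : (fr K L (below K Q)).restrictNormal M = fr K M (below K (below M Q)) := by
    apply (hF K M).uniq hM (below M Q) _ (bot h _ (by rwa [below_below]))
    intro y
    have h2 := (hF K L).spec hab Q (algebraMap (𝓞 M) (𝓞 L) y)
    change algebraMap (𝓞 M) (𝓞 L) _ ∈ Q.asIdeal
    rw [map_sub, map_pow, below_below]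
    convert h2 using 2
    apply Subtype.ext
    exact AlgEquiv.restrictNormal_commutes (fr K L (below K Q)) M (y : M)
  rw [below_below] at h1
  rw [← h1, AlgEquiv.restrictNormal_commutes]

theorem res_pow (hF : FrA) (hab : IsAbelianGalois K L) {S : Finset (Pr K)} (h : UnrO L S)
    {q : Pr K} (hq : q ∉ S) (k : ℕ) (x : M) :
    (fr K L q ^ k) (algebraMap M L x) = algebraMap M L ((fr K M q ^ k) x) := by
  induction k with
  | zero => simp
  | succ k ih =>
    rw [pow_succ', pow_succ', AlgEquiv.mul_apply, AlgEquiv.mul_apply, ih, res hF hab h hq]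

theorem spec_pow (hF : FrA) (hab : IsAbelianGalois K L) (Q : Pr L) (k : ℕ) (x : 𝓞 L) :
    (fr K L (below K Q) ^ k) • x - x ^ (Ideal.absNorm (below K Q).asIdeal ^ k) ∈ Q.asIdeal := by
  induction k with
  | zero => simp
  | succ k ih =>
    have h1 := (hF K L).spec hab Q ((fr K L (below K Q) ^ k) • x)
    rw [← Ideal.Quotient.eq] at h1 ih ⊢
    rw [pow_succ', mul_smul, h1, map_pow, ih, pow_succ, pow_mul, map_pow, map_pow, map_pow]

theorem up (hG : GalA) (hF : FrA) (hab : IsAbelianGalois K L) {S : Finset (Pr K)} (h : UnrO L S)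
    (P : Pr M) (hP : below K P ∉ S) (x : L) :
    fr M L P x = (fr K L (below K P) ^ fI K P) x := by
  have hM : IsAbelianGalois K M := IsAbelianGalois.tower_bot K M L
  have hL : IsAbelianGalois M L := IsAbelianGalois.tower_top K M L
  have h1 : fr K M (below K P) ^ fI K P = 1 := by
    rw [← (hF K M).ord hM P (bot h P hP), pow_orderOf_eq_one]
  let g : L ≃ₐ[M] L :=
    { (fr K L (below K P) ^ fI K P).toRingEquiv with
      commutes' := fun y => by
        have := res_pow hF hab h hP (fI K P) y
        rw [h1] at this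
        exact this }
  obtain ⟨Q, rfl⟩ := below_surj (K := L) P
  have h2 : g = fr M L (below M Q) := by
    apply (hF M L).uniq hL Q _ (top h Q (by rwa [below_below] at hP))
    intro y
    have h3 := spec_pow hF hab Q (fI K (below M Q)) y
    rw [(hG K M).norm_eq (below M Q), below_below]
    convert h3 using 2
    apply Subtype.ext
    change (fr K L (below K (below M Q)) ^ fI K (below M Q)) (y : L) = _
    rw [below_below]
    rfl
  rw [← h2]
  rfl

theorem fix (hF : FrA) (hab : IsAbelianGalois K L) {S : Finset (Pr K)} (h : UnrO L S)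
    (P : Pr M) (hP : below K P ∉ S)
    (hy : ∀ y : M, fr K L (below K P) (algebraMap M L y) = algebraMap M L y) : fI K P = 1 := by
  have hM : IsAbelianGalois K M := IsAbelianGalois.tower_bot K M L
  rw [← (hF K M).ord hM P (bot h P hP), orderOf_eq_one_iff]
  ext y
  have := hy y
  rw [res hF hab h hP] at this
  exact (algebraMap M L).injective this

omit [NumberField K] [NumberField L] [NumberField M] in
theorem ramR (φ : K →+* ℝ) (h : RamR M φ) : RamR L φ := by
  rintro ⟨ψ, hψ⟩
  refine h ⟨ψ.comp (algebraMap M L), ?_⟩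
  rw [RingHom.comp_assoc, ← IsScalarTower.algebraMap_eq, hψ]

theorem card_fixed [IsGalois K L] (H : Subgroup (L ≃ₐ[K] L))
    [IsGalois K (IntermediateField.fixedField H)] :
    Nat.card (IntermediateField.fixedField H ≃ₐ[K] IntermediateField.fixedField H) = H.index := by
  have h1 := Module.finrank_mul_finrank K (IntermediateField.fixedField H) L
  rw [IntermediateField.finrank_fixedField_eq_card, ← IsGalois.card_aut_eq_finrank K L,
    ← H.index_mul_card, ← IsGalois.card_aut_eq_finrank] at h1
  exact Nat.eq_of_mul_eq_mul_right Nat.card_pos h1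

theorem lim (hT : TowA) (h : Spl1A) (hab : IsAbelianGalois K L) {S : Finset (Pr K)}
    (hS : UnrO L S) (H : Subgroup (L ≃ₐ[K] L)) :
    Tendsto (fun s : ℝ => ps {q | q ∉ S ∧ fr K L q ∈ H} s / Real.log (1 / (s - 1))) (𝓝[>] 1)
      (𝓝 (1 / H.index)) := by
  have hM : IsAbelianGalois K (IntermediateField.fixedField H) :=
    IsAbelianGalois.tower_bot K _ L
  have hT' := hT K L (IntermediateField.fixedField H)
  have h1 := h K (IntermediateField.fixedField H) hM S (hT'.bot S hS)
  rw [card_fixed] at h1
  have h2 : {q | q ∉ S ∧ fr K L q ∈ H} =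
      {q | q ∉ S ∧ fr K (IntermediateField.fixedField H) q = 1} := by
    ext q
    refine and_congr_right fun hq => ?_
    have h3 := hT'.res hab S hS q hq
    conv_lhs => rw [← IntermediateField.fixingSubgroup_fixedField H]
    rw [IntermediateField.mem_fixingSubgroup_iff]
    constructor
    · intro h4
      ext y
      have h5 := h3 y
      have h6 := h4 y y.2
      exact h5.symm.trans h6
    · intro h4 y hy
      have h5 := h3 ⟨y, hy⟩
      rw [h4] at h5
      exact h5
  rw [h2]
  exact h1

theorem gen (hT : TowA) (h : Spl1A) (hab : IsAbelianGalois K L) {S : Finset (Pr K)}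
    (hS : UnrO L S) (H : Subgroup (L ≃ₐ[K] L)) :
    Subgroup.closure (fr K L '' {q | q ∉ S ∧ fr K L q ∈ H}) = H := by
  set H' := Subgroup.closure (fr K L '' {q | q ∉ S ∧ fr K L q ∈ H}) with hH'
  have hle : H' ≤ H := by
    rw [hH', Subgroup.closure_le]
    rintro _ ⟨q, hq, rfl⟩
    exact hq.2
  have h1 : {q | q ∉ S ∧ fr K L q ∈ H'} = {q | q ∉ S ∧ fr K L q ∈ H} := by
    ext q
    exact ⟨fun hq => ⟨hq.1, hle hq.2⟩, fun hq => ⟨hq.1, Subgroup.subset_closure ⟨q, hq, rfl⟩⟩⟩
  have h2 := lim hT h hab hS H'
  rw [h1] at h2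
  have h3 := tendsto_nhds_unique h2 (lim hT h hab hS H)
  have h4 : H'.index = H.index := by
    rw [one_div, one_div, inv_inj] at h3
    exact_mod_cast h3
  apply Subgroup.eq_of_le_of_card_ge hle
  have h5 := H.index_mul_card
  rw [← H'.index_mul_card, h4] at h5
  exact (Nat.eq_of_mul_eq_mul_left (Nat.pos_of_ne_zero H.index_ne_zero_of_finite) h5).le

end TowAux

theorem tow (hG : GalA) (hF : FrA) : TowA := fun _ _ M _ _ _ _ _ _ _ _ _ _ =>
  { below_below := TowAux.below_below
    eI_mul := TowAux.eI_mul
    bot := fun _ h => TowAux.bot h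
    top := fun _ _ hS h Q hQ => TowAux.top h Q (by
      rw [← TowAux.below_below (M := M)]
      exact fun h1 => hQ ((hS _).2 h1))
    res := fun hab _ h _ hq x => TowAux.res hF hab h hq x
    up := fun hab _ h P hP x => TowAux.up hG hF hab h P hP x
    fix := fun hab _ h P hP hy => TowAux.fix hF hab h P hP hy
    ramR := TowAux.ramR }

theorem spl (hT : TowA) (h : Spl1A) : SplA := fun _ _ _ _ _ _ _ =>
  { lim := fun hab _ hS H => TowAux.lim hT h hab hS H
    gen := fun hab _ hS H => TowAux.gen hT h hab hS H }

end Pool.Agent.Stark.AR
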