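import Pool.Agent.Lib.MP_ca56d1_nt.AR.St

/-! The reciprocity law for cyclotomic extensions of totally complex fields. -/

namespace Pool.Agent.Stark.AR

open NumberField IsDedekindDomain StarkStmt
open scoped IsMulCommutative Classical

namespace CycAux

variable {F : Type} [Field F] [NumberField F]

theorem norm_congr (m : ℕ) (y t : 𝓞 F) :
    ((Algebra.norm ℤ (y + m * t) : ℤ) : ZMod m) = ((Algebra.norm ℤ y : ℤ) : ZMod m) := by
  let b := Module.Free.chooseBasis ℤ (𝓞 F)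
  let f := Int.castRingHom (ZMod m)
  let ψ := f.mapMatrix.comp (Algebra.leftMulMatrix b).toRingHom
  have h : ∀ x : 𝓞 F, ((Algebra.norm ℤ x : ℤ) : ZMod m) = (ψ x).det := fun x => by
    rw [Algebra.norm_eq_matrix_det b]
    exact f.map_det _
  have h0 : ψ (m : 𝓞 F) = 0 := by
    rw [map_natCast, ← map_natCast (algebraMap (ZMod m) _), ZMod.natCast_self, map_zero]
  rw [h, h, map_add, map_mul, h0, zero_mul, add_zero]

theorem ev_int (hG : GalA) (hF : IsEmpty (F →+* ℝ)) {S : Finset (Pr F)} {m : ℕ}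
    {κ : Pr F → (ZMod m)ˣ} (hκ : ∀ q ∉ S, (κ q : ZMod m) = Ideal.absNorm q.asIdeal)
    {x : 𝓞 F} (hx : x ≠ 0) (hS : ∀ q ∈ S, og q (x : F) = 0) :
    ((ev κ (dv (x : F)) : (ZMod m)ˣ) : ZMod m) = ((Algebra.norm ℤ x : ℤ) : ZMod m) := by
  have hx' : (x : F) ≠ 0 := by simpa using hx
  have h1 := (hG ℚ F).norm_pos (Rat.castHom ℝ) (x : F) (fun ⟨ψ, _⟩ => hF.false ψ) hx'
  have h2 : 0 < Algebra.norm ℤ x := by
    rw [← Algebra.coe_norm_int] at h1
    simpa using h1
  have hP : ∀ q ∉ (dv (x : F)).support, og q (x : F) = 0 := fun q hq =>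
    Finsupp.notMem_support_iff.1 hq
  have h3 := congrArg Ideal.absNorm (ComplAux.span_eq_prod hx _ hP)
  rw [Ideal.absNorm_span_singleton, map_prod] at h3
  rw [← Int.natAbs_of_nonneg h2.le, h3, ev_eq_prod κ _ _ hP, Units.coe_prod, Int.cast_natCast,
    Nat.cast_prod]
  refine Finset.prod_congr rfl fun q hq => ?_
  have hq' : q ∉ S := fun h => Finsupp.mem_support_iff.1 hq (hS q h)
  rw [map_pow, Nat.cast_pow, ← hκ q hq', dv_apply, ← Units.val_pow_eq_pow_val, ← zpow_natCast,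
    Int.toNat_of_nonneg (og_nonneg q x)]

theorem exists_den (S : Finset (Pr F)) {a : F} (ha : a ≠ 0) (hS : ∀ q ∈ S, og q a = 0) :
    ∃ x y : 𝓞 F, y ≠ 0 ∧ (∀ q ∈ S, og q (y : F) = 0) ∧ (x : F) = y * a := by
  rcases S.eq_empty_or_nonempty with rfl | ⟨q0, hq0⟩
  · obtain ⟨x, y, hy, rfl⟩ := IsFractionRing.div_surjective (A := 𝓞 F) a
    have hy0 : y ≠ 0 := nonZeroDivisors.ne_zero hy
    have hy1 : (y : F) ≠ 0 := by simpa using hy0
    exact ⟨x, y, hy0, by simp, (mul_div_cancel₀ _ hy1).symm⟩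
  let j : ℕ := (dv a).support.sup fun q => (-og q a).toNat
  obtain ⟨y, h1, h2⟩ := approx_strong (S ∪ (dv a).support)
    (fun q => emb q (if q ∈ S then 1 else 0)) ((j : ℤ) + 1)
  have h3 : ∀ q ∈ S, y - 1 ∈ pw (q.valuation F) ((j : ℤ) + 1) := fun q hq => by
    have := h1 q (Finset.mem_union_left _ hq)
    rwa [if_pos hq, ← map_sub, ComplAux.emb_mem_pw] at this
  have hy : y ≠ 0 := by
    rintro rfl
    rcases mem_pw_iff.1 (h3 q0 hq0) with h | h
    · simp at h
    · rw [zero_sub, ord_neg, ord_one] at h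
      omega
  have hr : Ray S j y := ⟨hy, h3⟩
  have h4 : ∀ q ∉ S, q ∈ (dv a).support → (j : ℤ) + 1 ≤ og q y := fun q hq hq' => by
    have := h1 q (Finset.mem_union_right _ hq')
    rw [if_neg hq, ← map_sub, ComplAux.emb_mem_pw, sub_zero] at this
    exact (mem_pw_iff.1 this).resolve_left hy
  have h5 : ∀ q, 0 ≤ og q y ∧ 0 ≤ og q y + og q a := fun q => by
    by_cases hq : q ∈ S
    · rw [hr.og_eq hq, hS q hq]
      simp
    by_cases hq' : q ∈ (dv a).support
    · have h6 := h4 q hq hq'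
      have h7 : (-og q a).toNat ≤ j := Finset.le_sup (f := fun q => (-og q a).toNat) hq'
      omega
    · have h6 := h2 q (by simp only [Finset.mem_union, not_or]; exact ⟨hq, hq'⟩)
      have h7 : og q a = 0 := Finsupp.notMem_support_iff.1 hq'
      omega
  obtain ⟨y', rfl⟩ := exists_int_of_og fun q => (h5 q).1
  obtain ⟨x, hx⟩ := exists_int_of_og (x := (y' : F) * a) fun q => by
    rw [og, ord_mul hy ha]
    exact (h5 q).2
  exact ⟨x, y', fun h => hy (by simp [h]), fun q hq => hr.og_eq hq, hx⟩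

end CycAux

open CycAux

theorem cyc (hG : GalA) : CycA := by
  intro F _ _ hF S m κ hm hmS hκ
  refine ⟨S.sup fun q => (og q (m : F)).toNat, fun a ha => ?_⟩
  obtain ⟨x, y, hy, hyS, hx⟩ := exists_den S ha.1 fun q hq => ha.og_eq hq
  have hy' : (y : F) ≠ 0 := by simpa using hy
  have hm' : (m : F) ≠ 0 := Nat.cast_ne_zero.2 hm
  have hx0 : x ≠ 0 := fun h => mul_ne_zero hy' ha.1 (by rw [← hx, h]; simp)
  have hxS : ∀ q ∈ S, og q (x : F) = 0 := fun q hq => by
    have h1 := hyS q hq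
    have h2 := ha.og_eq hq
    rw [og] at h1 h2
    rw [hx, og, ord_mul hy' ha.1, h1, h2, add_zero]
  obtain ⟨t, ht⟩ := exists_int_of_og (x := ((x : F) - y) / m) fun q => by
    refine ComplAux.mem_pw_zero.1 (ComplAux.pw_div hm' ?_)
    by_cases hq : q ∈ S
    · have h1 := pw_mul (ComplAux.mem_pw_zero.2 (og_nonneg q y)) (ha.2 q hq)
      have h2 : (og q (m : F)).toNat ≤ S.sup fun q => (og q (m : F)).toNat :=
        Finset.le_sup (f := fun q => (og q (m : F)).toNat) hq
      rw [mul_sub, mul_one, ← hx] at h1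
      refine ComplAux.pw_mono ?_ h1
      rw [← og]
      omega
    · have h1 : ¬ 0 < og q ((m : 𝓞 F) : F) := fun h =>
        hmS q hq ((og_pos_iff q (Nat.cast_ne_zero.2 hm)).1 h)
      have h2 : ((m : 𝓞 F) : F) = m := map_natCast (algebraMap (𝓞 F) F) m
      have h3 := ComplAux.mem_pw_zero.2 (og_nonneg q (x - y))
      have h4 : ((x - y : 𝓞 F) : F) = x - y := map_sub (algebraMap (𝓞 F) F) _ _
      rw [h2, og] at h1
      rw [h4] at h3
      exact ComplAux.pw_mono (by omega) h3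
  have hxy : x = y + m * t := by
    refine IsFractionRing.injective (𝓞 F) F ?_
    rw [map_add, map_mul, map_natCast]
    change (x : F) = y + m * (t : F)
    rw [ht]
    field_simp
    ring
  have h1 : ev κ (dv (x : F)) = ev κ (dv (y : F)) := Units.ext (by
    rw [ev_int hG hF hκ hx0 hxS, ev_int hG hF hκ hy hyS, hxy, norm_congr])
  rw [hx, dv_mul hy' ha.1, ev_add] at h1
  exact mul_eq_left.1 h1

theorem cycR (hF : FrA) (h : CycA) : CycRA := by
  intro K L _ _ _ _ _ _ S m ζ hK hm hζ hS hinj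
  have : NeZero m := ⟨hm⟩
  obtain ⟨N, hN⟩ := h K hK S m (fun q => hζ.autToPow K (fr K L q)) hm hS fun q hq => by
    have h1 := (hζ.autToPow_spec K (fr K L q)).trans
      ((hF K L).zeta inferInstance m ζ q hm hζ (hS q hq))
    rw [(hζ.isOfFinOrder hm).pow_eq_pow_iff_modEq, ← hζ.eq_orderOf,
      ← ZMod.natCast_eq_natCast_iff, ZMod.natCast_zmod_val] at h1
    exact h1
  refine ⟨N, fun a ha => hinj _ ?_⟩
  have h1 := (map_ev (hζ.autToPow K) (fr K L) (dv a)).trans (hN a ha)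
  rw [← hζ.autToPow_spec K, h1, ← map_one (hζ.autToPow K), hζ.autToPow_spec K]
  rfl

end Pool.Agent.Stark.AR
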