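import Pool.Agent.Lib.MP_ca56d1_nt.AR.St

/-! The cyclotomic extension of `L` of level prime to the discriminant. -/

namespace Pool.Agent.Stark.AR

open NumberField IsDedekindDomain StarkStmt IntermediateField
open scoped IsMulCommutative Classical

namespace CycFAux

section Gen

variable {K L Ω : Type} [Field K] [Field L] [Field Ω] [Algebra K L] [Algebra L Ω] [Algebra K Ω]
  [IsScalarTower K L Ω] {m : ℕ} [NeZero m] [IsCyclotomicExtension {m} L Ω] {ζ : Ω}

theorem sup_top (hζ : IsPrimitiveRoot ζ m) :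
    K⟮ζ⟯ ⊔ (IsScalarTower.toAlgHom K L Ω).fieldRange = ⊤ := by
  refine eq_top_iff.2 fun x h0 => ?_
  clear h0
  have hx : x ∈ Algebra.adjoin L ({ζ} : Set Ω) := by
    rw [IsCyclotomicExtension.adjoin_primitive_root_eq_top hζ]
    trivial
  induction hx using Algebra.adjoin_induction with
  | mem x hx =>
    rw [Set.mem_singleton_iff.1 hx]
    exact (le_sup_left : K⟮ζ⟯ ≤ _) (mem_adjoin_simple_self K ζ)
  | algebraMap r =>
    exact (le_sup_right : (IsScalarTower.toAlgHom K L Ω).fieldRange ≤ _) ⟨r, rfl⟩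
  | add x y _ _ hx hy => exact add_mem hx hy
  | mul x y _ _ hx hy => exact mul_mem hx hy

omit [Algebra K L] [IsScalarTower K L Ω] in
theorem eq_one (hζ : IsPrimitiveRoot ζ m) (g : Ω ≃ₐ[K] Ω)
    (h1 : ∀ x, g (algebraMap L Ω x) = algebraMap L Ω x) (h2 : g ζ = ζ) : g = 1 := by
  ext x
  have hx : x ∈ Algebra.adjoin L ({ζ} : Set Ω) := by
    rw [IsCyclotomicExtension.adjoin_primitive_root_eq_top hζ]
    trivial
  induction hx using Algebra.adjoin_induction with
  | mem x hx =>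
    rw [Set.mem_singleton_iff.1 hx]
    exact h2
  | algebraMap r => exact h1 r
  | add x y _ _ hx hy => rw [map_add, map_add, hx, hy]
  | mul x y _ _ hx hy => rw [map_mul, map_mul, hx, hy]

theorem normal [CharZero K] [Normal K L] [Algebra.IsIntegral K Ω] (hζ : IsPrimitiveRoot ζ m) : Normal K Ω := by
  have h1 := hζ.intermediateField_adjoin_isCyclotomicExtension K
  have h2 : IsGalois K K⟮ζ⟯ := IsCyclotomicExtension.isGalois {m} K _
  have h3 : Normal K (IsScalarTower.toAlgHom K L Ω).fieldRange :=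
    Normal.of_algEquiv (AlgEquiv.ofInjectiveField (IsScalarTower.toAlgHom K L Ω))
  have h4 : Normal K ↥(K⟮ζ⟯ ⊔ (IsScalarTower.toAlgHom K L Ω).fieldRange) := inferInstance
  rw [sup_top hζ] at h4
  exact Normal.of_algEquiv topEquiv

end Gen

theorem finrank_eq {L Ω : Type} [Field L] [NumberField L] [Field Ω] [NumberField Ω] [Algebra L Ω]
    {m : ℕ} [NeZero m] [IsCyclotomicExtension {m} L Ω] (hm : m.Coprime (discr L).natAbs) :
    Module.finrank L Ω = m.totient := by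
  have hζ := IsCyclotomicExtension.zeta_spec m L Ω
  set ζ := IsCyclotomicExtension.zeta m L Ω
  have h1 : IsCyclotomicExtension {m} ℚ ℚ⟮ζ⟯ :=
    hζ.intermediateField_adjoin_isCyclotomicExtension ℚ
  have h2 : IsGalois ℚ ℚ⟮ζ⟯ := IsCyclotomicExtension.isGalois {m} ℚ _
  let e : L ≃ₐ[ℚ] (IsScalarTower.toAlgHom ℚ L Ω).fieldRange :=
    AlgEquiv.ofInjectiveField (IsScalarTower.toAlgHom ℚ L Ω)
  have h3 : IsCoprime (discr ℚ⟮ζ⟯) (discr (IsScalarTower.toAlgHom ℚ L Ω).fieldRange) := by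
    rw [← discr_eq_discr_of_algEquiv L e, Int.isCoprime_iff_nat_coprime,
      IsCyclotomicExtension.Rat.natAbs_discr m ℚ⟮ζ⟯]
    exact Nat.Coprime.coprime_div_left (Nat.Coprime.pow_left _ hm)
      (Nat.prod_primeFactors_pow_totient_ediv_dvd (NeZero.pos _))
  have h4 := (linearDisjoint_of_isGalois_isCoprime_discr Ω _ _ h3).finrank_sup
  rw [sup_top hζ, finrank_top', IsCyclotomicExtension.Rat.finrank m ℚ⟮ζ⟯,
    ← e.toLinearEquiv.finrank_eq, ← Module.finrank_mul_finrank ℚ L Ω, mul_comm] at h4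
  exact Nat.eq_of_mul_eq_mul_right Module.finrank_pos h4

theorem main (hF : FrA) (hT : TowA) {K L Ω : Type} [Field K] [NumberField K] [Field L]
    [NumberField L] [Field Ω] [NumberField Ω] [Algebra K L] [Algebra L Ω] [Algebra K Ω]
    [IsScalarTower K L Ω] {m : ℕ} [NeZero m] [IsCyclotomicExtension {m} L Ω]
    [IsAbelianGalois K L] (hm : m.Coprime (discr L).natAbs) :
    IsAbelianGalois K Ω ∧
    ∃ (ζ : Ω) (Φ : (Ω ≃ₐ[K] Ω) →* (L ≃ₐ[K] L) × (ZMod m)ˣ),
      IsPrimitiveRoot ζ m ∧ Function.Bijective Φ ∧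
      (∀ g x, g (algebraMap L _ x) = algebraMap L _ ((Φ g).1 x)) ∧
      (∀ g, g ζ = ζ ^ ((Φ g).2 : ZMod m).val) ∧
      ∀ S S' : Finset (Pr K), UnrO L S → S ⊆ S' → (∀ q ∉ S', (m : 𝓞 K) ∉ q.asIdeal) →
        UnrO Ω S' := by
  have hζ := IsCyclotomicExtension.zeta_spec m L Ω
  set ζ := IsCyclotomicExtension.zeta m L Ω
  have hn : Normal K Ω := normal (L := L) hζ
  have hG : IsGalois K Ω := ⟨⟩
  have hGL : IsGalois L Ω := IsCyclotomicExtension.isGalois {m} L _
  let Φ : (Ω ≃ₐ[K] Ω) →* (L ≃ₐ[K] L) × (ZMod m)ˣ :=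
    (AlgEquiv.restrictNormalHom L).prod (hζ.autToPow K)
  have h1 : ∀ g x, g (algebraMap L Ω x) = algebraMap L Ω ((Φ g).1 x) := fun g x =>
    (AlgEquiv.restrictNormal_commutes g L x).symm
  have h2 : ∀ g, g ζ = ζ ^ ((Φ g).2 : ZMod m).val := fun g => (hζ.autToPow_spec K g).symm
  have hinj : Function.Injective Φ := by
    refine (injective_iff_map_eq_one Φ).2 fun g hg => eq_one (L := L) hζ g (fun x => ?_) ?_
    · rw [h1, hg]
      rfl
    · rw [h2, hg, ← Φ.map_one, ← h2]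
      rfl
  have hc : IsMulCommutative (Ω ≃ₐ[K] Ω) :=
    ⟨⟨fun a b => hinj (by rw [map_mul, map_mul, mul_comm])⟩⟩
  refine ⟨⟨⟩, ζ, Φ, hζ, ?_, h1, h2, fun S S' hS hSS' hm' Q hQ => ?_⟩
  · refine hinj.bijective_of_nat_card_le ?_
    rw [Nat.card_prod, IsGalois.card_aut_eq_finrank, IsGalois.card_aut_eq_finrank,
      Nat.card_eq_fintype_card, ZMod.card_units_eq_totient, ← finrank_eq (Ω := Ω) hm,
      Module.finrank_mul_finrank]
  · rw [(hT K Ω L).eI_mul, hS _ fun h => hQ (hSS' (by rwa [(hT K Ω L).below_below] at h)),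
      mul_one]
    refine ((hF L Ω).inert hGL Q).2 fun g hg => eq_one (L := L) hζ g g.commutes ?_
    refine (hF L Ω).sep m ζ Q g (NeZero.ne m) hζ (fun h => hm' _ hQ ?_) hg
    change algebraMap (𝓞 K) (𝓞 Ω) m ∈ Q.asIdeal
    rwa [map_natCast]

end CycFAux

theorem cycF (hF : FrA) (hT : TowA) : CycFA := by
  intro K L _ _ _ _ _ hab m hm0 hm
  have : NeZero m := ⟨hm0⟩
  exact CycFAux.main hF hT hm

end Pool.Agent.Stark.AR
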