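import Pool.Agent.Lib.MP_ca56d1_nt.AR.St
import Pool.Agent.Lib.MP_ca56d1_nt.EulerQuad

/-! The density bound for primes with trivial ray class. -/

namespace Pool.Agent.Stark.AR

open NumberField IsDedekindDomain StarkStmt Filter Topology
open scoped Classical

namespace DenAux

theorem exp_le (z : ℂ) (hz : 1 - z ≠ 0) : Real.exp (z.re - ‖z‖ ^ 2) ≤ ‖(1 - z)⁻¹‖ := by
  have h1 : ‖1 - z‖ ^ 2 ≤ Real.exp (-(z.re - ‖z‖ ^ 2)) ^ 2 := by
    rw [← Real.exp_nat_mul]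
    have h2 : ‖1 - z‖ ^ 2 = 1 - 2 * z.re + ‖z‖ ^ 2 := by
      simp only [Complex.sq_norm, Complex.normSq_apply, Complex.sub_re, Complex.sub_im,
        Complex.one_re, Complex.one_im]
      ring
    have h3 := Real.add_one_le_exp (((2 : ℕ) : ℝ) * -(z.re - ‖z‖ ^ 2))
    have h4 := sq_nonneg ‖z‖
    push_cast at h3 ⊢
    linarith
  have h5 : ‖1 - z‖ ≤ Real.exp (-(z.re - ‖z‖ ^ 2)) :=
    (pow_le_pow_iff_left₀ (norm_nonneg _) (Real.exp_pos _).le two_ne_zero).1 h1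
  rw [norm_inv, le_inv_comm₀ (Real.exp_pos _) (norm_pos_iff.2 hz), ← Real.exp_neg]
  exact h5

variable {F : Type} [Field F] [NumberField F]

theorem cpow_eq (q : Pr F) (s : ℝ) : (Ideal.absNorm q.asIdeal : ℂ) ^ (-(s : ℂ)) =
    (((Ideal.absNorm q.asIdeal : ℝ) ^ (-s) : ℝ) : ℂ) := by
  rw [Complex.ofReal_cpow (Nat.cast_nonneg _)]
  simp

theorem one_le_norm (q : Pr F) : (1 : ℝ) ≤ Ideal.absNorm q.asIdeal := by
  have : Ideal.absNorm q.asIdeal ≠ 0 := fun h => q.ne_bot (Ideal.absNorm_eq_zero_iff.1 h)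
  exact_mod_cast Nat.one_le_iff_ne_zero.2 this

theorem sq_le (q : Pr F) {s : ℝ} (hs : 1 < s) :
    ((Ideal.absNorm q.asIdeal : ℝ) ^ (-s)) ^ 2 ≤ (Ideal.absNorm q.asIdeal : ℝ) ^ (-(2 : ℝ)) := by
  rw [← Real.rpow_natCast, ← Real.rpow_mul (Nat.cast_nonneg _)]
  refine Real.rpow_le_rpow_of_exponent_le (one_le_norm q) ?_
  push_cast
  linarith

theorem exp_sum_le (h2 : PsSt F) (S : Finset (Pr F)) (c : Ideal (𝓞 F) → ℂ)
    (hc : ∀ q : Pr F, ‖c q.asIdeal‖ = 1) {s : ℝ} (hs : 1 < s) (T : Finset (Pr F)) :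
    Real.exp (∑ q ∈ T, (if q ∈ S then 0 else
      (c q.asIdeal).re * (Ideal.absNorm q.asIdeal : ℝ) ^ (-s)) - ps (Set.univ : Set (Pr F)) 2) ≤
      ‖∏ q ∈ T, if q ∈ S then (1 : ℂ) else
        (1 - c q.asIdeal * (Ideal.absNorm q.asIdeal : ℂ) ^ (-(s : ℂ)))⁻¹‖ := by
  have h1 : ∑ q ∈ T, (Ideal.absNorm q.asIdeal : ℝ) ^ (-(2 : ℝ)) ≤ ps (Set.univ : Set (Pr F)) 2 := by
    have := (h2.summable Set.univ 2 (by norm_num)).sum_le_tsum T fun q _ => by positivity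
    simpa [ps] using this
  refine le_trans (Real.exp_le_exp.2 (sub_le_sub_left h1 _)) ?_
  rw [← Finset.sum_sub_distrib, Real.exp_sum, norm_prod]
  refine Finset.prod_le_prod (fun q _ => (Real.exp_pos _).le) fun q _ => ?_
  have h3 : 0 ≤ (Ideal.absNorm q.asIdeal : ℝ) ^ (-(2 : ℝ)) := by positivity
  split_ifs with hq
  · rw [norm_one, Real.exp_le_one_iff]; linarith
  · refine le_trans (Real.exp_le_exp.2 ?_)
      (exp_le _ (one_sub_ne q (hc q).le (by simpa using lt_trans one_pos hs)))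
    have h4 := sq_le q hs
    rw [cpow_eq, norm_mul, hc, one_mul, Complex.norm_real, Real.norm_eq_abs, sq_abs,
      Complex.re_mul_ofReal]
    linarith

theorem bound_one (S : Finset (Pr F)) (c : Ideal (𝓞 F) → ℂ) (hc : ∀ q : Pr F, c q.asIdeal = 1) :
    ∃ K : ℝ, ∀ᶠ s : ℝ in 𝓝[>] 1, ‖Lfun S c s‖ ≤ K / (s - 1) := by
  obtain ⟨r, -, hr⟩ := EulerQuadAux.tendsto_zI F
  have h1 := hr.norm.eventually (gt_mem_nhds (lt_add_one ‖r‖))
  refine ⟨(‖r‖ + 1) * 2 ^ S.card, ?_⟩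
  filter_upwards [h1, self_mem_nhdsWithin] with s hs hs1
  have hs1' : 1 < s := hs1
  have h0 : 0 < s - 1 := by linarith
  rw [Lfun_one S c (fun q _ => hc q) (by simpa using hs1'), norm_mul, le_div_iff₀ h0]
  have h2 : ‖∏ q ∈ S, (1 - (Ideal.absNorm q.asIdeal : ℂ) ^ (-(s : ℂ)))‖ ≤ 2 ^ S.card := by
    rw [norm_prod]
    refine le_trans (Finset.prod_le_prod (fun _ _ => norm_nonneg _) (g := fun _ => 2)
      fun q _ => ?_) (by simp)
    refine le_trans (norm_sub_le _ _) ?_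
    rw [cpow_eq, norm_one, Complex.norm_real, Real.norm_of_nonneg (by positivity)]
    have := Real.rpow_le_one_of_one_le_of_nonpos (one_le_norm q) (z := -s) (by linarith)
    linarith
  have h3 : ‖zI F s‖ * (s - 1) ≤ ‖r‖ + 1 := by
    have e : ((s : ℂ) - 1) = ((s - 1 : ℝ) : ℂ) := by push_cast; rfl
    rw [norm_mul, e, Complex.norm_real, Real.norm_of_nonneg h0.le] at hs
    linarith
  calc _ = (‖zI F s‖ * (s - 1)) * ‖∏ q ∈ S, (1 - (Ideal.absNorm q.asIdeal : ℂ) ^ (-(s : ℂ)))‖ := by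
        ring
    _ ≤ _ := mul_le_mul h3 h2 (norm_nonneg _) (by positivity)

theorem tendsto_exp (h2 : PsSt F) (P : Set (Pr F)) {s : ℝ} (hs : 1 < s) (a b : ℝ) :
    Tendsto (fun T : Finset (Pr F) => Real.exp (a * (∑ q ∈ T,
      if q ∈ P then (Ideal.absNorm q.asIdeal : ℝ) ^ (-s) else 0) - b)) atTop
      (𝓝 (Real.exp (a * ps P s - b))) :=
  (Real.continuous_exp.tendsto _).comp
    ((Tendsto.const_mul _ (h2.summable P s hs).hasSum).sub_const _)

end DenAux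

open DenAux in
theorem den (h1 : LBdA) (h2 : PsA) : DenA := by
  intro F _ _ S N Γ _ _ c hW hgen
  let _ : Fintype Γ := Fintype.ofFinite Γ
  let θ : AddChar (Additive Γ) ℂ → Γ →* ℂˣ := fun ψ =>
    (ψ.toMonoidHom.comp (MulEquiv.multiplicativeAdditive Γ).symm.toMonoidHom).toHomUnits
  have hθ : ∀ ψ g, (θ ψ g : ℂ) = ψ (Additive.ofMul g) := fun _ _ => rfl
  let cf : AddChar (Additive Γ) ℂ → Ideal (𝓞 F) → ℂ := fun ψ =>
    Function.extend (fun q : Pr F => q.asIdeal) (fun q => (θ ψ (c q) : ℂ)) 0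
  have hcf : ∀ ψ (q : Pr F), cf ψ q.asIdeal = θ ψ (c q) := fun ψ q =>
    Function.Injective.extend_apply (f := fun q : Pr F => q.asIdeal)
      (fun _ _ h => HeightOneSpectrum.ext h) _ _ q
  have hn : ∀ ψ g, ‖(θ ψ g : ℂ)‖ = 1 := fun ψ g => by rw [hθ]; exact ψ.norm_apply _
  have hb : ∀ ψ : AddChar (Additive Γ) ℂ, ∃ K : ℝ, ∀ᶠ s : ℝ in 𝓝[>] 1,
      ‖Lfun S (cf ψ) s‖ ≤ K * if ψ = 0 then 1 / (s - 1) else 1 := by
    intro ψ
    by_cases h0 : ψ = 0
    · obtain ⟨K, hK⟩ := bound_one S (cf ψ) fun q => by rw [hcf, hθ, h0]; rfl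
      exact ⟨K, by simpa only [h0, if_true, mul_one_div] using hK⟩
    · obtain ⟨K, hK⟩ := h1 F S N (fun q => θ ψ (c q)) (cf ψ) (fun q => hn ψ _) (hcf ψ)
        (fun a ha => by rw [← map_ev, hW a ha, map_one]) (by
          by_contra h
          push Not at h
          apply h0
          have h3 : Subgroup.closure (c '' {q | q ∉ S}) ≤ (θ ψ).ker := by
            rw [Subgroup.closure_le]
            rintro _ ⟨q, hq, rfl⟩
            exact h q hq
          rw [hgen] at h3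
          ext g
          have h4 : θ ψ (Additive.toMul g) = 1 := h3 (Subgroup.mem_top _)
          have h5 := hθ ψ (Additive.toMul g)
          rw [h4] at h5
          simpa using h5.symm)
      refine ⟨K, ?_⟩
      have h6 : ∀ᶠ s : ℝ in 𝓝[>] 1, s < 2 := nhdsWithin_le_nhds (Iio_mem_nhds (by norm_num))
      filter_upwards [h6, self_mem_nhdsWithin] with s hs hs1
      rw [if_neg h0, mul_one]
      exact hK s hs1 hs.le
  choose K hK using hb
  refine ⟨Real.log (∏ ψ, K ψ) +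
    Fintype.card (AddChar (Additive Γ) ℂ) * ps (Set.univ : Set (Pr F)) 2, ?_⟩
  filter_upwards [Filter.eventually_all.2 hK, self_mem_nhdsWithin] with s hs hs1
  have hs1' : 1 < s := hs1
  have hsc : 1 < (s : ℂ).re := by simpa using hs1'
  have hle : ∀ ψ, ∀ q ∉ S, ‖cf ψ q.asIdeal‖ ≤ 1 := fun ψ q _ => by rw [hcf, hn]
  have e1 : ∀ T : Finset (Pr F), ∑ ψ, ∑ q ∈ T, (if q ∈ S then 0 else
      (cf ψ q.asIdeal).re * (Ideal.absNorm q.asIdeal : ℝ) ^ (-s)) =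
      Nat.card Γ * ∑ q ∈ T, @ite _ (q ∈ {q | q ∉ S ∧ c q = 1}) (Classical.propDecidable _)
        ((Ideal.absNorm q.asIdeal : ℝ) ^ (-s)) 0 := by
    intro T
    rw [Finset.sum_comm, Finset.mul_sum]
    refine Finset.sum_congr rfl fun q _ => ?_
    by_cases hq : q ∈ S
    · simp [hq]
    · simp only [hq, if_false, hcf, hθ, ← Finset.sum_mul, ← Complex.re_sum,
        AddChar.sum_apply_eq_ite, Set.mem_ofPred_eq, not_false_eq_true, true_and, ofMul_eq_zero]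
      split_ifs <;> simp
  have t1 := tendsto_exp (h2 F) {q | q ∉ S ∧ c q = 1} hs1' (Nat.card Γ)
    (Fintype.card (AddChar (Additive Γ) ℂ) * ps (Set.univ : Set (Pr F)) 2)
  have t2 : Tendsto (fun T : Finset (Pr F) => ∏ ψ, ‖∏ q ∈ T, if q ∈ S then (1 : ℂ) else
      (1 - cf ψ q.asIdeal * (Ideal.absNorm q.asIdeal : ℂ) ^ (-(s : ℂ)))⁻¹‖) atTop
      (𝓝 (∏ ψ, ‖Lfun S (cf ψ) s‖)) :=
    tendsto_finsetProd _ fun ψ _ => Tendsto.norm (Lfun_hasProd S (cf ψ) (hle ψ) hsc)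
  have t3 := le_of_tendsto_of_tendsto' t1 t2 fun T => by
    rw [← e1, ← nsmul_eq_mul, ← Finset.card_univ, ← Finset.sum_const, ← Finset.sum_sub_distrib,
      Real.exp_sum]
    exact Finset.prod_le_prod (fun _ _ => (Real.exp_pos _).le) fun ψ _ =>
      exp_sum_le (h2 F) S (cf ψ) (fun q => by rw [hcf, hn]) hs1' T
  have t4 : ∏ ψ, ‖Lfun S (cf ψ) s‖ ≤ (∏ ψ, K ψ) * (1 / (s - 1)) := by
    refine le_trans (Finset.prod_le_prod (fun _ _ => norm_nonneg _) fun ψ _ => hs ψ) ?_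
    rw [Finset.prod_mul_distrib, Finset.prod_ite_eq', if_pos (Finset.mem_univ _)]
  have t5 := t3.trans t4
  have h0 : 0 < 1 / (s - 1) := one_div_pos.2 (by linarith)
  have h7 : 0 < ∏ ψ, K ψ :=
    (mul_pos_iff_of_pos_right h0).1 (lt_of_lt_of_le (Real.exp_pos _) t5)
  rw [← Real.le_log_iff_exp_le (mul_pos h7 h0), Real.log_mul h7.ne' h0.ne'] at t5
  linarith

end Pool.Agent.Stark.AR
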