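import Pool.Agent.Lib.MP_ca56d1_nt.AR.St

/-! Vanishing of the first cohomology of a group of principal units of a filtration. -/

namespace Pool.Agent.Stark.AR

namespace FiltAux

section Gen

variable {L : Type} [Field L] {M : ℤ → AddSubgroup L} (hM : Antitone M) (hx : ∀ x, ∃ k, x ∈ M k)
  (hm : ∀ j k, ∀ a ∈ M j, ∀ b ∈ M k, a * b ∈ M (j + k + 1))

include hM hx hm in
theorem climb {a c y : L} {m : ℤ} (ha : a ∈ M 0) (hc : c ∈ M m) (hy : y = c - a * y) :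
    y ∈ M m := by
  obtain ⟨k, hk⟩ := hx y
  have h : ∀ n : ℕ, y ∈ M (min (k + n) m) := fun n => by
    induction n with
    | zero => exact hM (by simp) hk
    | succ n ih =>
      rw [hy]
      exact sub_mem (hM (min_le_right _ _) hc) (hM (by push_cast; omega) (hm _ _ _ ha _ ih))
  exact hM (by omega) (h (m - k).toNat)

include hM hm in
theorem mul_sub {k : ℤ} (hk : 0 ≤ k) {x y : L} (h : x - 1 ∈ M k) (h' : y - 1 ∈ M k) :
    x * y - 1 ∈ M k := by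
  have h1 := add_mem (add_mem h h') (hM (by omega : k ≤ k + k + 1) (hm _ _ _ h _ h'))
  convert h1 using 1
  ring

include hM hx hm in
theorem div_mem' {k : ℤ} {c u : L} (hc : c ∈ M k) (hu : u - 1 ∈ M 0) (h0 : u ≠ 0) :
    c / u ∈ M k :=
  climb hM hx hm hu hc (by field_simp; ring)

include hM hm in
theorem prod_sub {ι : Type} {k : ℤ} (hk : 0 ≤ k) (s : Finset ι) (x : ι → L)
    (h : ∀ i, x i - 1 ∈ M k) :
    ∏ i ∈ s, x i - 1 ∈ M k ∧ ∏ i ∈ s, x i - 1 - ∑ i ∈ s, (x i - 1) ∈ M (k + 1) := by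
  classical
  induction s using Finset.induction_on with
  | empty => simp
  | insert i s hi ih =>
    rw [Finset.prod_insert hi, Finset.sum_insert hi]
    refine ⟨mul_sub hM hm hk (h i) ih.1, ?_⟩
    have h1 := add_mem ih.2 (hM (by omega : k + 1 ≤ k + k + 1) (hm _ _ _ (h i) _ ih.1))
    convert h1 using 1
    ring

end Gen

variable {K L : Type} [Field K] [Field L] [Algebra K L] [FiniteDimensional K L] [IsGalois K L]
  {σ : L ≃ₐ[K] L} {M : ℤ → AddSubgroup L}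

omit [IsGalois K L] in
theorem prod_twist (σ : L ≃ₐ[K] L) {x u : L} (h0 : u ≠ 0) :
    ∏ g : L ≃ₐ[K] L, g (x * σ u / u) = ∏ g : L ≃ₐ[K] L, g x := by
  have h1 : ∏ g : L ≃ₐ[K] L, g (σ u) = ∏ g : L ≃ₐ[K] L, g u :=
    Fintype.prod_equiv (Equiv.mulRight σ) _ _ fun _ => rfl
  have h2 : ∏ g : L ≃ₐ[K] L, g u ≠ 0 := Finset.prod_ne_zero_iff.2 fun g _ => by simpa using h0
  simp only [map_div₀, map_mul, Finset.prod_div_distrib, Finset.prod_mul_distrib, h1]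
  field_simp

theorem h90 (hσ : ∀ h, h ∈ Subgroup.zpowers σ) {x : L} (h : ∏ g : L ≃ₐ[K] L, g x = 1) :
    ∃ z : L, z ≠ 0 ∧ z / σ z = x := by
  have : IsCyclic (L ≃ₐ[K] L) := ⟨σ, hσ⟩
  obtain ⟨z, hz⟩ := groupCohomology.exists_div_of_norm_eq_one hσ (x := x)
    ((algebraMap K L).injective (by rw [Algebra.norm_eq_prod_automorphisms, h, map_one]))
  exact ⟨z, z.ne_zero, hz⟩

variable (hM : Antitone M) (hg : ∀ (g : L ≃ₐ[K] L) k, ∀ x ∈ M k, g x ∈ M k)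
  (hx : ∀ x, ∃ k, x ∈ M k) (hm : ∀ j k, ∀ a ∈ M j, ∀ b ∈ M k, a * b ∈ M (j + k + 1))
  (ht : ∀ k, ∀ a ∈ M k, ∑ g : L ≃ₐ[K] L, g a ∈ M (k + 1) →
    ∃ b ∈ M k, a - (b - σ b) ∈ M (k + 1)) (h1 : (-1 : L) ∉ M 0)

omit [FiniteDimensional K L] [IsGalois K L] in
include hg in
theorem app_sub (g : L ≃ₐ[K] L) {k : ℤ} {x : L} (h : x - 1 ∈ M k) : g x - 1 ∈ M k := by
  simpa using hg g k _ h

omit [IsGalois K L] in
include hM hg hx hm ht h1 in
theorem step {x : L} (h : x - 1 ∈ M 0) (hn : ∏ g : L ≃ₐ[K] L, g x = 1) (k : ℕ) :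
    ∃ u : L, u ≠ 0 ∧ u - 1 ∈ M 0 ∧ x * σ u / u - 1 ∈ M k := by
  induction k with
  | zero => exact ⟨1, one_ne_zero, by simp, by simpa using h⟩
  | succ k ih =>
    obtain ⟨u, hu0, hu, hk⟩ := ih
    have h2 := (prod_sub hM hm (Int.natCast_nonneg k) Finset.univ
      (fun g : L ≃ₐ[K] L => g (x * σ u / u)) fun g => app_sub hg g hk).2
    rw [prod_twist σ hu0, hn, sub_self, zero_sub, neg_mem_iff] at h2
    obtain ⟨b, hb, h3⟩ := ht k _ hk (by simpa only [map_sub, map_one] using h2)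
    have hb0 : 1 + b - 1 ∈ M 0 := by simpa using hM (Int.natCast_nonneg k) hb
    have hb1 : 1 + b ≠ 0 := fun h4 => h1 (by simpa [h4] using hb0)
    refine ⟨u * (1 + b), mul_ne_zero hu0 hb1, mul_sub hM hm le_rfl hu hb0, ?_⟩
    have h4 := div_mem' hM hx hm (add_mem h3
      (hM (by omega : (k : ℤ) + 1 ≤ k + k + 1) (hm _ _ _ hk _ (hg σ _ _ hb)))) hb0 hb1
    push_cast
    convert h4 using 1
    rw [map_mul, map_add, map_one]
    field_simp
    ring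

include hM hg hm h1 in
theorem last [CharZero L] (hσ : ∀ h, h ∈ Subgroup.zpowers σ) {x : L} {j : ℤ} {k : ℕ}
    (hj : ((Fintype.card (L ≃ₐ[K] L) : L))⁻¹ ∈ M j) (hk : 0 ≤ j + k + 1) (h : x - 1 ∈ M k)
    (hn : ∏ g : L ≃ₐ[K] L, g x = 1) : ∃ y : L, y ≠ 0 ∧ y - 1 ∈ M 0 ∧ y / σ y = x := by
  obtain ⟨z, hz0, rfl⟩ := h90 hσ hn
  have hz : ∀ g : L ≃ₐ[K] L, g z ≠ 0 := fun g => by simpa using hz0
  have h2 : ∀ n : ℕ, z / (σ ^ n) z - 1 ∈ M k := fun n => by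
    induction n with
    | zero => simp [hz0]
    | succ n ih =>
      have h3 := mul_sub hM hm (Int.natCast_nonneg k) h (app_sub hg σ ih)
      convert h3 using 2
      rw [pow_succ', AlgEquiv.mul_apply, map_div₀]
      have := hz σ
      field_simp
  have h3 : ∀ g : L ≃ₐ[K] L, z / g z - 1 ∈ M k := fun g => by
    obtain ⟨n, rfl⟩ := (mem_powers_iff_mem_zpowers).2 (hσ g)
    exact h2 n
  have hc : (Fintype.card (L ≃ₐ[K] L) : L) ≠ 0 := Nat.cast_ne_zero.2 Fintype.card_ne_zero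
  have h4 : σ (∑ g : L ≃ₐ[K] L, (g z)⁻¹) = ∑ g : L ≃ₐ[K] L, (g z)⁻¹ := by
    rw [map_sum]
    exact Fintype.sum_equiv (Equiv.mulLeft σ) _ _ fun g => map_inv₀ σ _
  have h5 : (Fintype.card (L ≃ₐ[K] L) : L)⁻¹ * (z * ∑ g : L ≃ₐ[K] L, (g z)⁻¹) - 1 ∈ M 0 := by
    have h6 := hM hk (hm _ _ _ hj _ (sum_mem fun g (_ : g ∈ Finset.univ) => h3 g))
    convert h6 using 1
    rw [Finset.sum_sub_distrib, Finset.mul_sum, Finset.sum_const, Finset.card_univ, nsmul_eq_mul,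
      mul_one, _root_.mul_sub, inv_mul_cancel₀ hc]
    simp only [div_eq_mul_inv]
  have h7 : (Fintype.card (L ≃ₐ[K] L) : L)⁻¹ * (z * ∑ g : L ≃ₐ[K] L, (g z)⁻¹) ≠ 0 :=
    fun h8 => h1 (by simpa only [h8, zero_sub] using h5)
  refine ⟨_, h7, h5, ?_⟩
  have h8 : ∑ g : L ≃ₐ[K] L, (g z)⁻¹ ≠ 0 := fun h9 => h7 (by rw [h9, mul_zero, mul_zero])
  rw [map_mul, map_mul, h4, map_inv₀, map_natCast, mul_div_mul_left _ _ (inv_ne_zero hc),
    mul_div_mul_right _ _ h8]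

end FiltAux

open FiltAux in
theorem filt (_hG : GalA) : FiltA := by
  intro K L _ _ _ _ _ hG σ M hσ hM hg hx hm ht
  refine ⟨{ carrier := {x | (x : L) - 1 ∈ M 0}
            mul_mem' := fun {a b} ha hb => mul_sub hM hm le_rfl ha hb
            one_mem' := by simp
            inv_mem' := fun {a} ha => ?_ }, fun _ => Iff.rfl, fun x hx0 hn => ?_⟩
  · have h1 := div_mem' hM hx hm (neg_mem ha) ha a.ne_zero
    change ((a⁻¹ : Lˣ) : L) - 1 ∈ M 0
    convert h1 using 1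
    rw [Units.val_inv_eq_inv_val]
    field_simp
    ring
  have hx1 : (x : L) - 1 ∈ M 0 := hx0
  have hn' : ∏ g : L ≃ₐ[K] L, g (x : L) = 1 := by
    have h1 := congrArg Units.val hn
    rw [nrm_apply, Units.coe_prod] at h1
    exact h1
  suffices H : ∃ y : L, y ≠ 0 ∧ y - 1 ∈ M 0 ∧ y / σ y = x by
    obtain ⟨y, hy0, hy1, hy⟩ := H
    refine ⟨Units.mk0 y hy0, hy1, Units.ext ?_⟩
    rw [Units.val_div_eq_div_val, ← hy]
    rfl
  by_cases h1 : (-1 : L) ∈ M 0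
  · obtain ⟨z, hz0, hz⟩ := h90 hσ hn'
    exact ⟨z, hz0, climb hM hx hm h1 (zero_mem _) (by ring), hz⟩
  · obtain ⟨j, hj⟩ := hx ((Fintype.card (L ≃ₐ[K] L) : L))⁻¹
    obtain ⟨u, hu0, hu, hk⟩ := step hM hg hx hm ht h1 hx1 hn' (-j).toNat
    obtain ⟨y, hy0, hy1, hy⟩ := last hM hg hm h1 hσ hj (by omega) hk
      ((prod_twist σ hu0).trans hn')
    refine ⟨y * u, mul_ne_zero hy0 hu0, mul_sub hM hm le_rfl hy1 hu, ?_⟩
    have h2 : σ u ≠ 0 := by simpa using hu0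
    rw [map_mul, mul_div_mul_comm, hy]
    field_simp

end Pool.Agent.Stark.AR
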