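import Pool.Agent.Lib.MP_ca56d1_nt.AR.St

/-! Cyclic quotients of prime power order and generators of cyclic groups of prime power order. -/

namespace Pool.Agent.Stark.AR

namespace GrpAux

theorem sep {G : Type} [CommGroup G] [Finite G] (g : G) (hg : g ≠ 1) :
    ∃ (H : Subgroup G) (p : ℕ), p.Prime ∧ g ∉ H ∧ IsCyclic (G ⧸ H) ∧ IsPGroup p (G ⧸ H) := by
  have hn : Nat.card G ≠ 0 := Nat.card_pos.ne'
  have : NeZero (Monoid.exponent G) := ⟨Monoid.exponent_ne_zero_of_finite⟩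
  obtain ⟨φ, hφ⟩ := CommGroup.exists_apply_ne_one_of_hasEnoughRootsOfUnity G ℂ hg
  have hd : orderOf (φ g) ≠ 1 := fun h => hφ (orderOf_eq_one_iff.1 h)
  obtain ⟨p, hp, hpd⟩ := Nat.exists_prime_and_dvd hd
  obtain ⟨a, r, hr, hn'⟩ := Nat.exists_eq_pow_mul_and_not_dvd hn p hp.ne_one
  let ψ : G →* ℂˣ := (powMonoidHom r).comp φ
  have hψ : ∀ x, ψ x = φ x ^ r := fun _ => rfl
  refine ⟨ψ.ker, p, hp, fun h => hr (hpd.trans ?_), ?_, fun x => ⟨a, ?_⟩⟩
  · rw [MonoidHom.mem_ker, hψ] at h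
    exact orderOf_dvd_of_pow_eq_one h
  · exact isCyclic_of_injective_ringHom ((Units.coeHom ℂ).comp (QuotientGroup.kerLift ψ))
      (Units.val_injective.comp (QuotientGroup.kerLift_injective ψ))
  · obtain ⟨y, rfl⟩ := QuotientGroup.mk_surjective x
    rw [← QuotientGroup.mk_pow, QuotientGroup.eq_one_iff, MonoidHom.mem_ker, hψ, ← map_pow,
      ← pow_mul, ← hn', pow_card_eq_one', map_one]

theorem gen {G : Type} [Group G] [Finite G] [IsCyclic G] [Nontrivial G] (p : ℕ) (X : Set G)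
    (hp : p.Prime) (hG : IsPGroup p G) (hX : Subgroup.closure X = ⊤) :
    ∃ σ ∈ X, ∀ h, h ∈ Subgroup.zpowers σ := by
  have := Fact.mk hp
  obtain ⟨γ, hγ⟩ := IsCyclic.exists_monoid_generator (α := G)
  have hγ' : Subgroup.zpowers γ = ⊤ := by
    rw [eq_top_iff]
    intro x _
    obtain ⟨j, rfl⟩ := hγ x
    exact Subgroup.npow_mem_zpowers γ j
  obtain ⟨k, hk⟩ := IsPGroup.iff_orderOf.1 hG γ
  have hk0 : k ≠ 0 := by
    rintro rfl
    rw [pow_zero, orderOf_eq_one_iff] at hk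
    rw [hk, Subgroup.zpowers_one_eq_bot] at hγ'
    exact bot_ne_top hγ'
  by_contra hcon
  have h1 : X ⊆ Subgroup.zpowers (γ ^ p) := by
    intro x hx
    obtain ⟨j, rfl⟩ := hγ x
    by_cases hj : p ∣ j
    · obtain ⟨t, rfl⟩ := hj
      change γ ^ (p * t) ∈ Subgroup.zpowers (γ ^ p)
      rw [pow_mul]
      exact Subgroup.npow_mem_zpowers _ t
    · refine (hcon ⟨_, hx, fun h => ?_⟩).elim
      have h2 : γ ∈ Subgroup.zpowers (γ ^ j) := by
        rw [mem_zpowers_pow_iff, hk]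
        exact Nat.Coprime.pow_right k ((Nat.Prime.coprime_iff_not_dvd hp).2 hj).symm
      have h3 : Subgroup.zpowers γ ≤ Subgroup.zpowers (γ ^ j) := Subgroup.zpowers_le.2 h2
      exact h3 (hγ'.symm ▸ Subgroup.mem_top h)
  have h4 : γ ∈ Subgroup.zpowers (γ ^ p) :=
    (Subgroup.closure_le _).2 h1 (hX.symm ▸ Subgroup.mem_top γ)
  rw [mem_zpowers_pow_iff, hk] at h4
  have h5 : p ∣ Nat.gcd p (p ^ k) := Nat.dvd_gcd dvd_rfl (dvd_pow_self p hk0)
  rw [h4] at h5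
  exact hp.one_lt.ne' (Nat.dvd_one.1 h5)

end GrpAux

theorem grp : GrpSt :=
  { sep := fun g hg => GrpAux.sep g hg
    gen := fun p X hp hG hX => GrpAux.gen p X hp hG hX }

end Pool.Agent.Stark.AR
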