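import Pool.Agent.Lib.MP_ca56d1_nt.AR.St

/-! The Herbrand quotient of a group of units. -/

namespace Pool.Agent.Stark.AR

namespace HQAux

theorem finrank_prod_int (A : Type) [AddCommGroup A] [Module.Finite ℤ A] :
    Module.finrank ℤ (A × ℤ) = Module.finrank ℤ A + 1 := by
  have h1 := (LinearMap.ker (LinearMap.snd ℤ A ℤ)).finrank_quotient_add_finrank
  have h2 := ((LinearMap.snd ℤ A ℤ).quotKerEquivOfSurjective
    LinearMap.snd_surjective).finrank_eq
  have h3 := (LinearEquiv.ofInjective (LinearMap.inl ℤ A ℤ) LinearMap.inl_injective).finrank_eq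
  rw [LinearMap.range_inl] at h3
  rw [← h1, h2, ← h3, Module.finrank_self, add_comm]

variable {G W : Type} [Group G] [CommGroup W] [MulDistribMulAction G W] {U : Subgroup W}

/-- The underlying element. -/
def pr (U : Subgroup W) : Additive U × ℤ →+ Additive W :=
  (MonoidHom.toAdditive U.subtype).comp (AddMonoidHom.fst _ _)

theorem ext2 {m m' : Additive U × ℤ} (h1 : (pr U m).toMul = (pr U m').toMul) (h2 : m.2 = m'.2) :
    m = m' := Prod.ext (Additive.toMul.injective (Subtype.ext h1)) h2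

theorem pr_mem (m : Additive U × ℤ) : (pr U m).toMul ∈ U := m.1.toMul.2

/-- The action on the product. -/
def rho (hU : ∀ (g : G), ∀ u ∈ U, g • u ∈ U) : Representation ℤ G (Additive U × ℤ) where
  toFun g := (AddMonoidHom.prodMap (MonoidHom.toAdditive
    (((MulDistribMulAction.toMonoidHom W g).comp U.subtype).codRestrict U fun u => hU g u u.2))
    (AddMonoidHom.id ℤ)).toIntLinearMap
  map_one' := LinearMap.ext fun m => ext2 (one_smul G (pr U m).toMul) rfl
  map_mul' g h := LinearMap.ext fun m => ext2 (mul_smul g h (pr U m).toMul) rfl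

variable (hU : ∀ (g : G), ∀ u ∈ U, g • u ∈ U)

theorem pr_rho (g : G) (m : Additive U × ℤ) : (pr U (rho hU g m)).toMul = g • (pr U m).toMul := rfl

theorem rho_snd (g : G) (m : Additive U × ℤ) : (rho hU g m).2 = m.2 := rfl

/-- The map one minus a generator. -/
def gg (σ : G) : Additive U × ℤ →+ Additive U × ℤ :=
  AddMonoidHom.id _ - (rho hU σ).toAddMonoidHom

theorem gg_apply (σ : G) (m : Additive U × ℤ) : gg hU σ m = m - rho hU σ m := rfl

theorem pr_gg (σ : G) (m : Additive U × ℤ) :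
    (pr U (gg hU σ m)).toMul = (pr U m).toMul / σ • (pr U m).toMul := by
  rw [gg_apply, map_sub, toMul_sub, pr_rho]

theorem gg_snd (σ : G) (m : Additive U × ℤ) : (gg hU σ m).2 = 0 := by
  rw [gg_apply, Prod.snd_sub, rho_snd, sub_self]

variable [Fintype G]

/-- The norm map. -/
noncomputable def ff : Additive U × ℤ →+ Additive U × ℤ := ∑ g : G, (rho hU g).toAddMonoidHom

theorem ff_apply (m : Additive U × ℤ) : ff hU m = ∑ g : G, rho hU g m := by
  simp [ff]

theorem pr_ff (m : Additive U × ℤ) : (pr U (ff hU m)).toMul = nrm G (pr U m).toMul := by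
  rw [ff_apply, map_sum, toMul_sum, nrm_apply]
  rfl

theorem ff_snd (m : Additive U × ℤ) : (ff hU m).2 = Fintype.card G * m.2 := by
  rw [ff_apply, Prod.snd_sum]
  simp [rho_snd]

theorem ff_gg (σ : G) (m : Additive U × ℤ) : ff hU (gg hU σ m) = 0 := by
  rw [gg_apply, map_sub, ff_apply, ff_apply, sub_eq_zero]
  refine (Fintype.sum_equiv (Equiv.mulRight σ) _ _ fun g => ?_).symm
  rw [Equiv.coe_mulRight, map_mul]
  rfl

theorem gg_ff (σ : G) (m : Additive U × ℤ) : gg hU σ (ff hU m) = 0 := by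
  rw [gg_apply, ff_apply, map_sum, sub_eq_zero]
  refine (Fintype.sum_equiv (Equiv.mulLeft σ) _ _ fun g => ?_).symm
  rw [Equiv.coe_mulLeft, map_mul]
  rfl

theorem hi_one (σ : G) (h : ∀ u ∈ U, nrm G u = 1 → ∃ y ∈ U, u = y / σ • y) :
    hi (gg hU σ) (ff hU) ⊤ = 1 := by
  rw [hi, AddSubgroup.relIndex_eq_one]
  rintro m ⟨-, hm⟩
  have hm' : ff hU m = 0 := hm
  have h1 := pr_ff hU m
  have h2 := ff_snd hU m
  rw [hm'] at h1 h2
  obtain ⟨y, hy, h3⟩ := h _ (pr_mem m) h1.symm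
  refine ⟨(Additive.ofMul ⟨y, hy⟩, 0), trivial, ext2 ?_ ?_⟩
  · rw [pr_gg, h3]
    rfl
  · rw [gg_snd]
    have h4 : (Fintype.card G : ℤ) ≠ 0 := by exact_mod_cast Fintype.card_ne_zero
    exact ((mul_eq_zero.1 h2.symm).resolve_left h4).symm

theorem hi_zero (σ : G) (hσ : ∀ h, h ∈ Subgroup.zpowers σ) :
    hi (ff hU) (gg hU σ) ⊤ = Fintype.card G * hz G U := by
  let B : AddSubgroup (Additive U × ℤ) := (Subgroup.toAddSubgroup (U.map (nrm G))).comap (pr U)
  let C : AddSubgroup (Additive U × ℤ) :=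
    (AddSubgroup.zmultiples (Fintype.card G : ℤ)).comap (AddMonoidHom.snd _ _)
  have h1 : AddSubgroup.map (ff hU) ⊤ = C ⊓ B := by
    apply le_antisymm
    · rintro _ ⟨m, -, rfl⟩
      refine ⟨?_, (pr U m).toMul, pr_mem m, (pr_ff hU m).symm⟩
      change (ff hU m).2 ∈ AddSubgroup.zmultiples (Fintype.card G : ℤ)
      rw [ff_snd, Int.mem_zmultiples_iff]
      exact dvd_mul_right _ _
    · rintro m ⟨h1, u, hu, h2⟩
      have h3 : m.2 ∈ AddSubgroup.zmultiples (Fintype.card G : ℤ) := h1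
      obtain ⟨k, hk⟩ := Int.mem_zmultiples_iff.1 h3
      refine ⟨(Additive.ofMul ⟨u, hu⟩, k), trivial, ext2 ?_ ?_⟩
      · rw [pr_ff]
        exact h2
      · rw [ff_snd, hk]
  have h2 : B ≤ ⊤ ⊓ (gg hU σ).ker := by
    rintro m ⟨u, hu, h2⟩
    refine ⟨trivial, ext2 ?_ (gg_snd hU σ m)⟩
    have h3 := pr_gg hU σ (ff hU (Additive.ofMul ⟨u, hu⟩, 0))
    rw [gg_ff, pr_ff] at h3
    rw [pr_gg]
    have h4 : (pr U m).toMul = nrm G u := h2.symm
    rw [h4]
    exact h3.symm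
  have h3 : AddSubgroup.map (pr U) (⊤ ⊓ (gg hU σ).ker) =
      Subgroup.toAddSubgroup (U ⊓ FixedPoints.subgroup G W) := by
    apply le_antisymm
    · rintro _ ⟨m, ⟨-, hm⟩, rfl⟩
      refine ⟨pr_mem m, fun g => ?_⟩
      have hm' : gg hU σ m = 0 := hm
      have h4 := pr_gg hU σ m
      rw [hm'] at h4
      have h5 : σ ∈ MulAction.stabilizer G (pr U m).toMul := (div_eq_one.1 h4.symm).symm
      exact Subgroup.zpowers_le.2 h5 (hσ g)
    · rintro w ⟨hw, hw'⟩
      refine ⟨(Additive.ofMul ⟨w.toMul, hw⟩, 0), ⟨trivial, ext2 ?_ (gg_snd hU σ _)⟩, rfl⟩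
      rw [pr_gg]
      exact div_eq_one.2 (hw' σ).symm
  have h4 : AddSubgroup.map (AddMonoidHom.snd (Additive U) ℤ) B = ⊤ := by
    rw [eq_top_iff]
    rintro k -
    exact ⟨(0, k), ⟨1, one_mem _, map_one _⟩, rfl⟩
  rw [hi, h1, ← AddSubgroup.relIndex_mul_relIndex (C ⊓ B) B _ inf_le_right h2,
    AddSubgroup.inf_relIndex_right, AddSubgroup.relIndex_comap, AddSubgroup.relIndex_comap, h3, h4,
    AddSubgroup.relIndex_top_right, Int.index_zmultiples, Int.natAbs_natCast,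
    Subgroup.relIndex_toAddSubgroup, hz]

end HQAux

open HQAux in
theorem hqS (h1 : HerbSt) (h2 : LatSt) (h3 : PermSt) : HQSt := by
  intro G W X Y _ _ _ _ _ _ _ σ U _ l e π s hσ hU hrk hl hlg he hsp h90 hπ horb hs
  have hl1 : l 1 = 0 := by
    have := hl 1 1
    rw [mul_one] at this
    exact left_eq_add.1 this
  let l' : Additive U × ℤ →+ (X → ℝ) := AddMonoidHom.mk'
    (fun m => l (pr U m).toMul + (m.2 : ℝ) • e) fun m m' => by
      rw [map_add, toMul_add, hl, Prod.snd_add, Int.cast_add, add_smul]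
      abel
  have hl' : ∀ m, l' m = l (pr U m).toMul + (m.2 : ℝ) • e := fun _ => rfl
  obtain ⟨φ, hφ, hind, hφρ⟩ := h2 (rho hU) l' (by rw [finrank_prod_int, hrk]) (fun g m x => by
    rw [hl', hl', pr_rho, rho_snd]
    simp only [Pi.add_apply, Pi.smul_apply, hlg, he]) (by
    rw [eq_top_iff, ← hsp]
    apply Submodule.span_mono
    rintro _ (rfl | ⟨u, hu, rfl⟩)
    · refine ⟨(0, 1), ?_⟩
      rw [hl']
      have : (pr U (0, 1)).toMul = 1 := rfl
      simp [this, hl1]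
    · refine ⟨(Additive.ofMul ⟨u, hu⟩, 0), ?_⟩
      rw [hl']
      have : (pr U (Additive.ofMul ⟨u, hu⟩, 0)).toMul = u := rfl
      simp [this])
  let f' : (X → ℤ) →+ (X → ℤ) := AddMonoidHom.mk' (fun u => ∑ h : G, fun x => u (h⁻¹ • x))
    fun u v => by
      rw [← Finset.sum_add_distrib]
      rfl
  let g' : (X → ℤ) →+ (X → ℤ) := AddMonoidHom.mk' (fun u => u - fun x => u (σ⁻¹ • x))
    fun u v => by
      ext x
      simp only [Pi.sub_apply, Pi.add_apply]
      ring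
  have hf : ∀ u, φ (f' u) = ff hU (φ u) := fun u => by
    rw [ff_apply]
    change φ (∑ h : G, fun x => u (h⁻¹ • x)) = _
    rw [map_sum]
    exact Finset.sum_congr rfl fun h _ => hφρ h u
  have hg : ∀ u, φ (g' u) = gg hU σ (φ u) := fun u => by
    rw [gg_apply]
    change φ (u - fun x => u (σ⁻¹ • x)) = _
    rw [map_sub, hφρ]
  have h4 := h1.fin (ff hU) (gg hU σ) ⊤ φ.range le_top (by rwa [AddSubgroup.relIndex_top_right])
    (ff_gg hU σ) (gg_ff hU σ) (fun _ _ => ⟨trivial, trivial⟩) (by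
      rintro _ ⟨u, rfl⟩
      exact ⟨⟨_, hf u⟩, ⟨_, hg u⟩⟩)
  have h5 := h3 σ π s f' g' hσ hπ horb hs (fun u x => Finset.sum_apply _ _ _) fun _ _ => rfl
  rw [hi_one hU σ h90, hi_zero hU σ hσ, mul_one, h1.map φ f' g' _ _ hφ hf hg] at h4
  have h6 : Fintype.card G * hz G U ∣ ∏ y, s y := (Dvd.intro _ h4).trans h5
  have h7 : 0 < ∏ y, s y := Finset.prod_pos fun y _ => by
    obtain ⟨x, rfl⟩ := hπ y
    rw [← hs]
    exact Nat.card_pos
  refine ⟨fun h0 => ?_, Nat.le_of_dvd h7 h6⟩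
  rw [h0, mul_zero, zero_dvd_iff] at h6
  omega

end Pool.Agent.Stark.AR
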