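import Pool.Agent.Lib.MP_ca56d1_nt.AR.St

/-! From the norm index of units to the norm index of ideals. -/

namespace Pool.Agent.Stark.AR

open NumberField IsDedekindDomain StarkStmt
open scoped IsMulCommutative Classical

namespace IdxAux

/-- An index bound from a correspondence. -/
theorem idx_le {E P Q : Type*} [Group E] [Group P] [Group Q] (π : E →* P) (μ : E →* Q)
    (hπ : Function.Surjective π) (hμ : Function.Surjective μ) (M : Subgroup P) (R : Subgroup Q)
    (h : M.comap π ≤ R.comap μ) (h0 : M.index ≠ 0) : R.index ≤ M.index := by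
  have := Subgroup.index_dvd_of_le h
  rw [Subgroup.index_comap_of_surjective _ hπ, Subgroup.index_comap_of_surjective _ hμ] at this
  exact Nat.le_of_dvd (Nat.pos_of_ne_zero h0) this

variable {K L : Type} [Field K] [NumberField K] [Field L] [NumberField L] [Algebra K L]

omit [NumberField L] in
theorem nm_dvd (D : Dv L) (q : Pr K) (c : ℤ)
    (h : ∀ Q, below K Q = q → c ∣ (fI K Q : ℤ) * D Q) : c ∣ nm K D q := by
  rw [nm, Finsupp.sum, Finsupp.finset_sum_apply]
  refine Finset.dvd_sum fun Q _ => ?_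
  rw [Finsupp.single_apply]
  split_ifs with e
  · exact h Q e
  · exact dvd_zero _

omit [NumberField L] in
theorem nm_sub (D D' : Dv L) : nm K (D - D') = nm K D - nm K D' :=
  Finsupp.sum_sub_index fun _ _ _ => by rw [mul_sub, Finsupp.single_sub]

omit [NumberField L] in
theorem nm_single (Q : Pr L) (j : ℤ) :
    nm K (Finsupp.single Q j) = Finsupp.single (below K Q) ((fI K Q : ℤ) * j) :=
  Finsupp.sum_single_index (by simp)

theorem mem_NN {S : Finset (Pr K)} {N : ℕ} (D : Dv K) (h : ∀ q, q ∈ S ∨ fr K L q ^ D q = 1) :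
    D ∈ NN L S N := by
  rw [← Finsupp.sum_single D]
  exact AddSubgroup.sum_mem _ fun q _ => AddSubgroup.subset_closure (Or.inr ⟨q, _, h q, rfl⟩)

variable (L) in
/-- Coefficients modulo the orders of the Frobenius elements. -/
abbrev Zm (T : Finset (Pr K)) : Type := ∀ q : T, ZMod (orderOf (fr K L q.1))

variable (L) in
/-- The reduction of the part of a divisor over `T`. -/
noncomputable def red (T : Finset (Pr K)) : Dv K →+ Zm L T where
  toFun D q := (D q.1 : ZMod _)
  map_zero' := by ext; simp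
  map_add' _ _ := by ext; simp

/-- A divisor with given reduction. -/
noncomputable def lift {T : Finset (Pr K)} (z : Zm L T) : Dv K :=
  Finsupp.onFinset T (fun q => if h : q ∈ T then (z ⟨q, h⟩).cast else 0) fun q hq => by
    by_contra h
    exact hq (dif_neg h)

theorem lift_out {T : Finset (Pr K)} (z : Zm L T) {q : Pr K} (h : q ∉ T) : lift z q = 0 :=
  dif_neg h

theorem red_lift {T : Finset (Pr K)} (z : Zm L T) : red L T (lift z) = z := by
  funext q
  have : lift z q.1 = (z q).cast := dif_pos q.2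
  change ((lift z q.1 : ℤ) : ZMod (orderOf (fr K L q.1))) = _
  rw [this, ZMod.intCast_zmod_cast]

theorem red_eq_zero {T : Finset (Pr K)} {D : Dv K} :
    red L T D = 0 ↔ ∀ q ∈ T, fr K L q ^ D q = 1 := by
  rw [funext_iff, Subtype.forall]
  refine forall₂_congr fun q _ => ?_
  rw [← orderOf_dvd_iff_zpow_eq_one, ← ZMod.intCast_zmod_eq_zero_iff_dvd]
  rfl

theorem index_ne {S T : Finset (Pr K)} {N : ℕ} (h : RayTriv S N T) : (NN L S N).index ≠ 0 := by
  have : ∀ q : T, NeZero (orderOf (fr K L q.1)) := fun q => ⟨(orderOf_pos _).ne'⟩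
  have : Finite (Dv K ⧸ NN L S N) := by
    refine Finite.of_surjective (fun z : Zm L T => ((lift z : Dv K) : Dv K ⧸ NN L S N)) fun x => ?_
    obtain ⟨D, rfl⟩ := QuotientAddGroup.mk_surjective x
    obtain ⟨b, h1, h2, h3⟩ := h D
    refine ⟨red L T (D - dv b), QuotientAddGroup.eq.2 ?_⟩
    have h4 : dv b ∈ NN L S N :=
      AddSubgroup.subset_closure (Or.inl ⟨b, h1, fun φ _ => h2 φ, rfl⟩)
    have h5 : D - dv b - lift (red L T (D - dv b)) ∈ NN L S N := mem_NN _ fun q => by
      by_cases hS : q ∈ S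
      · exact Or.inl hS
      refine Or.inr ?_
      by_cases hT : q ∈ T
      · exact red_eq_zero.1 (by rw [map_sub, red_lift, sub_self]) q hT
      · rw [Finsupp.sub_apply, lift_out _ hT, Finsupp.sub_apply, dv_apply, h3 q hS hT, sub_self,
          sub_self, zpow_zero]
    convert add_mem h4 h5 using 1
    abel
  exact AddSubgroup.index_ne_zero_of_finite

variable (L) in
/-- The signs at the ramified real places. -/
noncomputable def sgn : Kˣ →* ({φ : K →+* ℝ // RamR L φ} → ℤˣ) where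
  toFun b φ := if 0 < φ.1 b then 1 else -1
  map_one' := by ext; simp
  map_mul' a b := by
    funext φ
    have ha : φ.1 a ≠ 0 := (map_ne_zero _).2 a.ne_zero
    have hb : φ.1 b ≠ 0 := (map_ne_zero _).2 b.ne_zero
    simp only [Units.val_mul, map_mul, Pi.mul_apply, mul_pos_iff]
    rcases ha.lt_or_gt with h | h <;> rcases hb.lt_or_gt with h' | h' <;>
      simp [h, h', h.not_gt, h'.not_gt]

theorem sgn_one {b : Kˣ} (h : PosR L (b : K)) : sgn L b = 1 :=
  funext fun φ => if_pos (h φ.1 φ.2)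

variable (K) in
/-- The divisor map. -/
noncomputable def dvH : Kˣ →* Multiplicative (Dv K) where
  toFun b := Multiplicative.ofAdd (dv (b : K))
  map_one' := congrArg Multiplicative.ofAdd (Finsupp.ext fun q => by simp [og, ord_one])
  map_mul' a b := congrArg Multiplicative.ofAdd (dv_mul a.ne_zero b.ne_zero)

variable (L) in
/-- The target group. -/
abbrev Tg (T : Finset (Pr K)) : Type := Multiplicative (Zm L T) × ({φ : K →+* ℝ // RamR L φ} → ℤˣ)

variable (L) in
noncomputable def tau (T : Finset (Pr K)) : Multiplicative (Dv K) →* Tg L T :=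
  (MonoidHom.inl _ _).comp (AddMonoidHom.toMultiplicative (red L T))

variable (L) in
noncomputable def nu (T : Finset (Pr K)) : Kˣ →* Tg L T :=
  (tau L T).comp (dvH K) * (MonoidHom.inr _ _).comp (sgn L)

theorem tau_one {T : Finset (Pr K)} {D : Dv K} (h : ∀ q ∈ T, fr K L q ^ D q = 1) :
    tau L T (Multiplicative.ofAdd D) = 1 :=
  Prod.ext (congrArg Multiplicative.ofAdd (red_eq_zero.2 h)) rfl

theorem card_Tg (T : Finset (Pr K)) : Nat.card (Tg L T) =
    2 ^ Nat.card {φ : K →+* ℝ // RamR L φ} * ∏ q ∈ T, orderOf (fr K L q) := by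
  rw [Nat.card_prod, mul_comm, Nat.card_fun, Nat.card_eq_fintype_card (α := ℤˣ),
    Fintype.card_units_int, ← Finset.prod_coe_sort T]
  congr 1
  refine (Nat.card_congr Multiplicative.toAdd).trans (Nat.card_pi.trans ?_)
  simp only [Nat.card_zmod]

variable (K L) in
/-- The embedding of unit groups. -/
noncomputable def io : Kˣ →* Lˣ := Units.map (algebraMap K L : K →* L)

variable {σ : L ≃ₐ[K] L} {S T : Finset (Pr K)} {SL TL : Finset (Pr L)} {N : ℕ} {A : Subgroup Lˣ}

theorem fI_eq (hF : FrSt K L) (d : Dat σ S T SL TL N A) {Q : Pr L} (h : below K Q ∉ S) :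
    orderOf (fr K L (below K Q)) = fI K Q := hF.ord d.ab Q (d.unr Q h)

theorem nu_norm (hG : GalSt K L) (hF : FrSt K L) (d : Dat σ S T SL TL N A) {b : Kˣ} {u : L}
    (hu : u ≠ 0) (h : (b : K) = Algebra.norm K u) : nu L T b = 1 := by
  have := d.ab
  have h1 : tau L T (dvH K b) = 1 := tau_one fun q hq => by
    rw [← orderOf_dvd_iff_zpow_eq_one, h, hG.dv_norm inferInstance u hu]
    refine nm_dvd _ _ _ fun Q e => ?_
    subst e
    rw [fI_eq hF d (Finset.disjoint_left.1 d.disj hq)]
    exact dvd_mul_right _ _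
  have h2 : sgn L b = 1 := sgn_one fun φ hφ => by rw [h]; exact hG.norm_pos φ u hφ hu
  simp only [nu, MonoidHom.mul_apply, MonoidHom.comp_apply, h1, h2, map_one, mul_one]

theorem card_le (hG : GalSt K L) (hF : FrSt K L) (d : Dat σ S T SL TL N A)
    (h0 : hz (L ≃ₐ[K] L) (A ⊓ SU TL) ≠ 0) :
    Nat.card (((A ⊓ SU TL).comap (io K L)).map (nu L T)) ≤ hz (L ≃ₐ[K] L) (A ⊓ SU TL) := by
  have := d.ab
  have e : ((A ⊓ SU TL).comap (io K L)).map (io K L) =
      (A ⊓ SU TL) ⊓ FixedPoints.subgroup (L ≃ₐ[K] L) Lˣ := by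
    rw [Subgroup.map_comap_eq, inf_comm]
    congr 1
    ext x
    constructor
    · rintro ⟨b, rfl⟩ g
      exact Units.ext (g.commutes _)
    · intro h
      obtain ⟨b, hb⟩ := (IsGalois.mem_range_algebraMap_iff_fixed (F := K) (x : L)).2 fun g =>
        congrArg Units.val (h g)
      have hb0 : b ≠ 0 := fun h0 => x.ne_zero (by rw [← hb, h0, map_zero])
      exact ⟨Units.mk0 b hb0, Units.ext hb⟩
  rw [hz, ← e, ← Subgroup.relIndex_comap] at h0 ⊢
  rw [← Subgroup.relIndex_ker]
  refine Subgroup.relIndex_le_of_le_left ?_ h0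
  rintro b ⟨u, -, hu⟩
  refine nu_norm hG hF d u.ne_zero ((algebraMap K L).injective ?_)
  rw [← hG.nrm_eq inferInstance u, hu]
  rfl

variable (S T A) in
/-- Pairs of an element and a divisor that agree outside `S` and `T`. -/
def Cor : Subgroup (Kˣ × Multiplicative (Dv K)) where
  carrier := {p | io K L p.1 ∈ A ∧ ∀ q, q ∉ S → q ∉ T → (dvH K p.1).toAdd q = p.2.toAdd q}
  one_mem' := ⟨by simp, fun q _ _ => by simp⟩
  mul_mem' := fun {a b} ha hb => ⟨by simpa using A.mul_mem ha.1 hb.1, fun q h h' => by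
    simp [ha.2 q h h', hb.2 q h h']⟩
  inv_mem' := fun {a} ha => ⟨by simpa using ha.1, fun q h h' => by simp [ha.2 q h h']⟩

theorem ray_mem (hG : GalSt K L) (d : Dat σ S T SL TL N A) {b : K} (h : Ray S N b) :
    io K L (Units.mk0 b h.1) ∈ A := d.ray _ (hG.ray_up S SL N b d.hS h)

variable (S T A) in
noncomputable def mu : Cor S T A →* Tg L T :=
  ((tau L T).comp (MonoidHom.snd _ _) / (nu L T).comp (MonoidHom.fst _ _)).comp (Cor S T A).subtype

variable (S T A) in
noncomputable def pr2 : Cor S T A →* Multiplicative (Dv K) :=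
  (MonoidHom.snd _ _).comp (Cor S T A).subtype

theorem gens (hG : GalSt K L) (hF : FrSt K L) (d : Dat σ S T SL TL N A) :
    (NN L S N).toSubgroup ≤ (mu S T A).ker.map (pr2 S T A) := by
  have := d.ab
  change NN L S N ≤ ((mu S T A).ker.map (pr2 S T A)).toAddSubgroup'
  refine (AddSubgroup.closure_le _).2 ?_
  rintro D (⟨a, h1, h2, rfl⟩ | ⟨q, k, hq, rfl⟩)
  · refine ⟨⟨(Units.mk0 a h1.1, dvH K (Units.mk0 a h1.1)), ray_mem hG d h1, fun _ _ _ => rfl⟩, ?_, rfl⟩
    have h3 : sgn L (Units.mk0 a h1.1) = 1 := sgn_one h2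
    simp [mu, nu, h3]
  by_cases hST : q ∈ S ∨ q ∈ T
  · refine ⟨⟨(1, Multiplicative.ofAdd (Finsupp.single q k)), by simp, fun q' h h' => ?_⟩, ?_, rfl⟩
    · have : q ≠ q' := by
        rintro rfl
        exact hST.elim h h'
      simp [Finsupp.single_eq_of_ne' this]
    · have h3 : tau L T (Multiplicative.ofAdd (Finsupp.single q k)) = 1 := tau_one fun q' hq' => by
        rw [Finsupp.single_apply]
        split_ifs with e
        · subst e
          exact hq.resolve_left (Finset.disjoint_left.1 d.disj hq')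
        · exact zpow_zero _
      simp [mu, h3]
  rw [not_or] at hST
  obtain ⟨Q, rfl⟩ := below_surj (K := L) q
  obtain ⟨j, rfl⟩ := orderOf_dvd_iff_zpow_eq_one.2 (hq.resolve_left hST.1)
  obtain ⟨β, h1, -, h3⟩ := d.trivL (Finsupp.single Q j)
  have hb : Algebra.norm K β ≠ 0 := Algebra.norm_ne_zero_iff.2 h1.1
  refine ⟨⟨(Units.mk0 _ hb, Multiplicative.ofAdd (Finsupp.single _ _)), ?_, fun q' h h' => ?_⟩,
    ?_, rfl⟩
  · have e : io K L (Units.mk0 _ hb) = nrm (L ≃ₐ[K] L) (Units.mk0 β h1.1) :=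
      Units.ext (hG.nrm_eq inferInstance (Units.mk0 β h1.1)).symm
    change io K L (Units.mk0 _ hb) ∈ A
    rw [e, nrm_apply]
    exact A.prod_mem fun g _ => d.stab g _ (d.ray _ h1)
  · change dv (Algebra.norm K β) q' = Finsupp.single _ _ q'
    rw [hG.dv_norm inferInstance β h1.1, fI_eq hF d hST.1, ← nm_single, ← sub_eq_zero,
      ← Finsupp.sub_apply, ← nm_sub, ← zero_dvd_iff]
    refine nm_dvd _ _ _ fun Q' e => ?_
    subst e
    rw [Finsupp.sub_apply, dv_apply, h3 Q' (fun x => h ((d.hS _).1 x)) fun x => h' ((d.hT _).1 x),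
      sub_self, mul_zero]
  · have h4 : tau L T (Multiplicative.ofAdd (Finsupp.single (below K Q)
        ((orderOf (fr K L (below K Q)) : ℤ) * j))) = 1 := tau_one fun q' hq' => by
      rw [Finsupp.single_eq_of_ne' (ne_of_mem_of_not_mem hq' hST.2).symm, zpow_zero]
    have h5 : nu L T (Units.mk0 _ hb) = 1 := nu_norm hG hF d h1.1 rfl
    exact div_eq_one.2 (h4.trans h5.symm)

theorem comap_le (hG : GalSt K L) (hF : FrSt K L) (d : Dat σ S T SL TL N A) :
    (NN L S N).toSubgroup.comap (pr2 S T A) ≤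
      (((A ⊓ SU TL).comap (io K L)).map (nu L T)).comap (mu S T A) := by
  intro x hx
  obtain ⟨y, hy, e⟩ := gens hG hF d hx
  have h1 : (y / x).1.2 = 1 := by
    change pr2 S T A (y / x) = 1
    rw [map_div, e]
    exact div_self' _
  refine ⟨(y / x).1.1, ⟨(y / x).2.1, fun Q hQ => ?_⟩, ?_⟩
  · by_cases hS : Q ∈ SL
    · exact d.unit _ (y / x).2.1 Q hS
    · have := (y / x).2.2 (below K Q) (fun h => hS ((d.hS _).2 h)) fun h => hQ ((d.hT _).2 h)
      rw [h1] at this
      change og Q (algebraMap K L _) = 0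
      rw [og_algebraMap, show og (below K Q) ((y / x).1.1 : K) = 0 from this, mul_zero]
  · have h2 : mu S T A (y / x) = tau L T (y / x).1.2 / nu L T (y / x).1.1 := rfl
    rw [h1, map_one, map_div, show mu S T A y = 1 from hy, div_right_inj] at h2
    exact h2.symm

end IdxAux

open IdxAux

theorem idx (hG : GalA) (hF : FrA) (h2 : RayTA) : IdxA := by
  intro K L _ _ _ _ _ σ S T SL TL N A d
  have h0 := index_ne (L := L) d.trivK
  refine ⟨h0, fun hz0 => ?_⟩
  rw [← card_Tg, ← Subgroup.card_mul_index (((A ⊓ SU TL).comap (io K L)).map (nu L T))]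
  refine Nat.mul_le_mul (card_le (hG K L) (hF K L) d hz0) ?_
  rw [← AddSubgroup.index_toSubgroup] at h0 ⊢
  refine idx_le (pr2 S T A) (mu S T A) (fun D => ?_) ?_ _ _ (comap_le (hG K L) (hF K L) d) h0
  · obtain ⟨b, h1, -, h3⟩ := d.trivK D.toAdd
    exact ⟨⟨(Units.mk0 b h1.1, D), ray_mem (hG K L) d h1, h3⟩, rfl⟩
  · rintro ⟨z, ε⟩
    obtain ⟨b, h1, h3⟩ := (h2 K).sgn S N fun φ => ∃ h : RamR L φ, ε ⟨φ, h⟩ = 1
    refine ⟨⟨(Units.mk0 b h1.1, dvH K (Units.mk0 b h1.1) * Multiplicative.ofAdd (lift z.toAdd)),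
      ray_mem (hG K L) d h1, fun q _ h => by simp [lift_out _ h]⟩, ?_⟩
    have h4 : (sgn L (Units.mk0 b h1.1))⁻¹ = ε := funext fun φ => by
      change (if 0 < φ.1 b then (1 : ℤˣ) else -1)⁻¹ = _
      rcases Int.units_eq_one_or (ε φ) with h | h
      · rw [if_pos ((h3 _).2 ⟨φ.2, h⟩), h, inv_one]
      · rw [if_neg, h]
        · rfl
        · intro h5
          obtain ⟨_, h6⟩ := (h3 _).1 h5
          exact absurd (h.symm.trans h6) (by decide)
    have h5 : tau L T (Multiplicative.ofAdd (lift z.toAdd)) = (z, 1) :=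
      Prod.ext (congrArg Multiplicative.ofAdd (red_lift _)) rfl
    change tau L T (dvH K (Units.mk0 b h1.1) * Multiplicative.ofAdd (lift z.toAdd)) /
      (tau L T (dvH K (Units.mk0 b h1.1)) * MonoidHom.inr _ _ (sgn L (Units.mk0 b h1.1))) = _
    rw [map_mul, mul_div_mul_left_eq_div, h5, ← h4]
    exact Prod.ext (div_one _) (one_div _)

end Pool.Agent.Stark.AR
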