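import Pool.Agent.Lib.MP_ca56d1_nt.AR.St
import Pool.Agent.Lib.MP_ca56d1_nt.Split

/-! The key step: a ray class function factors through a cyclotomic subgroup. -/

namespace Pool.Agent.Stark.AR

open NumberField IsDedekindDomain StarkStmt
open scoped IsMulCommutative Classical

namespace KeyAux

/-- A field without an automorphism of `L` that inverts `ζ` has no real embedding. -/
theorem noReal {E L : Type} [Field E] [Field L] [Algebra E L] [IsGalois E L] {m : ℕ} {ζ : L}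
    (hm : m ≠ 0) (hζ : IsPrimitiveRoot ζ m) (h : ∀ g : L ≃ₐ[E] L, g ζ ≠ ζ⁻¹) :
    IsEmpty (E →+* ℝ) := by
  refine ⟨fun φ => ?_⟩
  obtain ⟨ψ, hψ⟩ : ∃ ψ : L →+* ℂ, ψ.comp (algebraMap E L) = Complex.ofRealHom.comp φ :=
    ⟨_, ComplexEmbedding.lift_comp_algebraMap L _⟩
  obtain ⟨σ, hσ⟩ := ComplexEmbedding.exists_comp_symm_eq_of_comp_eq (k := E) ψ
    ((starRingEnd ℂ).comp ψ) (by
      rw [RingHom.comp_assoc, hψ]
      ext x
      simp)
  refine h σ.symm (ψ.injective ?_)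
  have h1 : ψ (σ.symm ζ) = starRingEnd ℂ (ψ ζ) := RingHom.congr_fun hσ ζ
  have h2 : ‖ψ ζ‖ = 1 := (hζ.map_of_injective ψ.injective).norm'_eq_one hm
  rw [h1, map_inv₀, Complex.inv_eq_conj h2]

end KeyAux

theorem key (hG : GalA) (hT : TowA) (h1 : SecA) (h2 : CycRA) : KeyA := by
  intro K L _ _ _ _ _ hab S N m ζ H H' Γ _ _ c hu hm hζ hmS hinj hinv hc hH'
  let E := IntermediateField.fixedField H
  let e : H ≃* (L ≃ₐ[E] L) := IntermediateField.subgroupEquivAlgEquiv H
  have he : ∀ (g : H) (x : L), e g x = g.1 x := fun _ _ => rfl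
  have he' : ∀ (g : L ≃ₐ[E] L) (x : L), (e.symm g).1 x = g x := fun g x => by
    rw [← he, e.apply_symm_apply]
  have hE : IsEmpty (E →+* ℝ) := KeyAux.noReal hm hζ fun g => by
    rw [← he']
    exact hinv _ (e.symm g).2
  obtain ⟨SE, hSE⟩ := exists_above (K := E) S
  have T := hT K L E
  have G := hG K E
  have huE : UnrO L SE := T.top S SE hSE hu
  obtain ⟨N1, hN1⟩ := h2 E L SE m ζ hE hm hζ
    (fun Q hQ h => hmS (below K Q) (fun h' => hQ ((hSE Q).2 h')) (by
      change (m : 𝓞 K) ∈ Q.asIdeal.comap (algebraMap (𝓞 K) (𝓞 E))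
      rwa [Ideal.mem_comap, map_natCast]))
    (fun g hg => by
      have := hinj _ (e.symm g).2 ((he' g ζ).trans hg)
      rw [← e.apply_symm_apply g, show e.symm g = 1 from Subtype.ext this, map_one])
  obtain ⟨N2, hN2⟩ := G.ray_norm inferInstance S SE N hSE
  have hd : WRay SE N2 fun Q : Pr E => c (below K Q) ^ fI K Q := fun a ha => by
    rw [← G.ev_nm, ← G.dv_norm inferInstance a ha.1]
    exact hc _ (hN2 a ha) fun φ => G.norm_pos φ a (fun ⟨ψ, _⟩ => hE.false ψ) ha.1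
  have hup : ∀ Q : Pr E, below K Q ∉ S → (e.symm (fr E L Q)).1 = fr K L (below K Q) ^ fI K Q :=
    fun Q hQ => AlgEquiv.ext fun x => (he' _ x).trans (T.up hab S hu Q hQ x)
  obtain ⟨θ, t1, t2⟩ := h1 E L SE (max N1 N2) (H'.comap (H.subtype.comp e.symm.toMonoidHom))
    (fun Q : Pr E => c (below K Q) ^ fI K Q) huE (hN1.mono subset_rfl (le_max_left _ _))
    (hd.mono subset_rfl (le_max_right _ _)) fun Q hQ h => by
      have hQ' : below K Q ∉ S := fun h' => hQ ((hSE Q).2 h')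
      refine hH' _ hQ' _ ?_
      rw [← hup Q hQ']
      exact h
  refine ⟨θ.comp e.toMonoidHom, fun q hq h => ?_, fun g hg => t2 _ ?_⟩
  · obtain ⟨Q, rfl⟩ := below_surj (K := E) q
    have f1 : fI K Q = 1 := T.fix hab S hu Q hq fun y => y.2 ⟨_, h⟩
    have f2 : e ⟨_, h⟩ = fr E L Q := by
      rw [← e.eq_symm_apply]
      exact Subtype.ext (by rw [hup Q hq, f1, pow_one])
    change θ (e ⟨_, h⟩) = _
    rw [f2, t1 Q fun h' => hq ((hSE Q).1 h'), f1, pow_one]
  · change (e.symm (e g)).1 ∈ H'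
    rwa [e.symm_apply_apply]

end Pool.Agent.Stark.AR
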