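import Pool.Agent.Lib.MP_ca56d1_nt.AR.St
import Pool.Agent.Lib.MP_b4b3cb_nt.Cn

/-! The `L`-series of a nontrivial ray class character is bounded to the right of one. -/

namespace Pool.Agent.Stark.AR

open NumberField IsDedekindDomain StarkStmt
open scoped Classical nonZeroDivisors

namespace LBdAux

variable {F : Type} [Field F] [NumberField F]

theorem cm_mul (c : Ideal (𝓞 F) → ℂ) {I J : Ideal (𝓞 F)} (hI : I ≠ ⊥) (hJ : J ≠ ⊥) :
    cm c (I * J) = cm c I * cm c J := by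
  unfold cm
  rw [UniqueFactorizationMonoid.normalizedFactors_mul hI hJ, Multiset.map_add, Multiset.prod_add]

theorem cm_prime (c : Ideal (𝓞 F) → ℂ) (q : Pr F) : cm c q.asIdeal = c q.asIdeal := by
  unfold cm
  rw [UniqueFactorizationMonoid.normalizedFactors_irreducible q.irreducible, normalize_eq,
    Multiset.map_singleton, Multiset.prod_singleton]

theorem cm_bot (c : Ideal (𝓞 F) → ℂ) : cm c ⊥ = 1 := by
  unfold cm
  rw [← Ideal.zero_eq_bot, UniqueFactorizationMonoid.normalizedFactors_zero]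
  simp

theorem cm_pow (c : Ideal (𝓞 F) → ℂ) (I : Ideal (𝓞 F)) (n : ℕ) : cm c (I ^ n) = cm c I ^ n := by
  unfold cm
  rw [UniqueFactorizationMonoid.normalizedFactors_pow, Multiset.map_nsmul, Multiset.prod_nsmul]

theorem cm_prod (c : Ideal (𝓞 F) → ℂ) (P : Finset (Pr F)) (n : Pr F → ℕ) :
    cm c (∏ q ∈ P, q.asIdeal ^ n q) = ∏ q ∈ P, c q.asIdeal ^ n q := by
  induction P using Finset.induction_on with
  | empty => rw [Finset.prod_empty, Finset.prod_empty, Ideal.one_eq_top, EulerAux.cm_top]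
  | insert a P ha ih =>
    rw [Finset.prod_insert ha, Finset.prod_insert ha,
      cm_mul c (SC.CnAux.pow_ne a _) (SC.CnAux.prod_ne P n), ih, cm_pow, cm_prime]

theorem norm_cm {c : Ideal (𝓞 F) → ℂ} (hc : ∀ q : Pr F, ‖c q.asIdeal‖ = 1) (I : Ideal (𝓞 F)) :
    ‖cm c I‖ = 1 := by
  unfold cm
  refine Multiset.prod_induction (fun z : ℂ => ‖z‖ = 1) _ (fun a b ha hb => ?_) (by simp)
    fun a ha => ?_
  · rw [norm_mul, ha, hb, mul_one]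
  · obtain ⟨P, hP, rfl⟩ := Multiset.mem_map.1 ha
    have hp : Prime P := UniqueFactorizationMonoid.prime_of_normalized_factor P hP
    exact hc ⟨P, Ideal.isPrime_of_prime hp, hp.ne_zero⟩

theorem cm_span {χ : Pr F → ℂˣ} {c : Ideal (𝓞 F) → ℂ} (hc : ∀ q : Pr F, c q.asIdeal = χ q)
    {x : 𝓞 F} (hx : x ≠ 0) : cm c (Ideal.span {x}) = ev χ (dv (x : F)) := by
  have h0 : ∀ q ∉ (dv (x : F)).support, og q (x : F) = 0 := fun q hq =>
    Finsupp.notMem_support_iff.1 hq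
  rw [ComplAux.span_eq_prod hx _ h0, cm_prod, ev_eq_prod χ _ _ h0, Units.coe_prod]
  refine Finset.prod_congr rfl fun q _ => ?_
  rw [hc, Units.val_zpow_eq_zpow_val, ← zpow_natCast, Int.toNat_of_nonneg (og_nonneg q x)]
  rfl

/-- The ideal class. -/
noncomputable def cl (I : Ideal (𝓞 F)) : ClassGroup (𝓞 F) :=
  if h : I ≠ ⊥ then ClassGroup.mk0 ⟨I, mem_nonZeroDivisors_of_ne_zero h⟩ else 1

theorem cl_mul {I J : Ideal (𝓞 F)} (hI : I ≠ ⊥) (hJ : J ≠ ⊥) : cl (I * J) = cl I * cl J := by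
  have h : I * J ≠ ⊥ := mul_ne_zero hI hJ
  rw [cl, cl, cl, dif_pos hI, dif_pos hJ, dif_pos h, ← map_mul]
  rfl

theorem cl_eq_one {I : Ideal (𝓞 F)} (hI : I ≠ ⊥) : cl I = 1 ↔ I.IsPrincipal := by
  rw [cl, dif_pos hI, ClassGroup.mk0_eq_one_iff]

/-- The modulus. -/
noncomputable def md (S : Finset (Pr F)) (N : ℕ) : Ideal (𝓞 F) := ∏ q ∈ S, q.asIdeal ^ (N + 1)

variable {S : Finset (Pr F)} {N : ℕ}

theorem md_ne : md S N ≠ ⊥ := SC.CnAux.prod_ne S fun _ => N + 1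

theorem md_le {q : Pr F} (hq : q ∈ S) : md S N ≤ q.asIdeal ^ (N + 1) :=
  Ideal.le_of_dvd (Finset.dvd_prod_of_mem (fun q : Pr F => q.asIdeal ^ (N + 1)) hq)

theorem md_le' {q : Pr F} (hq : q ∈ S) : md S N ≤ q.asIdeal :=
  (md_le hq).trans (Ideal.pow_le_self (Nat.succ_ne_zero N))

theorem cop_md {I : Ideal (𝓞 F)} : IsCoprime I (md S N) ↔ ∀ q ∈ S, IsCoprime I q.asIdeal := by
  rw [md, IsCoprime.prod_right_iff]
  exact forall₂_congr fun q _ => IsCoprime.pow_right_iff (Nat.succ_pos N)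

theorem pt_mul {I J : Ideal (𝓞 F)} : PrimeTo S (I * J) ↔ PrimeTo S I ∧ PrimeTo S J := by
  simp only [PrimeTo, ← Ideal.zero_eq_bot, mul_ne_zero_iff, IsCoprime.mul_left_iff, forall_and]
  tauto

/-- `x` is prime to `S`. -/
def Cop (S : Finset (Pr F)) (x : 𝓞 F) : Prop := ∀ q ∈ S, x ∉ q.asIdeal

theorem cop_iff {x : 𝓞 F} : Cop S x ↔ ∀ q ∈ S, IsCoprime (Ideal.span {x}) q.asIdeal :=
  forall₂_congr fun q _ => by rw [EulerAux.coprime_iff, Ideal.dvd_span_singleton]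

theorem pt_span {x : 𝓞 F} (hx : x ≠ 0) : PrimeTo S (Ideal.span {x}) ↔ Cop S x := by
  rw [cop_iff, PrimeTo, and_iff_right (by simpa using hx)]

theorem exists_rep (S : Finset (Pr F)) (k : ClassGroup (𝓞 F)) :
    ∃ 𝔟 : Ideal (𝓞 F), PrimeTo S 𝔟 ∧ cl 𝔟 = k := by
  obtain ⟨⟨𝔞, h0⟩, h1⟩ := ClassGroup.mk0_surjective k⁻¹
  have ha : 𝔞 ≠ ⊥ := nonZeroDivisors.ne_zero h0
  obtain ⟨𝔟, β, hβ, h2, h3⟩ := SC.CnAux.inv ha (md_ne (S := S) (N := 0))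
  have h4 : 𝔞 * 𝔟 ≠ ⊥ := by rw [h3]; simpa using hβ
  have hb : 𝔟 ≠ ⊥ := right_ne_zero_of_mul h4
  refine ⟨𝔟, ⟨hb, cop_md.1 h2⟩, ?_⟩
  have h5 : cl (𝔞 * 𝔟) = 1 := (cl_eq_one h4).2 (by rw [h3]; exact ⟨β, rfl⟩)
  have h6 : cl 𝔞 = k⁻¹ := by rw [cl, dif_pos ha]; exact h1
  rw [cl_mul ha hb, h6, inv_mul_eq_one] at h5
  exact h5.symm

/-- The periodic coefficients. -/
noncomputable def w0 (S : Finset (Pr F)) (c : Ideal (𝓞 F) → ℂ) (x : 𝓞 F) : ℂ :=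
  if Cop S x then cm c (Ideal.span {x}) else 0

variable {χ : Pr F → ℂˣ} {c : Ideal (𝓞 F) → ℂ}

theorem triv (hc : ∀ q : Pr F, c q.asIdeal = χ q) (hR : WRay S N χ) (h0 : Cop S 0) (x : 𝓞 F) :
    cm c (Ideal.span {x}) = 1 := by
  by_cases hx : x = 0
  · rw [hx, Ideal.span_singleton_zero, cm_bot]
  · rw [cm_span hc hx, hR _ ⟨by simpa using hx, fun q hq => (h0 q hq (zero_mem _)).elim⟩]
    rfl

theorem w0_add (hc : ∀ q : Pr F, c q.asIdeal = χ q) (hR : WRay S N χ) (x : 𝓞 F) :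
    ∀ y ∈ md S N, w0 S c (x + y) = w0 S c x := by
  intro y hy
  have h1 : Cop S (x + y) ↔ Cop S x := forall₂_congr fun q hq =>
    not_congr (Submodule.add_mem_iff_left _ (md_le' hq hy))
  rw [w0, w0, h1]
  split_ifs with h
  · by_cases hx : x = 0
    · rw [triv hc hR (hx ▸ h), triv hc hR (hx ▸ h)]
    by_cases hxy : x + y = 0
    · rw [triv hc hR (hxy ▸ h1.2 h), triv hc hR (hxy ▸ h1.2 h)]
    have hx' : (x : F) ≠ 0 := by simpa using hx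
    have hxy' : ((x + y : 𝓞 F) : F) ≠ 0 := fun h => hxy (RingOfIntegers.coe_eq_zero_iff.1 h)
    have h2 : Ray S N (((x + y : 𝓞 F) : F) / x) := by
      refine ⟨div_ne_zero hxy' hx', fun q hq => ?_⟩
      have h3 : ((x + y : 𝓞 F) : F) / x - 1 = (y : F) / x := by
        push_cast
        field_simp
        ring
      have h4 : og q (x : F) = 0 :=
        le_antisymm (not_lt.1 fun h5 => h q hq ((og_pos_iff q hx).1 h5)) (og_nonneg q x)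
      rw [h3]
      refine ComplAux.pw_div hx' ?_
      rw [show ord (q.valuation F) (x : F) = 0 from h4, zero_add]
      exact_mod_cast (ComplAux.int_mem_pw q y (N + 1)).2 (md_le hq hy)
    have h5 := hR _ h2
    rw [div_eq_mul_inv, dv_mul hxy' (inv_ne_zero hx'), dv_inv, ev_add, ev_neg,
      mul_inv_eq_one] at h5
    rw [cm_span hc hx, cm_span hc hxy, h5]
  · rfl

theorem w0_mul (hc : ∀ q : Pr F, c q.asIdeal = χ q) (hR : WRay S N χ) {u : 𝓞 F} (hu : Cop S u)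
    (h0 : u ≠ 0) (x : 𝓞 F) : w0 S c (u * x) = cm c (Ideal.span {u}) * w0 S c x := by
  have h1 : Cop S (u * x) ↔ Cop S x := forall₂_congr fun q hq => not_congr
    ⟨fun h => (q.isPrime.mem_or_mem h).resolve_left (hu q hq), Ideal.mul_mem_left _ _⟩
  rw [w0, w0, h1]
  split_ifs with h
  · by_cases hx : x = 0
    · rw [triv hc hR (hx ▸ h), triv hc hR (hx ▸ h), triv hc hR (hx ▸ h), mul_one]
    · rw [← Ideal.span_singleton_mul_span_singleton,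
        cm_mul c (by simpa using h0) (by simpa using hx)]
  · rw [mul_zero]

/-- A class group character is a class function. -/
theorem cm_cl (hc : ∀ q : Pr F, ‖c q.asIdeal‖ = 1)
    (h : ∀ u, Cop S u → u ≠ 0 → cm c (Ideal.span {u}) = 1) {I J : Ideal (𝓞 F)}
    (hI : PrimeTo S I) (hJ : PrimeTo S J) (e : cl I = cl J) : cm c I = cm c J := by
  obtain ⟨𝔟, hb, h1⟩ := exists_rep S (cl J)⁻¹
  have key : ∀ I : Ideal (𝓞 F), PrimeTo S I → cl I = cl J → cm c I * cm c 𝔟 = 1 := by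
    intro I hI e
    have h2 := pt_mul.2 ⟨hI, hb⟩
    obtain ⟨β, hβ⟩ := (cl_eq_one h2.1).1 (by rw [cl_mul hI.1 hb.1, e, h1, mul_inv_cancel])
    have hβ' : I * 𝔟 = Ideal.span {β} := hβ
    have h3 : β ≠ 0 := fun h0 => h2.1 (by rw [hβ', h0, Ideal.span_singleton_zero])
    rw [← cm_mul c hI.1 hb.1, hβ']
    exact h β ((pt_span h3).1 (hβ' ▸ h2)) h3
  have h4 : cm c 𝔟 ≠ 0 := norm_ne_zero_iff.1 (by rw [norm_cm hc]; exact one_ne_zero)
  exact mul_right_cancel₀ h4 ((key I hI e).trans (key J hJ rfl).symm)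

theorem sum_zero (hc : ∀ q : Pr F, ‖c q.asIdeal‖ = 1)
    (h : ∀ u, Cop S u → u ≠ 0 → cm c (Ideal.span {u}) = 1) {q : Pr F} (hq : q ∉ S)
    (h1 : c q.asIdeal ≠ 1) {𝔟 : ClassGroup (𝓞 F) → Ideal (𝓞 F)}
    (hb : ∀ k, PrimeTo S (𝔟 k) ∧ cl (𝔟 k) = k) : ∑ k, (cm c (𝔟 k))⁻¹ = 0 := by
  have hp : PrimeTo S q.asIdeal := ⟨q.ne_bot, fun q' hq' => (EulerAux.coprime_iff q' _).2 fun hd =>
    hq (SC.CnAux.eq_of_le (Ideal.le_of_dvd hd) ▸ hq')⟩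
  have h2 : ∀ k, cm c (𝔟 (cl q.asIdeal * k)) = c q.asIdeal * cm c (𝔟 k) := fun k => by
    rw [← cm_prime c q, ← cm_mul c q.ne_bot (hb k).1.1]
    refine cm_cl hc h (hb _).1 (pt_mul.2 ⟨hp, (hb k).1⟩) ?_
    rw [(hb _).2, cl_mul q.ne_bot (hb k).1.1, (hb k).2]
  have h3 := Equiv.sum_comp (Equiv.mulLeft (cl q.asIdeal)) fun k => (cm c (𝔟 k))⁻¹
  simp only [Equiv.coe_mulLeft, h2, mul_inv, ← Finset.mul_sum] at h3
  by_contra h4
  exact h1 (inv_eq_one.1 (mul_right_cancel₀ h4 (h3.trans (one_mul _).symm)))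

/-- The coefficients on principal multiples of `𝔟`. -/
noncomputable def WW (S : Finset (Pr F)) (c : Ideal (𝓞 F) → ℂ) (𝔟 J : Ideal (𝓞 F)) : ℂ :=
  if J.IsPrincipal ∧ 𝔟 ∣ J ∧ PrimeTo S J then cm c J else 0

theorem class_sum (hc : ∀ q : Pr F, ‖c q.asIdeal‖ = 1) {𝔟 : Ideal (𝓞 F)} (hb : PrimeTo S 𝔟)
    (s : ℂ) :
    (∑' I : {I : Ideal (𝓞 F) // PrimeTo S I},
      if cl I.1 * cl 𝔟 = 1 then cm c I.1 * (Ideal.absNorm I.1 : ℂ) ^ (-s) else 0) =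
    (cm c 𝔟)⁻¹ * (Ideal.absNorm 𝔟 : ℂ) ^ s *
      ∑' J : {I : Ideal (𝓞 F) // I ≠ ⊥}, WW S c 𝔟 J.1 * (Ideal.absNorm J.1 : ℂ) ^ (-s) := by
  let g : {I : Ideal (𝓞 F) // PrimeTo S I} → {I : Ideal (𝓞 F) // I ≠ ⊥} :=
    fun I => ⟨I.1 * 𝔟, mul_ne_zero I.2.1 hb.1⟩
  have hg : Function.Injective g := fun I J h =>
    Subtype.ext (mul_right_cancel₀ hb.1 (congrArg Subtype.val h))
  rw [← hg.tsum_eq, ← tsum_mul_left]
  · refine tsum_congr fun I => ?_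
    have h1 := pt_mul.2 ⟨I.2, hb⟩
    have h2 : cm c 𝔟 ≠ 0 := norm_ne_zero_iff.1 (by rw [norm_cm hc]; exact one_ne_zero)
    have h3 : (Ideal.absNorm 𝔟 : ℂ) ≠ 0 := by
      exact_mod_cast fun h => hb.1 (Ideal.absNorm_eq_zero_iff.1 h)
    have h4 : (Ideal.absNorm 𝔟 : ℂ) ^ s ≠ 0 := by simp [h3]
    simp only [g, WW, ← cl_mul I.2.1 hb.1, cl_eq_one h1.1, h1, dvd_mul_left, and_true]
    split_ifs
    · rw [cm_mul c I.2.1 hb.1, map_mul, Nat.cast_mul, Complex.natCast_mul_natCast_cpow,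
        Complex.cpow_neg (Ideal.absNorm 𝔟 : ℂ)]
      field_simp
    · simp
  · intro J hJ
    have h1 : J.1.IsPrincipal ∧ 𝔟 ∣ J.1 ∧ PrimeTo S J.1 := by
      by_contra h
      exact hJ (by simp only [WW, if_neg h, zero_mul])
    obtain ⟨-, ⟨I, hI⟩, h2⟩ := h1
    exact ⟨⟨I, (pt_mul.1 (hI ▸ h2)).2⟩, Subtype.ext ((mul_comm _ _).trans hI.symm)⟩

theorem Lfun_split (hc : ∀ q : Pr F, ‖c q.asIdeal‖ = 1) {𝔟 : ClassGroup (𝓞 F) → Ideal (𝓞 F)}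
    (hb : ∀ k, PrimeTo S (𝔟 k) ∧ cl (𝔟 k) = k) {s : ℂ} (hs : 1 < s.re) :
    Lfun S c s = ∑ k, (cm c (𝔟 k))⁻¹ * (Ideal.absNorm (𝔟 k) : ℂ) ^ s *
      ∑' J : {I : Ideal (𝓞 F) // I ≠ ⊥}, WW S c (𝔟 k) J.1 * (Ideal.absNorm J.1 : ℂ) ^ (-s) := by
  simp only [← class_sum hc (hb _).1, (hb _).2]
  rw [← Summable.tsum_finsetSum]
  · refine tsum_congr fun I => ?_
    simp only [mul_eq_one_iff_inv_eq, Finset.sum_ite_eq, Finset.mem_univ, if_true]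
  · intro k _
    refine Summable.of_norm_bounded (summable_Lfun S c (fun q _ => (hc q).le) hs) fun I => ?_
    split_ifs
    · exact le_rfl
    · rw [norm_zero]
      exact norm_nonneg _

theorem cpow_bound {n : ℕ} (hn : n ≠ 0) {s : ℝ} (h1 : 1 < s) (h2 : s ≤ 2) :
    ‖(n : ℂ) ^ (s : ℂ)‖ ≤ (n : ℝ) ^ 2 ∧ ‖(n : ℂ) ^ (s : ℂ) - n‖ ≤ (n : ℝ) ^ 2 * (s - 1) := by
  have hn1 : (1 : ℝ) ≤ n := by exact_mod_cast Nat.one_le_iff_ne_zero.2 hn
  have e : (n : ℂ) ^ (s : ℂ) = (((n : ℝ) ^ s : ℝ) : ℂ) := by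
    rw [Complex.ofReal_cpow (by linarith)]
    simp
  have e1 : (n : ℝ) ^ s = n * (n : ℝ) ^ (s - 1) := by
    rw [Real.rpow_sub_one (by linarith)]
    field_simp
  have h3 := rpow_one_add_le_one_add_mul_self (s := (n : ℝ) - 1) (by linarith)
    (p := s - 1) (by linarith) (by linarith)
  rw [add_sub_cancel] at h3
  have h4 : 1 ≤ (n : ℝ) ^ (s - 1) := Real.one_le_rpow hn1 (by linarith)
  have h5 : (0 : ℝ) ≤ n * (s - 1) := mul_nonneg (by linarith) (by linarith)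
  have h6 : (0 : ℝ) ≤ n * ((2 - s) * (n - 1)) :=
    mul_nonneg (by linarith) (mul_nonneg (by linarith) (by linarith))
  have h7 := mul_le_mul_of_nonneg_left h3 (by linarith : (0 : ℝ) ≤ n)
  have h8 := mul_le_mul_of_nonneg_left h4 (by linarith : (0 : ℝ) ≤ n)
  rw [e, ← Complex.ofReal_natCast, ← Complex.ofReal_sub, Complex.norm_real, Complex.norm_real,
    e1, Real.norm_of_nonneg (by linarith), Real.norm_of_nonneg (by linarith)]
  constructor <;> nlinarith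

theorem exists_d {ι : Type} [Fintype ι] {𝔪 : Ideal (𝓞 F)} {𝔟 : ι → Ideal (𝓞 F)} (hm : 𝔪 ≠ ⊥)
    (hb : ∀ k, 𝔟 k ≠ ⊥) : ∃ d : ℕ, d ≠ 0 ∧ (d : 𝓞 F) ∈ 𝔪 ∧ ∀ k, (d : 𝓞 F) ∈ 𝔟 k := by
  have h0 : 𝔪 * ∏ k, 𝔟 k ≠ 0 := mul_ne_zero hm (Finset.prod_ne_zero_iff.2 fun k _ => hb k)
  have h1 := Ideal.absNorm_mem (𝔪 * ∏ k, 𝔟 k)
  have h2 : 𝔪 * ∏ k, 𝔟 k ≤ 𝔪 := Ideal.le_of_dvd (dvd_mul_right _ _)
  have h3 : ∀ k, 𝔪 * ∏ k, 𝔟 k ≤ 𝔟 k := fun k =>
    Ideal.le_of_dvd ((Finset.dvd_prod_of_mem 𝔟 (Finset.mem_univ k)).mul_left 𝔪)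
  exact ⟨_, fun h => h0 (Ideal.absNorm_eq_zero_iff.1 h), h2 h1, fun k => h3 k h1⟩

end LBdAux

open LBdAux

theorem lbd (h1 : PrinA) (h2 : MeanA) : LBdA := by
  intro F _ _ S N χ c hχ hc hR ⟨q, hq, hq1⟩
  have hn : ∀ q : Pr F, ‖c q.asIdeal‖ = 1 := fun q => by rw [hc, hχ]
  choose 𝔟 hb using exists_rep S
  obtain ⟨κ, B, hB, hP⟩ := h1 F
  obtain ⟨d, hd0, hd1, hd2⟩ := exists_d (md_ne (S := S) (N := N)) fun k => (hb k).1.1
  have hn0 : Ideal.span {(d : 𝓞 F)} ≠ ⊥ := by simpa using hd0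
  have hn1 : Ideal.span {(d : 𝓞 F)} ≤ md S N := (Ideal.span_singleton_le_iff_mem _).2 hd1
  have hr : ∀ k, Ideal.absNorm (𝔟 k) * rs (Ideal.span {(d : 𝓞 F)})
      (fun x => if x ∈ 𝔟 k then w0 S c x else 0) = rs (Ideal.span {(d : 𝓞 F)}) (w0 S c) :=
    fun k => (h2 F).crt (𝔟 k) (md S N) _ _ hn0 ((Ideal.span_singleton_le_iff_mem _).2 (hd2 k)) hn1
      (cop_md.2 (hb k).1.2) (w0_add hc hR)
  have hz : rs (Ideal.span {(d : 𝓞 F)}) (w0 S c) * ∑ k, (cm c (𝔟 k))⁻¹ = 0 := by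
    by_cases h : ∀ u, Cop S u → u ≠ 0 → cm c (Ideal.span {u}) = 1
    · rw [sum_zero hn h hq (by rw [hc]; exact fun e => hq1 (Units.val_eq_one.1 e)) hb, mul_zero]
    · push Not at h
      obtain ⟨u, hu, hu0, hu1⟩ := h
      rw [(h2 F).zero (md S N) _ _ u _ hn0 hn1 (cop_md.2 (cop_iff.1 hu)) (w0_add hc hR)
        (w0_mul hc hR hu hu0) hu1, zero_mul]
  choose C hC using fun k => hP d (WW S c (𝔟 k)) (fun x => if x ∈ 𝔟 k then w0 S c x else 0) hd0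
    (fun x hx => by
      have : (Ideal.span {x}).IsPrincipal := ⟨x, rfl⟩
      simp only [WW, w0, this, true_and, Ideal.dvd_span_singleton, pt_span hx, ite_and])
    (fun I hI => by simp only [WW, hI, false_and, if_false])
    (fun x => by
      simp only [w0]
      split_ifs <;> simp [norm_cm hn])
    (fun x y => by
      simp only [Submodule.add_mem_iff_left _ (Ideal.mul_mem_right y _ (hd2 k)),
        w0_add hc hR x _ (Ideal.mul_mem_right y _ hd1)])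
  set r : ClassGroup (𝓞 F) → ℂ := fun k => rs (Ideal.span {(d : 𝓞 F)})
    (fun x => if x ∈ 𝔟 k then w0 S c x else 0) with hrdef
  set D : ℂ := (d : ℂ) ^ Module.finrank ℚ F
  refine ⟨∑ k, (Ideal.absNorm (𝔟 k) : ℝ) ^ 2 * (C k + B * ‖r k / D‖), fun s hs1 hs2 => ?_⟩
  have hs0 : (s : ℂ) - 1 ≠ 0 := by exact_mod_cast (sub_pos.2 hs1).ne'
  have hs3 : ‖(s : ℂ) - 1‖ = s - 1 := by
    rw [← Complex.ofReal_one, ← Complex.ofReal_sub, Complex.norm_real,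
      Real.norm_of_nonneg (sub_pos.2 hs1).le]
  have e : ∑ k, (cm c (𝔟 k))⁻¹ * Ideal.absNorm (𝔟 k) * (κ s * r k / (D * (s - 1))) = 0 := by
    have : ∀ k, (cm c (𝔟 k))⁻¹ * Ideal.absNorm (𝔟 k) * (κ s * r k / (D * (s - 1))) =
        κ s / (D * (s - 1)) * (rs (Ideal.span {(d : 𝓞 F)}) (w0 S c) * (cm c (𝔟 k))⁻¹) := fun k => by
      rw [← hr k]
      ring
    simp only [this, ← Finset.mul_sum, hz, mul_zero]
  rw [Lfun_split hn hb (by simpa using hs1), ← sub_zero (Finset.sum _ _), ← e,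
    ← Finset.sum_sub_distrib]
  refine norm_sum_le_of_le _ fun k _ => ?_
  obtain ⟨b1, b2⟩ := cpow_bound (n := Ideal.absNorm (𝔟 k))
    (fun h => (hb k).1.1 (Ideal.absNorm_eq_zero_iff.1 h)) hs1 hs2
  have b3 := hC k s hs1 hs2
  have b4 := hB s hs1 hs2
  generalize (∑' J : {I : Ideal (𝓞 F) // I ≠ ⊥},
    WW S c (𝔟 k) J.1 * (Ideal.absNorm J.1 : ℂ) ^ (-(s : ℂ))) = T at b3 ⊢
  have e2 : (cm c (𝔟 k))⁻¹ * (Ideal.absNorm (𝔟 k) : ℂ) ^ (s : ℂ) * T -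
      (cm c (𝔟 k))⁻¹ * Ideal.absNorm (𝔟 k) * (κ s * r k / (D * (s - 1))) =
      (cm c (𝔟 k))⁻¹ * ((Ideal.absNorm (𝔟 k) : ℂ) ^ (s : ℂ) * (T - κ s * r k / (D * (s - 1))) +
        ((Ideal.absNorm (𝔟 k) : ℂ) ^ (s : ℂ) - Ideal.absNorm (𝔟 k)) / (s - 1) *
          (κ s * (r k / D))) := by
    rw [← div_div]
    ring
  rw [e2, norm_mul, norm_inv, norm_cm hn, inv_one, one_mul, mul_add]
  refine (norm_add_le _ _).trans (add_le_add ?_ ?_)
  · rw [norm_mul]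
    exact mul_le_mul b1 b3 (norm_nonneg _) (by positivity)
  · rw [norm_mul, norm_mul, norm_div, hs3]
    exact mul_le_mul ((div_le_iff₀ (sub_pos.2 hs1)).2 b2)
      (mul_le_mul_of_nonneg_right b4 (norm_nonneg _)) (by positivity) (by positivity)

end Pool.Agent.Stark.AR
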