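import Pool.Agent.Lib.MP_ca56d1_nt.AR.St

/-! A lattice contains a permutation lattice of finite index. -/

namespace Pool.Agent.Stark.AR

open scoped Classical

namespace LatAux

theorem dense_rat {X M : Type} [AddCommGroup M] (l : M →+ (X → ℝ))
    (h : Submodule.span ℝ (Set.range l) = ⊤) :
    Dense {v : X → ℝ | ∃ (n : ℕ) (m : M), n ≠ 0 ∧ (n : ℝ) • v = l m} := by
  intro v
  have hv : v ∈ Submodule.span ℝ (Set.range l) := h ▸ Submodule.mem_top
  induction hv using Submodule.span_induction with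
  | mem x hx =>
    obtain ⟨m, rfl⟩ := hx
    exact subset_closure ⟨1, m, one_ne_zero, by simp⟩
  | zero => exact subset_closure ⟨1, 0, one_ne_zero, by simp⟩
  | add x y _ _ hx hy =>
    refine map_mem_closure₂ (f := fun a b : X → ℝ => a + b) continuous_add hx hy ?_
    rintro a ⟨n, m, hn, e⟩ b ⟨n', m', hn', e'⟩
    refine ⟨n * n', n' • m + n • m', mul_ne_zero hn hn', ?_⟩
    rw [map_add, map_nsmul, map_nsmul, ← e, ← e', ← Nat.cast_smul_eq_nsmul ℝ,
      ← Nat.cast_smul_eq_nsmul ℝ, smul_smul, smul_smul, smul_add, Nat.cast_mul, mul_comm (n' : ℝ)]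
  | smul r x _ hx =>
    refine map_mem_closure₂ (f := fun (a : ℝ) (b : X → ℝ) => a • b) continuous_smul
      (Rat.denseRange_cast r) hx ?_
    rintro _ ⟨q, rfl⟩ b ⟨n, m, hn, e⟩
    refine ⟨q.den * n, q.num • m, mul_ne_zero q.den_nz hn, ?_⟩
    have h1 : (q.den : ℝ) * q = q.num := by exact_mod_cast Rat.den_mul_eq_num q
    rw [map_zsmul, ← e, ← Int.cast_smul_eq_zsmul ℝ, smul_smul, smul_smul, ← h1, Nat.cast_mul,
      mul_right_comm]

variable {G X : Type} [Group G] [Fintype G] [Fintype X] [MulAction G X]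

variable (G) in
/-- The averaged matrix. -/
noncomputable def avg (Z : X → X → ℝ) : Matrix X X ℝ :=
  Matrix.of fun x x' => ∑ g : G, Z (g⁻¹ • x) (g⁻¹ • x')

theorem exists_z {M : Type} [AddCommGroup M] (l : M →+ (X → ℝ))
    (h : Submodule.span ℝ (Set.range l) = ⊤) :
    ∃ z : X → M, (avg G fun x => l (z x)).det ≠ 0 := by
  have hc : Continuous fun Z : X → X → ℝ => (avg G Z).det := by
    refine Continuous.matrix_det (continuous_matrix fun x x' => ?_)
    simp only [avg, Matrix.of_apply]
    fun_prop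
  have h1 : avg G (fun x x' : X => if x = x' then (1 : ℝ) else 0) =
      (Fintype.card G : ℝ) • (1 : Matrix X X ℝ) := by
    ext x x'
    by_cases e : x = x' <;> simp [avg, e]
  obtain ⟨Z, hZ, hZ'⟩ := (dense_pi Set.univ fun (_ : X) _ => dense_rat l h).exists_mem_open
    (isOpen_ne_fun hc (continuous_const (y := 0)))
    ⟨fun x x' => if x = x' then 1 else 0, by
      simp only [Set.mem_ofPred_eq, h1, Matrix.det_smul, Matrix.det_one, mul_one]
      exact pow_ne_zero _ (Nat.cast_ne_zero.2 Fintype.card_ne_zero)⟩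
  choose n m hn e using fun x => hZ x (Set.mem_univ x)
  have h2 : ∀ x, l ((∏ x' ∈ Finset.univ.erase x, n x') • m x) = ((∏ x', n x' : ℕ) : ℝ) • Z x := by
    intro x
    rw [map_nsmul, ← e, ← Nat.cast_smul_eq_nsmul ℝ, smul_smul, ← Nat.cast_mul,
      Finset.prod_erase_mul _ _ (Finset.mem_univ x)]
  refine ⟨fun x => (∏ x' ∈ Finset.univ.erase x, n x') • m x, ?_⟩
  have h3 : (avg G fun x => l ((∏ x' ∈ Finset.univ.erase x, n x') • m x)) =
      ((∏ x', n x' : ℕ) : ℝ) • avg G Z := by
    ext x x'
    simp only [avg, Matrix.of_apply, h2, Matrix.smul_apply, Pi.smul_apply, Finset.smul_sum]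
  rw [h3, Matrix.det_smul]
  exact mul_ne_zero (pow_ne_zero _ (Nat.cast_ne_zero.2
    (Finset.prod_ne_zero_iff.2 fun x _ => hn x))) hZ'

end LatAux

open LatAux

theorem lat : LatSt := by
  intro G X M _ _ _ _ _ _ ρ l hr hl hs
  obtain ⟨z, hz⟩ := exists_z (G := G) l hs
  obtain ⟨y, hy⟩ : ∃ y : X → M, ∀ x, y x = ∑ g : G, ρ g (z (g⁻¹ • x)) := ⟨_, fun _ => rfl⟩
  have h1 : ∀ x x', l (y x) x' = (avg G fun x => l (z x)) x x' := by
    intro x x'
    rw [hy, map_sum, Finset.sum_apply]
    refine Finset.sum_congr rfl fun g _ => ?_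
    have := hl g (z (g⁻¹ • x)) (g⁻¹ • x')
    rwa [smul_inv_smul] at this
  have h2 : ∀ (g : G) x, y (g • x) = ρ g (y x) := by
    intro g x
    rw [hy, hy, map_sum, ← Equiv.sum_comp (Equiv.mulLeft g)]
    refine Finset.sum_congr rfl fun h _ => ?_
    simp [mul_smul]
  have hinj : Function.Injective (Fintype.linearCombination ℤ y) := by
    rw [injective_iff_map_eq_zero]
    intro f hf
    have h3 := Matrix.eq_zero_of_vecMul_eq_zero (v := fun x => (f x : ℝ)) hz (by
      ext x'
      have := congrFun (congrArg l hf) x'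
      rw [Fintype.linearCombination_apply, map_sum, Finset.sum_apply] at this
      simpa [Matrix.vecMul, dotProduct, h1] using this)
    ext x
    simpa using congrFun h3 x
  refine ⟨(Fintype.linearCombination ℤ y).toAddMonoidHom, hinj, ?_, fun g f => ?_⟩
  · have h4 := (LinearMap.range (Fintype.linearCombination ℤ y)).finrank_quotient_add_finrank
    rw [LinearMap.finrank_range_of_inj hinj, Module.finrank_fintype_fun_eq_card, hr,
      Nat.add_eq_right, Module.finrank_eq_zero_iff_isTorsion] at h4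
    have : Finite (M ⧸ (LinearMap.range (Fintype.linearCombination ℤ y)).toAddSubgroup) :=
      Module.finite_of_fg_torsion (M ⧸ LinearMap.range (Fintype.linearCombination ℤ y)) h4
    exact AddSubgroup.index_ne_zero_of_finite
      (H := (LinearMap.range (Fintype.linearCombination ℤ y)).toAddSubgroup)
  · simp only [LinearMap.toAddMonoidHom_coe, Fintype.linearCombination_apply, map_sum, map_zsmul]
    rw [← Equiv.sum_comp (MulAction.toPerm g)]
    refine Finset.sum_congr rfl fun x _ => ?_
    rw [MulAction.toPerm_apply, inv_smul_smul, h2]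

end Pool.Agent.Stark.AR
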