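import Pool.Agent.Lib.MP_ca56d1_nt.AR.St

/-! The filtration attached to a normal basis, the data for the first inequality, and the first
inequality. -/

namespace Pool.Agent.Stark.AR

open NumberField IsDedekindDomain StarkStmt Filter Topology MeasureTheory
open scoped IsMulCommutative Classical

namespace NBAux

/-- Finitely many elements have bounded denominators at finitely many primes. -/
theorem bound {F ι : Type} [Field F] [NumberField F] [Finite ι] (S : Finset (Pr F)) (x : ι → F) :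
    ∃ c : ℕ, ∀ i, ∀ q ∈ S, x i ∈ pw (q.valuation F) (-(c : ℤ)) := by
  obtain ⟨c, hc⟩ := (Set.finite_range
    fun p : ι × S => (ord (p.2.1.valuation F) (x p.1)).natAbs).bddAbove
  refine ⟨c, fun i q hq => mem_pw_iff.2 (Or.inr ?_)⟩
  have h : (ord (q.valuation F) (x i)).natAbs ≤ c := hc ⟨(i, ⟨q, hq⟩), rfl⟩
  omega

variable {K L : Type} [Field K] [NumberField K] [Field L] [NumberField L] [Algebra K L]

/-- The elements with all coordinates in `q ^ j` for all `q` in `S`. -/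
def Lt (b : Module.Basis (L ≃ₐ[K] L) K L) (S : Finset (Pr K)) (j : ℤ) : AddSubgroup L where
  carrier := {x | ∀ g, ∀ q ∈ S, b.repr x g ∈ pw (q.valuation K) j}
  add_mem' := fun {x y} hx hy g q hq => by
    rw [map_add, Finsupp.add_apply]
    exact add_mem (hx g q hq) (hy g q hq)
  zero_mem' := fun g q _ => by
    rw [map_zero, Finsupp.zero_apply]
    exact zero_mem _
  neg_mem' := fun {x} hx g q hq => by
    rw [map_neg, Finsupp.neg_apply]
    exact neg_mem (hx g q hq)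

variable {b : Module.Basis (L ≃ₐ[K] L) K L} {S : Finset (Pr K)}

omit [NumberField L] in
theorem lt_mono {i j : ℤ} (h : i ≤ j) {x : L} (hx : x ∈ Lt b S j) : x ∈ Lt b S i :=
  fun g q hq => ComplAux.pw_mono h (hx g q hq)

omit [NumberField L] in
theorem lt_smul {i j : ℤ} {t : K} {x : L} (ht : ∀ q ∈ S, t ∈ pw (q.valuation K) i)
    (hx : x ∈ Lt b S j) : t • x ∈ Lt b S (i + j) := fun g q hq => by
  rw [map_smul, Finsupp.smul_apply, smul_eq_mul]
  exact pw_mul (ht q hq) (hx g q hq)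

omit [NumberField L] in
theorem lt_basis {i : ℤ} {t : K} (ht : ∀ q ∈ S, t ∈ pw (q.valuation K) i) (h : L ≃ₐ[K] L) :
    t • b h ∈ Lt b S i := fun g q hq => by
  rw [map_smul, b.repr_self, Finsupp.smul_apply, smul_eq_mul, Finsupp.single_apply]
  split_ifs
  · rw [mul_one]
    exact ht q hq
  · rw [mul_zero]
    exact zero_mem _

theorem lt_bound {ι : Type} [Finite ι] (x : ι → L) : ∃ c : ℕ, ∀ i, x i ∈ Lt b S (-(c : ℤ)) := by
  obtain ⟨c, hc⟩ := bound S fun p : ι × (L ≃ₐ[K] L) => b.repr (x p.1) p.2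
  exact ⟨c, fun i g q hq => hc (i, g) q hq⟩

theorem gal_eq (hb : ∀ g h : L ≃ₐ[K] L, g (b h) = b (g * h)) (g : L ≃ₐ[K] L) (x : L) :
    g x = ∑ h, b.repr x h • b (g * h) := by
  conv_lhs => rw [← b.sum_repr x]
  rw [map_sum]
  refine Finset.sum_congr rfl fun h _ => ?_
  rw [← hb]
  exact g.toLinearMap.map_smul _ _

theorem lt_gal (hb : ∀ g h : L ≃ₐ[K] L, g (b h) = b (g * h)) (g : L ≃ₐ[K] L) {j : ℤ} {x : L}
    (hx : x ∈ Lt b S j) : g x ∈ Lt b S j := by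
  rw [gal_eq hb]
  exact sum_mem fun h _ => lt_basis (hx h) _

theorem lt_mul {c i j : ℤ} (hc : ∀ g h, b g * b h ∈ Lt b S c) {x y : L} (hx : x ∈ Lt b S i)
    (hy : y ∈ Lt b S j) : x * y ∈ Lt b S (i + j + c) := by
  rw [← b.sum_repr x, ← b.sum_repr y, Finset.sum_mul_sum]
  refine sum_mem fun g _ => sum_mem fun h _ => ?_
  rw [smul_mul_smul_comm]
  exact lt_smul (fun q hq => pw_mul (hx g q hq) (hy h q hq)) (hc g h)

omit [NumberField L] in
theorem tele (hb : ∀ g h : L ≃ₐ[K] L, g (b h) = b (g * h)) (σ : L ≃ₐ[K] L) {j : ℤ} {t : K}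
    (ht : ∀ q ∈ S, t ∈ pw (q.valuation K) j) (i : ℕ) :
    ∃ u ∈ Lt b S j, u - σ u = t • b 1 - t • b (σ ^ i) := by
  induction i with
  | zero => exact ⟨0, zero_mem _, by simp⟩
  | succ i ih =>
    obtain ⟨u, hu, h⟩ := ih
    refine ⟨u + t • b (σ ^ i), add_mem hu (lt_basis ht _), ?_⟩
    rw [map_add, map_smul, hb, ← pow_succ']
    linear_combination h

theorem repr_trace (hb : ∀ g h : L ≃ₐ[K] L, g (b h) = b (g * h)) (x : L) :
    b.repr (∑ g : L ≃ₐ[K] L, g x) 1 = ∑ h, b.repr x h := by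
  simp_rw [gal_eq hb _ x]
  rw [Finset.sum_comm, map_sum, Finsupp.finsetSum_apply]
  refine Finset.sum_congr rfl fun h _ => ?_
  have h1 : ∑ g, b (g * h) = ∑ g, b g := Equiv.sum_comp (Equiv.mulRight h) b
  rw [← Finset.smul_sum, h1, map_smul, Finsupp.smul_apply, map_sum, Finsupp.finsetSum_apply]
  simp [Finsupp.single_apply]

theorem step (hb : ∀ g h : L ≃ₐ[K] L, g (b h) = b (g * h)) {σ : L ≃ₐ[K] L}
    (hσ : ∀ h, h ∈ Subgroup.zpowers σ) {j : ℤ} {a : L} (ha : a ∈ Lt b S j)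
    (ht : ∑ g : L ≃ₐ[K] L, g a ∈ Lt b S (j + 1)) :
    ∃ u ∈ Lt b S j, a - (u - σ u) ∈ Lt b S (j + 1) := by
  have h1 : ∀ h, ∃ u ∈ Lt b S j, u - σ u = b.repr a h • b 1 - b.repr a h • b h := fun h => by
    obtain ⟨i, rfl⟩ := mem_powers_iff_mem_zpowers.2 (hσ h)
    exact tele hb σ (ha _) i
  choose u hu hu' using h1
  refine ⟨-∑ h, u h, neg_mem (sum_mem fun h _ => hu h), ?_⟩
  have h2 : ∑ h, u h - σ (∑ h, u h) = (∑ h, b.repr a h) • b 1 - a := by
    rw [map_sum, ← Finset.sum_sub_distrib, Finset.sum_congr rfl fun h _ => hu' h,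
      Finset.sum_sub_distrib, b.sum_repr, Finset.sum_smul]
  have h3 : a - (-∑ h, u h - σ (-∑ h, u h)) = (∑ h, b.repr a h) • b 1 := by
    rw [map_neg]
    linear_combination h2
  rw [h3]
  refine lt_basis (fun q hq => ?_) _
  rw [← repr_trace hb]
  exact ht 1 q hq

theorem lt_pw (hG : GalSt K L) {c c' : ℕ} {Q : Pr L} (hQ : below K Q ∈ S)
    (hc : ∀ g, b g ∈ pw (Q.valuation L) (-(c' : ℤ))) (h : c' + 1 ≤ c) {a : L}
    (ha : a ∈ Lt b S c) : a ∈ pw (Q.valuation L) 1 := by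
  rw [← b.sum_repr a]
  refine sum_mem fun g _ => ?_
  rw [Algebra.smul_def]
  refine ComplAux.pw_mono ?_ (pw_mul ((hG.pw_up Q _ c).2 (ha g _ hQ)) (hc g))
  have h1 : c ≤ eI K Q * c := Nat.le_mul_of_pos_left _ (SplitAux.eI_pos Q)
  have h2 : (c : ℤ) ≤ eI K Q * c := by exact_mod_cast h1
  omega

theorem pw_lt [IsGalois K L] (hG : GalSt K L) {SL : Finset (Pr L)}
    (hS : ∀ Q, Q ∈ SL ↔ below K Q ∈ S) (c : ℕ) :
    ∃ N : ℕ, ∀ a : L, (∀ Q ∈ SL, a ∈ pw (Q.valuation L) ((N : ℤ) + 1)) → a ∈ Lt b S c := by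
  obtain ⟨c', hc'⟩ := bound SL b.traceDual
  refine ⟨c' + SL.sup (eI K) * c, fun a ha g q hq => ?_⟩
  obtain ⟨Q, rfl⟩ := below_surj (K := L) q
  have h1 : b.repr a g = Algebra.trace K L (a * b.traceDual g) := by
    conv_lhs => rw [← b.traceDual_traceDual]
    rw [Module.Basis.traceDual_repr_apply, Algebra.traceForm_apply]
  rw [← hG.pw_up, h1, trace_eq_sum_automorphisms]
  refine sum_mem fun h _ => ?_
  have h2 : h⁻¹ • Q ∈ SL := by rwa [hS, hG.below_smul]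
  have h3 := (hG.pw_smul h _ _ _).2 (pw_mul (ha _ h2) (hc' g _ h2))
  rw [smul_inv_smul] at h3
  refine ComplAux.pw_mono ?_ h3
  have h4 : eI K Q * c ≤ SL.sup (eI K) * c :=
    Nat.mul_le_mul_right _ (Finset.le_sup ((hS Q).2 hq))
  have h5 : (eI K Q : ℤ) * c ≤ (SL.sup (eI K) * c : ℕ) := by exact_mod_cast h4
  rw [Nat.cast_add]
  omega

end NBAux

open NBAux

theorem nb (hG : GalA) : NBA := by
  intro K L _ _ _ _ _ hgal σ S SL hσ hS
  have hb : ∀ g h : L ≃ₐ[K] L,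
      g (IsGalois.normalBasis K L h) = IsGalois.normalBasis K L (g * h) := fun g h => by
    rw [IsGalois.normalBasis_apply h, IsGalois.normalBasis_apply (g * h), AlgEquiv.mul_apply]
  generalize IsGalois.normalBasis K L = b at hb
  obtain ⟨c0, hc0⟩ := lt_bound (b := b) (S := S)
    fun p : (L ≃ₐ[K] L) × (L ≃ₐ[K] L) => b p.1 * b p.2
  obtain ⟨c1, hc1⟩ := bound SL b
  obtain ⟨c, hc, hc'⟩ : ∃ c : ℕ, c0 + 1 ≤ c ∧ c1 + 1 ≤ c := ⟨c0 + c1 + 1, by omega, by omega⟩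
  obtain ⟨N, hN⟩ := pw_lt (b := b) (hG K L) hS c
  refine ⟨fun k => Lt b S (k + c), N, fun i j h x hx => lt_mono (by omega) hx,
    fun g k x hx => lt_gal hb g hx, fun x => ?_, fun j k x hx y hy => ?_, fun k a ha ht => ?_,
    fun a ha Q hQ => ?_, fun a ha => ?_⟩
  · obtain ⟨d, hd⟩ := lt_bound (b := b) (S := S) fun _ : Unit => x
    exact ⟨-d - c, lt_mono (by omega) (hd ())⟩
  · exact lt_mono (by omega) (lt_mul (fun g h => hc0 (g, h)) hx hy)
  · obtain ⟨u, hu, h⟩ := step hb hσ ha (lt_mono (by omega) ht)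
    exact ⟨u, hu, lt_mono (by omega) h⟩
  · exact lt_pw (hG K L) ((hS Q).1 hQ) (fun g => hc1 g Q hQ) hc' (lt_mono (by omega) ha)
  · exact lt_mono (by omega) (hN a ha)

theorem dat (h1 : FiltA) (h2 : NBA) (h3 : RayTA) : DatA := by
  intro K L _ _ _ _ _ hab σ S hσ hU
  have hgal : IsGalois K L := inferInstance
  obtain ⟨SL, hS⟩ := exists_above (K := L) S
  obtain ⟨M, N, m1, m2, m3, m4, m5, m6, m7⟩ := h2 K L hgal σ S SL hσ hS
  obtain ⟨A, hA, h90⟩ := h1 K L hgal σ M hσ m1 m2 m3 m4 m5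
  obtain ⟨TK, dK, tK⟩ := (h3 K).triv S N
  obtain ⟨TL', dL, tL⟩ := (h3 L).triv SL N
  obtain ⟨TL, hT⟩ := exists_above (K := L) (TK ∪ TL'.image (below K))
  refine ⟨TK ∪ TL'.image (below K), SL, TL, N, A, hab, hσ, hU, hS, hT, ?_,
    tK.mono Finset.subset_union_left, tL.mono fun Q hQ => ?_, fun g x hx => ?_,
    fun x hx Q hQ => ?_, fun x hx => (hA x).2 (m7 _ hx.2), h90⟩
  · refine Finset.disjoint_union_left.2 ⟨dK, Finset.disjoint_left.2 fun q hq hq' => ?_⟩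
    obtain ⟨Q, hQ, rfl⟩ := Finset.mem_image.1 hq
    exact Finset.disjoint_left.1 dL hQ ((hS Q).2 hq')
  · exact (hT Q).2 (Finset.mem_union_right _ (Finset.mem_image_of_mem _ hQ))
  · have h := m2 g 0 _ ((hA x).1 hx)
    rw [map_sub, map_one] at h
    exact (hA _).2 h
  · have h : Ray SL 0 (x : L) :=
      ⟨x.ne_zero, fun Q' hQ' => ComplAux.pw_mono (by simp) (m6 _ ((hA x).1 hx) Q' hQ')⟩
    exact h.og_eq hQ

theorem first (h1 : DatA) (h2 : UnitsA) (h3 : IdxA) : FirstA := by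
  intro K L _ _ _ _ _ hab hc S hU
  obtain ⟨σ, hσ⟩ := IsCyclic.exists_generator (α := L ≃ₐ[K] L)
  obtain ⟨T, SL, TL, N, A, hD⟩ := h1 K L hab σ S hσ hU
  obtain ⟨u1, u2⟩ := h2 K L σ S T SL TL N A hD
  obtain ⟨-, i2⟩ := h3 K L σ S T SL TL N A hD
  have h := u2.trans (i2 u1)
  rw [mul_comm] at h
  exact ⟨N, Nat.le_of_mul_le_mul_left h (Nat.pos_of_ne_zero u1)⟩

end Pool.Agent.Stark.AR
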