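import Pool.Agent.Lib.MP_ca56d1_nt.AR.St

/-! Moduli with prescribed order and the group theoretic form of the lemma of Artin. -/

namespace Pool.Agent.Stark.AR

open Finset

namespace OrdAux

theorem geom {b r D : ℕ} (hb : 2 ≤ b) (hr : r.Prime) (hD : D ≠ 0) (h : D + 3 ≤ r) :
    ∃ m : ℕ, b ^ (r - 1) < m ∧ m.Coprime (D * b) ∧ b ^ r ≡ 1 [MOD m] := by
  obtain ⟨c, rfl⟩ : ∃ c, b = c + 1 := ⟨b - 1, by omega⟩
  have h1 := geom_sum_mul_add c r
  have h2 : (c + 1) ^ r ≡ 1 [MOD ∑ i ∈ range r, (c + 1) ^ i] := by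
    rw [← h1]
    exact (Nat.modEq_iff_dvd' (by omega)).2 (by simp) |>.symm
  refine ⟨∑ i ∈ range r, (c + 1) ^ i, ?_, ?_, h2⟩
  · obtain ⟨s, rfl⟩ : ∃ s, r = s + 2 := ⟨r - 2, by omega⟩
    rw [sum_range_succ, sum_range_succ']
    simp only [pow_zero, show s + 2 - 1 = s + 1 by omega]
    omega
  · refine Nat.Coprime.symm (Nat.coprime_of_dvd fun l hl hd hm => ?_)
    have := Fact.mk hl
    have h3 : ((c + 1 : ℕ) : ZMod l) ^ r = 1 := by
      have := (ZMod.natCast_eq_natCast_iff _ _ _).2 (h2.of_dvd hm)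
      rwa [Nat.cast_pow, Nat.cast_one] at this
    have h4 : ((c + 1 : ℕ) : ZMod l) ≠ 0 := fun h0 => by
      rw [h0, zero_pow hr.ne_zero] at h3
      exact zero_ne_one h3
    have h5 : l ≤ D := Nat.le_of_dvd (Nat.pos_of_ne_zero hD)
      ((hl.dvd_mul.1 hd).resolve_right fun h0 => h4 ((ZMod.natCast_eq_zero_iff _ _).2 h0))
    have h6 := hl.two_le
    have h7 : r.Coprime (l - 1) :=
      (hr.coprime_iff_not_dvd).2 (Nat.not_dvd_of_pos_of_lt (by omega) (by omega))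
    have h8 := pow_gcd_eq_one.2 ⟨h3, ZMod.pow_card_sub_one_eq_one h4⟩
    rw [h7, pow_one] at h8
    have h9 := (ZMod.natCast_eq_zero_iff _ _).2 hm
    rw [Nat.cast_sum] at h9
    simp only [Nat.cast_pow, h8, one_pow, sum_const, card_range, nsmul_eq_mul, mul_one] at h9
    have := (Nat.prime_dvd_prime_iff_eq hl hr).1 ((ZMod.natCast_eq_zero_iff _ _).1 h9)
    omega

theorem unit (h : OrdSt) {a n D : ℕ} (ha : 2 ≤ a) (hn : n ≠ 0) (hD : D ≠ 0) :
    ∃ (m r : ℕ) (A : (ZMod m)ˣ), 2 < m ∧ Odd r ∧ m.Coprime (D * a) ∧ (A : ZMod m) = a ∧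
      orderOf A = n * r := by
  obtain ⟨m, r, h1, h2, h3, h4⟩ := h a n D ha hn hD
  refine ⟨m, r, ZMod.unitOfCoprime a (Nat.Coprime.coprime_mul_left_right h3).symm, h1, h2, h3,
    ZMod.coe_unitOfCoprime _ _, ?_⟩
  refine Nat.dvd_antisymm ?_ ?_
  · rw [orderOf_dvd_iff_pow_eq_one, ← Units.val_inj, Units.val_pow_eq_pow_val,
      ZMod.coe_unitOfCoprime, Units.val_one, ← Nat.cast_pow, ← Nat.cast_one (R := ZMod m),
      ZMod.natCast_eq_natCast_iff, h4]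
  · rw [← h4, ← ZMod.natCast_eq_natCast_iff, Nat.cast_pow, Nat.cast_one,
      ← ZMod.coe_unitOfCoprime a (Nat.Coprime.coprime_mul_left_right h3).symm,
      ← Units.val_pow_eq_pow_val, pow_orderOf_eq_one, Units.val_one]

theorem crt {p q : ℕ} (h : p.Coprime q) (x : (ZMod p)ˣ) (y : (ZMod q)ˣ) :
    ∃ u : (ZMod (p * q))ˣ, ZMod.unitsMap (dvd_mul_right p q) u = x ∧
      ZMod.unitsMap (dvd_mul_left q p) u = y := by
  let e := ZMod.chineseRemainder h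
  have h1 : ∀ z, ZMod.castHom (dvd_mul_right p q) (ZMod p) z = (e z).1 := fun z =>
    RingHom.congr_fun (RingHom.ext_zmod _ ((RingHom.fst _ _).comp e.toRingHom)) z
  have h2 : ∀ z, ZMod.castHom (dvd_mul_left q p) (ZMod q) z = (e z).2 := fun z =>
    RingHom.congr_fun (RingHom.ext_zmod _ ((RingHom.snd _ _).comp e.toRingHom)) z
  refine ⟨Units.map e.symm.toMonoidHom (MulEquiv.prodUnits.symm (x, y)), Units.ext ?_, Units.ext ?_⟩
  · exact (h1 _).trans (congrArg Prod.fst (e.apply_symm_apply _))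
  · exact (h2 _).trans (congrArg Prod.snd (e.apply_symm_apply _))

theorem map_neg_one {d m : ℕ} (h : d ∣ m) : ZMod.unitsMap h (-1) = -1 :=
  Units.ext (by simp [ZMod.unitsMap_def, -ZMod.castHom_apply])

theorem map_eq {d m a : ℕ} (h : d ∣ m) {u : (ZMod m)ˣ} (hu : (u : ZMod m) = a) :
    (ZMod.unitsMap h u : ZMod d) = a := by
  change ZMod.castHom h (ZMod d) u = a
  rw [hu, map_natCast]

variable {G : Type} [CommGroup G]

/-- two moduli -/
theorem two (h : OrdSt) {n D a : ℕ} {σ φ : G} (hn : n ≠ 0) (hD : D ≠ 0) (ha : 2 ≤ a)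
    (hσ : σ ^ n = 1) (hφ : φ ^ n = 1) : ∃ (m : ℕ) (H : Subgroup (G × (ZMod m)ˣ)), m ≠ 0 ∧
      m.Coprime (D * a) ∧ (∀ g, (g, 1) ∈ H → g = 1) ∧
      (∀ u : (ZMod m)ˣ, (u : ZMod m) = a → (φ, u) ∈ H) ∧ ∃ u, (σ, u) ∈ H := by
  obtain ⟨p, r, A, p1, -, p2, p3, p4⟩ := unit h ha hn hD
  obtain ⟨q, r', B, q1, -, q2, q3, q4⟩ := unit h ha hn (mul_ne_zero hD (by omega : p ≠ 0))
  have hpq : p.Coprime q :=
    (Nat.Coprime.coprime_mul_left_right (Nat.Coprime.coprime_mul_right_right q2)).symm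
  let H : Subgroup (G × (ZMod (p * q))ˣ) :=
    { carrier := {z | ∃ s t : ℤ, ZMod.unitsMap (dvd_mul_right p q) z.2 = A ^ s ∧
        ZMod.unitsMap (dvd_mul_left q p) z.2 = B ^ t ∧ z.1 = φ ^ s * σ ^ t / σ ^ s}
      mul_mem' := by
        rintro x y ⟨s, t, a1, a2, a3⟩ ⟨s', t', b1, b2, b3⟩
        refine ⟨s + s', t + t', ?_, ?_, ?_⟩
        · rw [Prod.snd_mul, map_mul, a1, b1, zpow_add]
        · rw [Prod.snd_mul, map_mul, a2, b2, zpow_add]
        · rw [Prod.fst_mul, a3, b3, zpow_add, zpow_add, zpow_add, div_mul_div_comm,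
            mul_mul_mul_comm]
      one_mem' := ⟨0, 0, by simp, by simp, by simp⟩
      inv_mem' := by
        rintro x ⟨s, t, a1, a2, a3⟩
        refine ⟨-s, -t, ?_, ?_, ?_⟩
        · rw [Prod.snd_inv, map_inv, a1, zpow_neg]
        · rw [Prod.snd_inv, map_inv, a2, zpow_neg]
        · rw [Prod.fst_inv, a3, zpow_neg, zpow_neg, zpow_neg, ← mul_inv, inv_div_inv, inv_div] }
  refine ⟨p * q, H, by positivity, Nat.Coprime.mul_left p2 ?_, ?_, fun u hu => ?_, ?_⟩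
  · exact q2.coprime_dvd_right ⟨p, by ring⟩
  · rintro g ⟨s, t, a1, a2, a3⟩
    rw [map_one, eq_comm, ← orderOf_dvd_iff_zpow_eq_one] at a1 a2
    rw [p4, Nat.cast_mul] at a1
    rw [q4, Nat.cast_mul] at a2
    obtain ⟨s, rfl⟩ := (dvd_mul_right _ _).trans a1
    obtain ⟨t, rfl⟩ := (dvd_mul_right _ _).trans a2
    simpa [zpow_mul, hσ, hφ] using a3
  · exact ⟨1, 1, Units.ext (by rw [map_eq _ hu, zpow_one, p3]),
      Units.ext (by rw [map_eq _ hu, zpow_one, q3]), by simp⟩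
  · obtain ⟨u, h1, h2⟩ := crt hpq 1 B
    exact ⟨u, 0, 1, by simpa using h1, by simpa using h2, by simp⟩

/-- three moduli -/
theorem three (h : OrdSt) {n D a : ℕ} {σ φ : G} (hn : n ≠ 0) (hD : D ≠ 0) (ha : 2 ≤ a)
    (hσ : σ ^ n = 1) (hφ : φ ^ n = 1) : ∃ (m : ℕ) (H : Subgroup (G × (ZMod m)ˣ)), m ≠ 0 ∧
      m.Coprime (D * a) ∧ (∀ g, (g, 1) ∈ H → g = 1) ∧ (∀ g, (g, -1) ∉ H) ∧
      (∀ u : (ZMod m)ˣ, (u : ZMod m) = a → (φ, u) ∈ H) ∧ ∃ u, (σ, u) ∈ H := by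
  obtain ⟨p, H, p1, p2, p3, p4, u, p5⟩ := two h hn hD ha hσ hφ
  obtain ⟨q, r, B, q1, q0, q2, q3, q4⟩ := unit h ha one_ne_zero (mul_ne_zero hD p1)
  have hpq : p.Coprime q :=
    (Nat.Coprime.coprime_mul_left_right (Nat.Coprime.coprime_mul_right_right q2)).symm
  refine ⟨p * q, H.comap ((MonoidHom.id G).prodMap (ZMod.unitsMap (dvd_mul_right p q))) ⊓
    (Subgroup.zpowers B).comap ((ZMod.unitsMap (dvd_mul_left q p)).comp (MonoidHom.snd _ _)),
    by positivity, Nat.Coprime.mul_left p2 (q2.coprime_dvd_right ⟨p, by ring⟩),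
    fun g hg => p3 g (by simpa using hg.1), fun g hg => ?_, fun v hv => ⟨p4 _ (map_eq _ hv), ?_⟩, ?_⟩
  · obtain ⟨k, hk⟩ := hg.2
    have h1 : B ^ k = -1 := hk.trans (map_neg_one _)
    have h2 : (B ^ k) ^ r = 1 := by
      rw [← zpow_natCast, ← zpow_mul, mul_comm, zpow_mul, zpow_natCast, ← one_mul r, ← q4,
        pow_orderOf_eq_one, one_zpow]
    rw [h1, q0.neg_one_pow] at h2
    have := Fact.mk q1
    exact ZMod.neg_one_ne_one (n := q) (by simpa using congrArg Units.val h2)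
  · exact ⟨1, Units.ext ((congrArg Units.val (zpow_one B)).trans (q3.trans (map_eq _ hv).symm))⟩
  · obtain ⟨v, h1, h2⟩ := crt hpq u 1
    exact ⟨v, by simpa [h1] using p5, by simp [h2]⟩

end OrdAux

open OrdAux

theorem ordS : OrdSt := by
  intro a n D ha hn hD
  obtain ⟨r, h1, hr⟩ := Nat.exists_infinite_primes (D + 3)
  have hb : 2 ≤ a ^ n := ha.trans (Nat.le_self_pow hn a)
  obtain ⟨m, m1, m2, m3⟩ := geom hb hr hD h1
  have h2 : 2 < m := lt_of_le_of_lt (hb.trans (Nat.le_self_pow (by omega) _)) m1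
  have h3 : ∀ i, a ^ i ≡ 1 [MOD m] ↔ orderOf (a : ZMod m) ∣ i := fun i => by
    rw [orderOf_dvd_iff_pow_eq_one, ← ZMod.natCast_eq_natCast_iff, Nat.cast_pow, Nat.cast_one]
  refine ⟨m, r, h2, hr.odd_of_ne_two (by omega),
    m2.coprime_dvd_right (Nat.mul_dvd_mul_left D (dvd_pow_self a hn)), fun i => ?_⟩
  rw [← pow_mul] at m1 m3
  obtain ⟨k, hk⟩ := (h3 _).1 m3
  have h4 := (h3 _).2 dvd_rfl
  rw [h3]
  generalize orderOf (a : ZMod m) = d at hk h4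
  have h5 : 0 < n * r := Nat.mul_pos (by omega) hr.pos
  have h6 : d ≠ 0 := by rintro rfl; omega
  have h7 : 1 < a ^ d := Nat.one_lt_pow h6 (by omega)
  have h8 := Nat.le_of_dvd (by omega) ((Nat.modEq_iff_dvd' h7.le).1 h4.symm)
  have h9 : n * (r - 1) < d := (Nat.pow_lt_pow_iff_right (by omega : 1 < a)).1 (by omega)
  obtain rfl : k = 1 := by
    obtain ⟨s, rfl⟩ : ∃ s, r = s + 2 := ⟨r - 2, by omega⟩
    rw [show s + 2 - 1 = s + 1 by omega] at h9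
    rcases k with _ | _ | k
    · omega
    · rfl
    · nlinarith [Nat.zero_le (d * k), Nat.zero_le (n * s)]
  rw [hk, mul_one]

theorem artL (h : OrdSt) : ArtLSt := by
  intro G _ n D a σ φ hn hD ha hσ hφ
  have a0 := ha 0
  have a1 := ha 1
  obtain ⟨p, H, p1, p2, p3, p4, p5, u, p6⟩ :=
    three h hn (mul_ne_zero hD (by omega : a 1 ≠ 0)) a0 hσ (hφ 0)
  obtain ⟨q, H', q1, q2, q3, q4, q5, v, q6⟩ :=
    three h hn (mul_ne_zero (mul_ne_zero hD (by omega : a 0 ≠ 0)) p1) a1 hσ (hφ 1)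
  have hpq : p.Coprime q :=
    (Nat.Coprime.coprime_mul_left_right (Nat.Coprime.coprime_mul_right_right q2)).symm
  have hc : (p * q).Coprime (D * a 1 * a 0) :=
    Nat.Coprime.mul_left p2 (q2.coprime_dvd_right ⟨p, by ring⟩)
  obtain ⟨w, w1, w2⟩ := crt hpq u v
  refine ⟨p * q, ![H.comap ((MonoidHom.id G).prodMap (ZMod.unitsMap (dvd_mul_right p q))),
    H'.comap ((MonoidHom.id G).prodMap (ZMod.unitsMap (dvd_mul_left q p)))], mul_ne_zero p1 q1,
    hc.coprime_dvd_right ⟨a 1 * a 0, by ring⟩, Fin.forall_fin_two.2 ⟨?_, ?_⟩,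
    Fin.forall_fin_two.2 ⟨fun g hg => p3 g ?_, fun g hg => q3 g ?_⟩,
    Fin.forall_fin_two.2 ⟨fun g hg => p4 g ?_, fun g hg => q4 g ?_⟩,
    Fin.forall_fin_two.2 ⟨fun x hx => p5 _ (map_eq _ hx), fun x hx => q5 _ (map_eq _ hx)⟩,
    w, Fin.forall_fin_two.2 ⟨?_, ?_⟩⟩
  · exact hc.coprime_dvd_right ⟨D * a 1, by ring⟩
  · exact hc.coprime_dvd_right ⟨D * a 0, by ring⟩
  · simpa using hg
  · simpa using hg
  · simpa [map_neg_one] using hg
  · simpa [map_neg_one] using hg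
  · simpa [w1] using p6
  · simpa [w2] using q6

end Pool.Agent.Stark.AR
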