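import Pool.Agent.Lib.MP_ca56d1_nt.AR.St

/-! Comparison of two primes through Artin's lemma. -/

namespace Pool.Agent.Stark.AR

open NumberField IsDedekindDomain StarkStmt
open scoped IsMulCommutative Classical

theorem pairS (hF : FrA) (hT : TowA) (h1 : ArtLSt) (h2 : CycFA) (h3 : KeyA)
    (h4 : SplA) : PairA := by
  intro K L _ _ _ _ _ hab σ S N Γ _ _ c p hU hc hk hp
  obtain ⟨m, H, hm, hmD, hma, hH1, hH2, hH3, u, hu⟩ := h1 (G := L ≃ₐ[K] L)
    (Nat.card (L ≃ₐ[K] L)) (discr L).natAbs (fun i => Ideal.absNorm (p i).asIdeal) σ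
    (fun i => fr K L (p i)) Nat.card_pos.ne' (Int.natAbs_ne_zero.2 (discr_ne_zero L))
    (fun i => HeightOneSpectrum.one_lt_absNorm (p i)) pow_card_eq_one' fun _ => pow_card_eq_one'
  obtain ⟨hab', ζ, Φ, hζ, hΦ, hΦ1, hΦ2, hun⟩ := h2 K L hab m hm hmD
  have : NeZero m := ⟨hm⟩
  have hfin := Ideal.finite_factors (I := Ideal.span {(m : 𝓞 K)})
    (by simpa [Ideal.span_singleton_eq_bot] using hm)
  have hS : ∀ q ∉ S ∪ hfin.toFinset, q ∉ S ∧ (m : 𝓞 K) ∉ q.asIdeal := fun q hq => by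
    simpa [Ideal.dvd_span_singleton] using hq
  have hp' : ∀ i, p i ∉ S ∪ hfin.toFinset := fun i h => by
    rcases Finset.mem_union.1 h with h | h
    · exact hp i h
    · have h5 : (m : 𝓞 K) ∈ (p i).asIdeal := by simpa [Ideal.dvd_span_singleton] using h
      obtain ⟨x, y, h6⟩ := (Nat.isCoprime_iff_coprime.2 (hma i)).map (Int.castRingHom (𝓞 K))
      refine (p i).isPrime.ne_top ((Ideal.eq_top_iff_one _).2 ?_)
      rw [← h6]
      exact add_mem (Ideal.mul_mem_left _ _ (by simpa using h5))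
        (Ideal.mul_mem_left _ _ (by simpa using (p i).asIdeal.absNorm_mem))
  generalize S ∪ hfin.toFinset = S' at hS hp'
  have hSS : S ⊆ S' := fun q hq => by_contra fun h => (hS q h).1 hq
  have hU' := hun S S' hU hSS fun q hq => (hS q hq).2
  have hz : ∀ (g) (k : ℕ), g ζ = ζ ^ k → ((Φ g).2 : ZMod m) = k := fun g k h => by
    rw [hΦ2, (hζ.isOfFinOrder hm).pow_eq_pow_iff_modEq, ← hζ.eq_orderOf,
      ← ZMod.natCast_eq_natCast_iff, ZMod.natCast_zmod_val] at h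
    exact h
  have hf1 : ∀ q ∉ S', (Φ (fr K (CyclotomicField m L) q)).1 = fr K L q := fun q hq =>
    AlgEquiv.ext fun x => (algebraMap L (CyclotomicField m L)).injective
      ((hΦ1 _ x).symm.trans ((hT K _ L).res hab' S' hU' q hq x))
  have hf2 : ∀ q ∉ S', ((Φ (fr K (CyclotomicField m L) q)).2 : ZMod m) =
      Ideal.absNorm q.asIdeal := fun q hq =>
    hz _ _ ((hF K _).zeta inferInstance m ζ q hm hζ (hS q hq).2)
  have key := fun i => h3 K _ hab' S' N m ζ ((H i).comap Φ) ((MonoidHom.fst _ _).comp Φ).ker c hU'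
    hm hζ (fun q hq => (hS q hq).2) (fun g hg h => by
      have h5 : (Φ g).2 = 1 := Units.ext (by simpa using hz g 1 (by simpa using h))
      have h6 : ((Φ g).1, 1) ∈ H i := by rw [← h5]; exact hg
      exact hΦ.1 ((Prod.ext (hH1 i _ h6) h5).trans (map_one Φ).symm))
    (fun g hg h => by
      have h5 : (Φ g).2 = -1 := Units.ext (by
        rw [hz g (m - 1) (h.trans (eq_inv_of_mul_eq_one_left (by
          rw [← pow_succ, Nat.sub_add_cancel (Nat.pos_of_ne_zero hm), hζ.pow_eq_one])).symm),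
          Nat.cast_sub (Nat.pos_of_ne_zero hm)]
        simp)
      exact hH2 i (Φ g).1 (by rw [← h5]; exact hg))
    (hc.mono hSS le_rfl) fun q hq k h => hk q (hS q hq).1 k (by
      rw [← hf1 q hq]
      simpa using h)
  choose θ hθ hθ' using key
  obtain ⟨τ, hτ⟩ := hΦ.2 (σ, u)
  have hτ' : ∀ i, τ ∈ (H i).comap Φ := fun i => by
    rw [Subgroup.mem_comap, hτ]
    exact hu i
  have heq : ∀ i, ∀ g ∈ (H 0).comap Φ ⊓ (H i).comap Φ, ∀ h0 hi, θ 0 ⟨g, h0⟩ = θ i ⟨g, hi⟩ := by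
    intro i g hg
    have hle := ((h4 K _).gen hab' S' hU' ((H 0).comap Φ ⊓ (H i).comap Φ)).le
    rw [← (h4 K _).gen hab' S' hU' (_ ⊓ _)] at hg
    induction hg using Subgroup.closure_induction with
    | mem g hg =>
      obtain ⟨q, hq, rfl⟩ := hg
      exact fun h0 hi => (hθ 0 q hq.1 h0).trans (hθ i q hq.1 hi).symm
    | one => exact fun _ _ => (map_one (θ 0)).trans (map_one (θ i)).symm
    | mul a b ha hb iha ihb =>
      exact fun _ _ => (map_mul (θ 0) ⟨a, (hle ha).1⟩ ⟨b, (hle hb).1⟩).trans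
        ((congrArg₂ (· * ·) (iha _ _) (ihb _ _)).trans
          (map_mul (θ i) ⟨a, (hle ha).2⟩ ⟨b, (hle hb).2⟩).symm)
    | inv a ha iha =>
      exact fun _ _ => (map_inv (θ 0) ⟨a, (hle ha).1⟩).trans
        ((congrArg (·⁻¹) (iha _ _)).trans (map_inv (θ i) ⟨a, (hle ha).2⟩).symm)
  refine ⟨θ 0 ⟨τ, hτ' 0⟩, fun i j hj => ?_⟩
  have hpi : fr K (CyclotomicField m L) (p i) ∈ (H i).comap Φ := by
    have h5 := hH3 i _ (hf2 _ (hp' i))
    rw [← hf1 _ (hp' i)] at h5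
    exact h5
  rw [heq i τ ⟨hτ' 0, hτ' i⟩ _ (hτ' i), ← hθ i _ (hp' i) hpi, ← map_pow, ← mul_inv_eq_one,
    ← map_inv, ← map_mul]
  refine hθ' i _ ?_
  simp [hτ, hf1 _ (hp' i), hj]

end Pool.Agent.Stark.AR
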