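import Pool.Agent.Lib.MP_ca56d1_nt.AR.St
import Pool.Agent.Lib.MP_ca56d1_nt.ZetaZero2

/-! The pole of a Dirichlet series over principal ideals with periodic coefficients. -/

namespace Pool.Agent.Stark.AR

open NumberField

namespace PrinAux

open Complex NumberField.mixedEmbedding NumberField.InfinitePlace NumberField.Units ZetaZeroAux
open scoped nonZeroDivisors Classical

variable (F : Type) [Field F] [NumberField F]

theorem exists_coord : ∃ (B : Matrix (index F) (index F) ℝ) (v : 𝓞 F ≃+ (index F → ℤ)),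
    B.det ≠ 0 ∧ ∀ x i, lpt B (v x) i = (stdBasis F).repr (mixedEmbedding F x) i := by
  let e : Module.Free.ChooseBasisIndex ℤ (𝓞 F) ≃ index F := Fintype.equivOfCardEq (by
    rw [← Module.finrank_eq_card_basis (latticeBasis F), Module.finrank_eq_card_basis (stdBasis F)])
  let β := (RingOfIntegers.basis F).reindex e
  let γ := (latticeBasis F).reindex e
  have hv : ∀ x : 𝓞 F, mixedEmbedding F x = ∑ i, (β.equivFun x i : ℝ) • γ i := fun x => by
    conv_lhs => rw [← β.sum_equivFun x]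
    rw [RingOfIntegers.coe_eq_algebraMap, map_sum, map_sum]
    refine Finset.sum_congr rfl fun i _ => ?_
    rw [map_zsmul, map_zsmul, Int.cast_smul_eq_zsmul]
    simp [β, γ, latticeBasis_apply, integralBasis_apply]
  refine ⟨(stdBasis F).toMatrix γ, β.equivFun.toAddEquiv, ((stdBasis F).isUnit_det _).ne_zero,
    fun x i => ?_⟩
  rw [hv]
  simp [lpt, Matrix.mulVec, dotProduct, Module.Basis.toMatrix_apply, mul_comm]

variable {F}

omit [NumberField F] in
theorem sum_res {ι : Type} [Fintype ι] [DecidableEq ι] (v : 𝓞 F ≃+ (ι → ℤ)) {d : ℕ} (hd : d ≠ 0)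
    (w : 𝓞 F → ℂ) (hw : ∀ x y, w (x + d * y) = w x) :
    ∑ a : ι → Fin d, w (v.symm fun i => ((a i : ℕ) : ℤ)) = rs (Ideal.span {(d : 𝓞 F)}) w := by
  have hv : ∀ c, v (d * c) = fun i => d * v c i := fun c => by
    rw [← nsmul_eq_mul, map_nsmul]
    ext i
    simp
  have d0 : (0 : ℤ) < d := by omega
  rw [rs, ← finsum_eq_sum_of_fintype]
  refine finsum_eq_of_bijective (fun a : ι → Fin d => Ideal.Quotient.mk (Ideal.span {(d : 𝓞 F)})
    (v.symm fun i => ((a i : ℕ) : ℤ))) ⟨fun a a' h => ?_, fun x => ?_⟩ fun a => ?_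
  · obtain ⟨c, hc⟩ := Ideal.mem_span_singleton.1 (Ideal.Quotient.eq.1 h)
    have h1 := congrArg v hc
    rw [map_sub, hv, v.apply_symm_apply, v.apply_symm_apply] at h1
    funext i
    have h2 : ((a i : ℕ) : ℤ) - ((a' i : ℕ) : ℤ) = d * v c i := congrFun h1 i
    have h3 := (a i).2
    have h4 := (a' i).2
    have h5 : v c i = 0 := by
      by_contra h6
      rcases lt_or_gt_of_ne h6 with h7 | h7
      · nlinarith [mul_le_mul_of_nonneg_left (show v c i ≤ -1 by omega) d0.le]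
      · nlinarith [mul_le_mul_of_nonneg_left (show 1 ≤ v c i by omega) d0.le]
    rw [h5] at h2
    exact Fin.ext (by omega)
  · obtain ⟨x, rfl⟩ := Ideal.Quotient.mk_surjective x
    have h1 : ∀ i, 0 ≤ v x i % d := fun i => Int.emod_nonneg _ d0.ne'
    refine ⟨fun i => ⟨(v x i % d).toNat, by
      have := Int.emod_lt_of_pos (v x i) d0
      have := h1 i
      omega⟩, (Ideal.Quotient.eq.2 (Ideal.mem_span_singleton.2
        ⟨v.symm fun i => v x i / d, v.injective ?_⟩)).symm⟩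
    rw [map_sub, hv, v.apply_symm_apply, v.apply_symm_apply]
    funext i
    simp only [Pi.sub_apply, Int.toNat_of_nonneg (h1 i)]
    rw [Int.emod_def]
    ring
  · obtain ⟨c, hc⟩ := Ideal.mem_span_singleton.1 (Ideal.Quotient.eq.1 (Ideal.Quotient.mk_out
      (Ideal.Quotient.mk (Ideal.span {(d : 𝓞 F)}) (v.symm fun i => ((a i : ℕ) : ℤ)))))
    rw [sub_eq_iff_eq_add'.1 hc, hw]

theorem unfold (h2 : UnfWSt) (e : Option (Fin (rank F)) ≃ InfinitePlace F) (J : ℝ)
    (hJ : J = |(Matrix.of fun i j : Option (Fin (rank F)) =>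
      i.elim 1 fun i' => Real.log (e j (fundSystem F i'))).det|) (hJ0 : J ≠ 0)
    (B : Matrix (index F) (index F) ℝ) (v : 𝓞 F ≃+ (index F → ℤ))
    (hv : ∀ x i, lpt B (v x) i = (stdBasis F).repr (mixedEmbedding F x) i)
    (W : Ideal (𝓞 F) → ℂ) (w : 𝓞 F → ℂ) (hW : ∀ x, x ≠ 0 → W (Ideal.span {x}) = w x)
    (hW0 : ∀ I, ¬ I.IsPrincipal → W I = 0) (hw : ∀ x, ‖w x‖ ≤ 1) (s : ℂ) (hs : 1 < s.re) :
    ∫ τ : ℝ, fthw B (pl F) (fun j u => Real.log (u (fundSystem F j))) (fun k => w (v.symm k)) τ *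
        Complex.exp ((Fintype.card (index F) : ℂ) * s * τ)
      = (∏ u : InfinitePlace F, Gammaℝ (mult u * s) / 2) / J *
        ((∑' I : {I : Ideal (𝓞 F) // I ≠ ⊥}, W I.1 * (Ideal.absNorm I.1 : ℂ) ^ (-s)) *
          torsionOrder F) := by
  obtain ⟨g, f, hg, hf⟩ := exists_orbits (1 : (Ideal (𝓞 F))⁰)
  have hg' : ∀ I, I.1.1 = Ideal.span {g I} := fun I => by
    simpa using (hg I).2
  let v' : {x : 𝓞 F // x ∈ (1 : (Ideal (𝓞 F))⁰).1 ∧ x ≠ 0} ≃ {k : index F → ℤ // k ≠ 0} :=
    v.toEquiv.subtypeEquiv fun x => by simp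
  have hv' : ∀ x, (v' x).1 = v x.1 := fun _ => rfl
  have hx : ∀ I (u : InfinitePlace F), 0 < u (g I) := fun I u =>
    pos_iff.2 (RingOfIntegers.coe_ne_zero_iff.2 (hg I).1)
  have e0 : ∀ I, ∏ u : InfinitePlace F, u (g I) ^ mult u = Ideal.absNorm I.1.1 := fun I => by
    rw [prod_place (hg I).2]
    simp
  have hc : ∀ I, W I.1.1 = w (g I) := fun I => by rw [hg' I, hW _ (hg I).1]
  have s1 : Summable fun I : {I // cls I = (ClassGroup.mk0 (1 : (Ideal (𝓞 F))⁰))⁻¹} =>
      ‖(Ideal.absNorm I.1.1 : ℂ) ^ (-s)‖ := (summable_zI hs).subtype _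
  have s1' : Summable fun I : {I // cls I = (ClassGroup.mk0 (1 : (Ideal (𝓞 F))⁰))⁻¹} =>
      ‖W I.1.1 * (Ideal.absNorm I.1.1 : ℂ) ^ (-s)‖ :=
    s1.of_nonneg_of_le (fun _ => norm_nonneg _) fun I => by
      rw [norm_mul, hc]
      exact mul_le_of_le_one_left (norm_nonneg _) (hw _)
  have s2 : Summable fun _ : torsion F => ‖(1 : ℂ)‖ := .of_finite
  rw [h2 B (pl F) mult _ e J (fun a u => u (g a.1)) (f.trans v') _ (fun a => W a.1.1.1) s
    (fun _ => mult_pos) (by rw [sum_mult_eq, card_index]) (fun j => sum_mult_mul_log _) hJ hJ0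
    (fun a => hx a.1) (fun a k c => ?_) (fun a => by rw [hc]; exact hw _) (fun a k => ?_)
    (by linarith) ((s1.mul_norm s2).congr fun a => ?_)]
  · congr 1
    rw [← tsum_subtype_eq_of_support_subset
      (s := {I | cls I = (ClassGroup.mk0 (1 : (Ideal (𝓞 F))⁰))⁻¹})]
    · have h := tsum_mul_tsum_of_summable_norm s1' s2
      rw [tsum_const, nsmul_eq_mul, mul_one] at h
      refine Eq.trans (tsum_congr fun a => ?_) h.symm
      rw [e0, mul_one, ofReal_natCast]
    · intro I hI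
      by_contra h
      refine hI (mul_eq_zero_of_left (hW0 _ fun hp => h ?_) _)
      obtain ⟨x, hx⟩ := hp
      refine cls_iff.2 ⟨x, fun h0 => I.2 ?_, by simpa using hx⟩
      rw [hx, h0]
      simp
  · simp only [Equiv.trans_apply, hv', hv, sum_pl_sq, hf, place_unit]
  · rw [Equiv.trans_apply, hv', v.symm_apply_apply, hf, hg' a.1,
      ← hW _ (mul_ne_zero (Units.ne_zero _) (hg _).1),
      Ideal.span_singleton_mul_left_unit (Units.isUnit _)]
  · rw [mul_one, ← ofReal_natCast, ← e0,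
      norm_cpow_eq_rpow_re_of_pos (Finset.prod_pos fun u _ => pow_pos (hx _ u) _), neg_re]

end PrinAux

open PrinAux ZetaZeroAux Complex NumberField.InfinitePlace NumberField.mixedEmbedding in
open scoped Classical in
theorem prin (h1 : ThWSt) (h2 : UnfWSt) : PrinA := by
  intro F _ _
  obtain ⟨e, he⟩ := exists_J F
  have hn : (Module.finrank ℚ F : ℝ) ≠ 0 := Nat.cast_ne_zero.2 Module.finrank_pos.ne'
  have ht : (Units.torsionOrder F : ℂ) ≠ 0 := Nat.cast_ne_zero.2 (Units.torsionOrder_ne_zero F)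
  obtain ⟨B, v, hB, hv⟩ := exists_coord F
  have hu := fun h => unfold h2 e _ rfl h B v hv
  generalize |(_ : ℝ)| = J at he hu
  have hJ : J ≠ 0 := fun h => by
    rw [h, zero_mul] at he
    exact mul_ne_zero hn (Units.regulator_ne_zero F) he.symm
  have hJ' : (J : ℂ) ≠ 0 := ofReal_ne_zero.2 hJ
  have : Nonempty (index F) := Fintype.card_pos_iff.1 (by
    rw [card_index]; exact Module.finrank_pos)
  let lam : ℝ → ℂ := fun s => J / Units.torsionOrder F *
    ∏ u : InfinitePlace F, 2 * (Gammaℝ (mult u * s))⁻¹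
  have hlam : Continuous lam := continuous_const.mul (continuous_finsetProd _ fun u _ =>
    continuous_const.mul (differentiable_Gammaℝ_inv.continuous.comp (by fun_prop)))
  obtain ⟨B0, hB0⟩ := (isCompact_Icc (a := (1 : ℝ)) (b := 2)).exists_bound_of_continuousOn
    hlam.continuousOn
  refine ⟨fun s => lam s / ((|B.det| : ℝ) * Fintype.card (index F)),
    B0 / ‖((|B.det| : ℝ) * Fintype.card (index F) : ℂ)‖, fun s a b => ?_,
    fun d W w hd hW hW0 hw hp => ?_⟩
  · rw [norm_div]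
    exact div_le_div_of_nonneg_right (hB0 s ⟨a.le, b⟩) (norm_nonneg _)
  obtain ⟨C, hC⟩ := h1 B (pl F) (fun j u => Real.log (u (Units.fundSystem F j)))
    (fun k => w (v.symm k)) d hB
    (fun j => (sum_pl F fun u => Real.log (u (Units.fundSystem F j))).trans
      (Units.sum_mult_mul_log _)) hd (fun _ => hw _) fun k j => by
      rw [map_add, map_nsmul, nsmul_eq_mul, hp]
  refine ⟨B0 * C, fun s a b => ?_⟩
  have h3 := hC s a b
  rw [hu hJ W w hW hW0 hw s (by simpa using a), sum_res v hd w hp] at h3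
  refine le_trans (le_of_eq ?_) (mul_le_mul (hB0 s ⟨a.le, b⟩) h3 (norm_nonneg _)
    ((norm_nonneg _).trans (hB0 s ⟨a.le, b⟩)))
  rw [← norm_mul, card_index]
  congr 1
  have e1 : (∏ u : InfinitePlace F, 2 * (Gammaℝ (mult u * s))⁻¹) *
      ∏ u : InfinitePlace F, Gammaℝ (mult u * s) / 2 = 1 := by
    rw [← Finset.prod_mul_distrib]
    refine Finset.prod_eq_one fun u _ => ?_
    have g0 : Gammaℝ (mult u * s) ≠ 0 := Gammaℝ_ne_zero_of_re_pos (by
      have : (0 : ℝ) < mult u := Nat.cast_pos.2 mult_pos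
      simp only [mul_re, natCast_re, natCast_im, zero_mul, sub_zero, ofReal_re]
      positivity)
    field_simp
  simp only [lam]
  generalize ∑' I : {I : Ideal (𝓞 F) // I ≠ ⊥}, W I.1 * (Ideal.absNorm I.1 : ℂ) ^ (-(s : ℂ)) = Z
  generalize ∏ u : InfinitePlace F, Gammaℝ (mult u * s) / 2 = G at e1 ⊢
  generalize ∏ u : InfinitePlace F, 2 * (Gammaℝ (mult u * s))⁻¹ = P at e1 ⊢
  have e2 : J / Units.torsionOrder F * P * (G / J * (Z * Units.torsionOrder F)) = Z := by
    field_simp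
    linear_combination Z * e1
  generalize (s : ℂ) - 1 = t
  rw [mul_sub, e2]
  ring

end Pool.Agent.Stark.AR
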