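import Pool.Agent.Lib.MP_ca56d1_nt.AR.St
import Pool.Agent.Lib.MP_ca56d1_nt.Split

/-! Prime sums and the density of the completely split primes. -/

namespace Pool.Agent.Stark.AR

open NumberField IsDedekindDomain StarkStmt Filter Topology
open scoped IsMulCommutative Classical

namespace PsAux

open Pool.Agent.Shared.PrimeZeta

section One

variable {F : Type} [Field F] [NumberField F]

omit [NumberField F] in
theorem inj : Function.Injective fun q : Pr F => q.asIdeal := fun _ _ h => HeightOneSpectrum.ext h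

theorem summ (P : Set (Pr F)) {s : ℝ} (hs : 1 < s) :
    Summable fun q : Pr F => if q ∈ P then (Ideal.absNorm q.asIdeal : ℝ) ^ (-s) else 0 := by
  refine Summable.of_nonneg_of_le (fun q => by positivity) (fun q => ?_)
    ((EulerAux.summable_real (F := F) hs).comp_injective inj)
  split_ifs
  · exact le_rfl
  · simp only [Function.comp_apply]
    positivity

/-- The terms of a prime sum. -/
noncomputable def tm (P : Set (Pr F)) (s : ℝ) (q : Pr F) : ℝ :=
  if q ∈ P then (Ideal.absNorm q.asIdeal : ℝ) ^ (-s) else 0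

theorem ps_eq (P : Set (Pr F)) (s : ℝ) : ps P s = ∑' q, tm P s q := rfl

theorem tm_pos {P : Set (Pr F)} {q : Pr F} (s : ℝ) (h : q ∈ P) :
    tm P s q = (Ideal.absNorm q.asIdeal : ℝ) ^ (-s) := if_pos h

theorem tm_neg {P : Set (Pr F)} {q : Pr F} (s : ℝ) (h : q ∉ P) : tm P s q = 0 := if_neg h

theorem summ' (P : Set (Pr F)) {s : ℝ} (hs : 1 < s) : Summable (tm P s) := summ P hs

theorem mono {P P' : Set (Pr F)} {s : ℝ} (hs : 1 < s) (h : P ⊆ P') : ps P s ≤ ps P' s := by
  refine (summ P hs).tsum_le_tsum (fun q => ?_) (summ P' hs)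
  by_cases hq : q ∈ P
  · rw [if_pos hq, if_pos (h hq)]
  · rw [if_neg hq]
    positivity

theorem union {P A B : Set (Pr F)} {s : ℝ} (hs : 1 < s) (h : ∀ q ∈ P, q ∈ A ∨ q ∈ B) :
    ps P s ≤ ps A s + ps B s := by
  rw [ps, ps, ps, ← (summ A hs).tsum_add (summ B hs)]
  refine (summ P hs).tsum_le_tsum (fun q => ?_) ((summ A hs).add (summ B hs))
  by_cases hq : q ∈ P
  · rw [if_pos hq]
    rcases h q hq with h1 | h1
    · rw [if_pos h1]
      exact le_add_of_nonneg_right (by positivity)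
    · rw [if_pos h1]
      exact le_add_of_nonneg_left (by positivity)
  · rw [if_neg hq]
    positivity

theorem fin_le (S : Finset (Pr F)) {s : ℝ} (hs : 1 < s) : ps (S : Set (Pr F)) s ≤ S.card := by
  rw [ps_eq, tsum_eq_sum (s := S) fun q hq => tm_neg s hq, Finset.card_eq_sum_ones, Nat.cast_sum]
  refine Finset.sum_le_sum fun q hq => ?_
  rw [tm_pos s (Finset.mem_coe.2 hq), Nat.cast_one]
  exact (rpow_le_half q.asIdeal q.isMaximal hs.le).trans (by norm_num)

theorem fin (S : Finset (Pr F)) (P : Set (Pr F)) {s : ℝ} (hs : 1 < s) :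
    ps P s ≤ ps {q | q ∉ S ∧ q ∈ P} s + S.card := by
  refine (union (A := {q | q ∉ S ∧ q ∈ P}) (B := S) hs fun q hq => ?_).trans
    (add_le_add le_rfl (fin_le S hs))
  by_cases h : q ∈ S
  · exact Or.inr h
  · exact Or.inl ⟨h, hq⟩

theorem nonprime {s : ℝ} (hs : 1 < s) :
    ps {q : Pr F | ¬ (Ideal.absNorm q.asIdeal).Prime} s ≤ 2 * (Module.finrank ℤ (𝓞 F) : ℝ) := by
  refine (summ _ hs).tsum_le_of_sum_le fun U => ?_
  refine le_trans ?_ (sum_pr_le (U.image fun q => q.asIdeal) fun P hP => ?_)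
  · rw [Finset.sum_image inj.injOn]
    refine Finset.sum_le_sum fun q _ => ?_
    split_ifs with h
    · obtain ⟨q1, -, n, hn, hq⟩ := pr_spec q.asIdeal q.isMaximal
      have p1 : (1 : ℝ) ≤ Ideal.absNorm q.asIdeal := by
        exact_mod_cast (two_le_absNorm _ q.isMaximal).trans' one_le_two
      have a1 : (Ideal.absNorm q.asIdeal : ℝ) ^ (-s) ≤ 1 / Ideal.absNorm q.asIdeal := by
        rw [one_div, ← Real.rpow_neg_one]
        exact Real.rpow_le_rpow_of_exponent_le p1 (by linarith)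
      have q0 : (0 : ℝ) < (Ideal.absNorm q.asIdeal).minFac := by exact_mod_cast q1.pos
      refine a1.trans ?_
      have h1 : n ≠ 1 := by
        rintro rfl
        rw [pow_one] at hq
        exact h (hq ▸ q1)
      have h2 : (Ideal.absNorm q.asIdeal).minFac ^ 2 ≤ Ideal.absNorm q.asIdeal := by
        conv_rhs => rw [hq]
        exact Nat.pow_le_pow_right q1.pos (by omega)
      gcongr
      exact_mod_cast h2
    · positivity
  · obtain ⟨q, -, rfl⟩ := Finset.mem_image.1 hP
    exact q.isMaximal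

theorem prime_le {s : ℝ} (hs : 1 < s) :
    ps {q : Pr F | (Ideal.absNorm q.asIdeal).Prime} s ≤ psum (fun n => nI F n) s := by
  refine (summ' _ hs).tsum_le_of_sum_le fun U => ?_
  have := sum_le_tsum_idl (U.image fun q => q.asIdeal)
    (fun n => if n.Prime then (n : ℝ) ^ (-s) else 0) (fun n => by positivity)
    (by simpa using summable_psum (abs_nI_le (L := F)) hs)
  rw [Finset.sum_image inj.injOn] at this
  refine le_trans (le_of_eq (Finset.sum_congr rfl fun q _ => ?_)) (this.trans (by simp [psum]))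
  split_ifs with h
  · exact tm_pos s h
  · exact tm_neg s h

theorem le_univ {s : ℝ} (hs : 1 < s) :
    psum (fun n => nI F n) s ≤ ps (Set.univ : Set (Pr F)) s := by
  refine (summable_psum abs_nI_le hs).tsum_le_of_sum_le fun S => ?_
  rw [← Finset.sum_filter, ← sum_biUnion_idl (S.filter Nat.Prime) fun n => (n : ℝ) ^ (-s),
    ← Finset.sum_preimage (fun q : Pr F => q.asIdeal) _ inj.injOn]
  · refine le_trans (le_of_eq (Finset.sum_congr rfl fun q _ => (tm_pos s (Set.mem_univ q)).symm))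
      ((summ' Set.univ hs).sum_le_tsum _ fun q _ => ?_)
    rw [tm_pos s (Set.mem_univ q)]
    positivity
  · intro I hI hr
    refine absurd ?_ hr
    obtain ⟨p, hp, h⟩ := Finset.mem_biUnion.1 hI
    have h1 : (Ideal.absNorm I).Prime := by
      rw [mem_idl.1 h]
      exact (Finset.mem_filter.1 hp).2
    refine ⟨⟨I, Ideal.isPrime_of_irreducible_absNorm h1, ?_⟩, rfl⟩
    rintro rfl
    exact h1.ne_zero Ideal.absNorm_bot

theorem squeeze {f g : ℝ → ℝ} {C a : ℝ}
    (hf : Tendsto (fun s : ℝ => f s / Real.log (1 / (s - 1))) (𝓝[>] 1) (𝓝 a))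
    (h : ∀ s, 1 < s → |g s - f s| ≤ C) :
    Tendsto (fun s : ℝ => g s / Real.log (1 / (s - 1))) (𝓝[>] 1) (𝓝 a) := by
  have lim : ∀ c : ℝ, Tendsto (fun s : ℝ => (f s + c) / Real.log (1 / (s - 1))) (𝓝[>] 1) (𝓝 a) := by
    intro c
    have := hf.add (tendsto_log.const_div_atTop c)
    rw [add_zero] at this
    exact this.congr fun s => (add_div _ _ _).symm
  refine tendsto_of_tendsto_of_tendsto_of_le_of_le' (lim (-C)) (lim C) ?_ ?_
  all_goals
    filter_upwards [self_mem_nhdsWithin, tendsto_log.eventually_gt_atTop 0] with s hs hl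
    have := abs_le.1 (h s hs)
    gcongr
    linarith [this.1, this.2]

theorem lim : Tendsto (fun s : ℝ => ps (Set.univ : Set (Pr F)) s / Real.log (1 / (s - 1)))
    (𝓝[>] 1) (𝓝 1) := by
  refine squeeze (C := 2 * (Module.finrank ℤ (𝓞 F) : ℝ)) (tendsto_psum_nI F) fun s hs => ?_
  have h1 := le_univ (F := F) hs
  have h2 := prime_le (F := F) hs
  have h3 := nonprime (F := F) hs
  have h4 := union (P := (Set.univ : Set (Pr F))) (A := {q | (Ideal.absNorm q.asIdeal).Prime})
    (B := {q | ¬ (Ideal.absNorm q.asIdeal).Prime}) hs fun q _ => em _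
  rw [abs_of_nonneg (by linarith)]
  linarith

end One

section Two

variable {K L : Type} [Field K] [NumberField K] [Field L] [NumberField L] [Algebra K L]

theorem fibre (hG : GalSt K L) (hF : FrSt K L) (hab : IsAbelianGalois K L) {S : Finset (Pr K)}
    (hS : UnrO L S) {s : ℝ} (hs : 1 < s) :
    ps {Q : Pr L | below K Q ∉ S ∧ fI K Q = 1} s =
      Nat.card (L ≃ₐ[K] L) * ps {q | q ∉ S ∧ fr K L q = 1} s := by
  have h1 := ((summ' {Q : Pr L | below K Q ∉ S ∧ fI K Q = 1} hs).hasSum.tsum_fiberwise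
    (below K)).tsum_eq
  rw [ps_eq, ← h1, ps_eq, ← tsum_mul_left]
  refine tsum_congr fun q => ?_
  have key : ∀ Q : Pr L, below K Q = q → q ∉ S → (fI K Q = 1 ↔ fr K L q = 1) := by
    rintro Q rfl h
    rw [← hF.ord hab Q (hS Q h), orderOf_eq_one_iff]
  by_cases hq : q ∈ {q | q ∉ S ∧ fr K L q = 1}
  · have h2 : ∀ Q : (below K : Pr L → Pr K) ⁻¹' {q},
        tm {Q : Pr L | below K Q ∉ S ∧ fI K Q = 1} s Q.1 =
          (Ideal.absNorm q.asIdeal : ℝ) ^ (-s) := by
      intro Q
      have h3 : below K Q.1 = q := Q.2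
      have h4 := (key Q.1 h3 hq.1).2 hq.2
      have h7 : Q.1 ∈ {Q : Pr L | below K Q ∉ S ∧ fI K Q = 1} := ⟨fun h => hq.1 (h3 ▸ h), h4⟩
      rw [tm_pos s h7, hG.norm_eq, h4, pow_one, h3]
    rw [tsum_congr h2, tsum_const, tm_pos s hq, nsmul_eq_mul]
    congr 2
    obtain ⟨Q, rfl⟩ := below_surj (K := L) q
    have h5 : (below K : Pr L → Pr K) ⁻¹' {below K Q} = MulAction.orbit (L ≃ₐ[K] L) Q := by
      ext Q'
      exact ⟨fun h => hG.trans inferInstance Q Q' (Eq.symm h), fun ⟨g, hg⟩ => by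
        rw [← hg]
        exact hG.below_smul g Q⟩
    have h6 := hG.card_stab inferInstance Q
    rw [hS Q hq.1, (key Q rfl hq.1).2 hq.2] at h6
    rw [h5, Nat.card_coe_set_eq, ← MulAction.index_stabilizer,
      ← (MulAction.stabilizer (L ≃ₐ[K] L) Q).card_mul_index, h6, one_mul, one_mul]
  · rw [tm_neg s hq, mul_zero]
    refine (tsum_congr fun Q => ?_).trans tsum_zero
    have h3 : below K Q.1 = q := Q.2
    refine tm_neg s fun h => ?_
    have h4 : q ∉ S := fun h' => h.1 (h3.symm ▸ h')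
    exact hq ⟨h4, (key Q.1 h3 h4).1 h.2⟩

end Two

end PsAux

theorem psS : PsA := fun _ _ _ =>
  ⟨fun P _ hs => PsAux.summ P hs, fun _ _ _ hs h => PsAux.mono hs h,
    fun S P _ hs => PsAux.fin S P hs, PsAux.lim⟩

theorem spl1 (hG : GalA) (hF : FrA) (h : PsA) : Spl1A := by
  intro K L _ _ _ _ _ hab S hS
  obtain ⟨SL, hSL⟩ := exists_above (K := L) S
  have h1 := PsAux.squeeze (g := ps {Q : Pr L | below K Q ∉ S ∧ fI K Q = 1})
    (C := 2 * (Module.finrank ℤ (𝓞 L) : ℝ) + SL.card) (h L).lim fun s hs => by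
      have a1 := (h L).mono {Q : Pr L | below K Q ∉ S ∧ fI K Q = 1} Set.univ s hs (Set.subset_univ _)
      have a2 := (h L).fin SL Set.univ s hs
      have a3 := PsAux.union (P := {Q : Pr L | Q ∉ SL ∧ Q ∈ Set.univ})
        (A := {Q : Pr L | below K Q ∉ S ∧ fI K Q = 1})
        (B := {Q | ¬ (Ideal.absNorm Q.asIdeal).Prime}) hs fun Q hQ => by
          by_cases hf : fI K Q = 1
          · exact Or.inl ⟨fun h' => hQ.1 ((hSL Q).2 h'), hf⟩
          · refine Or.inr fun hp => hf ?_
            rw [(hG K L).norm_eq] at hp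
            exact hp.eq_one_of_pow
      have a4 := PsAux.nonprime (F := L) hs
      rw [abs_of_nonpos (by linarith)]
      linarith
  have h0 : (Nat.card (L ≃ₐ[K] L) : ℝ) ≠ 0 := by exact_mod_cast Nat.card_pos.ne'
  refine (h1.div_const (Nat.card (L ≃ₐ[K] L) : ℝ)).congr' ?_
  filter_upwards [self_mem_nhdsWithin] with s hs
  rw [PsAux.fibre (hG K L) (hF K L) hab hS hs]
  field_simp

end Pool.Agent.Stark.AR
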