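import Pool.Agent.Lib.MP_ca56d1_nt.AR.St

/-! Finiteness of ray class groups and approximation with signs. -/

namespace Pool.Agent.Stark.AR

open NumberField IsDedekindDomain StarkStmt Filter Topology
open scoped Classical

namespace RayTAux

variable {F : Type} [Field F] [NumberField F]

theorem exists_int (S : Finset (Pr F)) (j : ℕ) (x : F) :
    ∃ a : 𝓞 F, (∀ q ∈ S, og q x = 0) → ∀ q ∈ S, (a : F) - x ∈ pw (q.valuation F) j := by
  by_cases hx : ∀ q ∈ S, og q x = 0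
  · obtain ⟨y, h1, h2⟩ := approx_strong S (fun q => emb q x) j
    have h3 : ∀ q ∈ S, y - x ∈ pw (q.valuation F) j := fun q hq => by
      have := h1 q hq
      rwa [← map_sub, ComplAux.emb_mem_pw] at this
    obtain ⟨a, ha⟩ := exists_int_of_og (x := y) fun q => by
      by_cases hq : q ∈ S
      · have h4 : x ∈ pw (q.valuation F) 0 := ComplAux.mem_pw_zero.2 (hx q hq).ge
        have h5 := add_mem (ComplAux.pw_mono (Int.natCast_nonneg j) (h3 q hq)) h4
        rw [sub_add_cancel] at h5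
        exact ComplAux.mem_pw_zero.1 h5
      · exact h2 q hq
    exact ⟨a, fun _ q hq => by rw [ha]; exact h3 q hq⟩
  · exact ⟨0, fun h => absurd h hx⟩

theorem exists_col (S : Finset (Pr F)) (N : ℕ) :
    ∃ (C : Type) (_ : Finite C) (col : F → C), ∀ x y : F, x ≠ 0 → y ≠ 0 →
      (∀ q ∈ S, og q x = 0) → (∀ q ∈ S, og q y = 0) → col x = col y →
      Ray S N (x / y) ∧ Pos (x / y) := by
  choose a ha using exists_int S (N + 1)
  have hf : ∀ q : S, Finite (𝓞 F ⧸ q.1.asIdeal ^ (N + 1)) := fun q =>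
    Ideal.finiteQuotientOfFreeOfNeBot _ (pow_ne_zero _ q.1.ne_bot)
  refine ⟨(∀ q : S, 𝓞 F ⧸ q.1.asIdeal ^ (N + 1)) × ((F →+* ℝ) → Prop), inferInstance,
    fun x => (fun q => Ideal.Quotient.mk _ (a x), fun φ => 0 < φ x), fun x y hx hy h1 h2 h => ?_⟩
  obtain ⟨h3, h4⟩ := Prod.mk.inj h
  refine ⟨⟨div_ne_zero hx hy, fun q hq => ?_⟩, fun φ => ?_⟩
  · have h5 := (ComplAux.int_mem_pw q _ _).2 (Ideal.Quotient.eq.1 (congrFun h3 ⟨q, hq⟩))
    have h6 : ((a x - a y : 𝓞 F) : F) = a x - a y := map_sub (algebraMap (𝓞 F) F) _ _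
    rw [h6] at h5
    have h7 := add_mem (sub_mem h5 (ha x h1 q hq)) (ha y h2 q hq)
    have h8 : (a x : F) - a y - (a x - x) + (a y - y) = x - y := by ring
    rw [h8] at h7
    have h9 : x / y - 1 = (x - y) / y := by field_simp
    rw [h9]
    refine ComplAux.pw_div hy ?_
    have h10 := h2 q hq
    rw [og] at h10
    rw [h10, zero_add]
    exact_mod_cast h7
  · have h5 : 0 < φ x ↔ 0 < φ y := Eq.to_iff (congrFun h4 φ)
    have h6 : φ x ≠ 0 := (map_ne_zero φ).2 hx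
    have h7 : φ y ≠ 0 := (map_ne_zero φ).2 hy
    rw [map_div₀]
    by_cases h8 : 0 < φ y
    · exact div_pos (h5.2 h8) h8
    · exact div_pos_of_neg_of_neg (lt_of_le_of_ne (not_lt.1 fun h => h8 (h5.1 h)) h6)
        (lt_of_le_of_ne (not_lt.1 h8) h7)

theorem pow_ray (S : Finset (Pr F)) (N : ℕ) (x : F) (hx : x ≠ 0) (h : ∀ q ∈ S, og q x = 0) :
    ∃ k : ℕ, k ≠ 0 ∧ Ray S N (x ^ k) := by
  obtain ⟨C, _, col, hc⟩ := exists_col S N
  have hp : ∀ (i : ℕ), ∀ q ∈ S, og q (x ^ i) = 0 := fun i q hq => by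
    have := h q hq
    rw [og] at this
    rw [og, ord_pow, this, mul_zero]
  have key : ∀ i j : ℕ, i < j → col (x ^ j) = col (x ^ i) → ∃ k : ℕ, k ≠ 0 ∧ Ray S N (x ^ k) :=
    fun i j hij he => ⟨j - i, by omega, by
      rw [pow_sub₀ x hx hij.le, ← div_eq_mul_inv]
      exact (hc _ _ (pow_ne_zero _ hx) (pow_ne_zero _ hx) (hp j) (hp i) he).1⟩
  obtain ⟨i, j, hij, he⟩ := Finite.exists_ne_map_eq_of_infinite fun i : ℕ => col (x ^ i)
  rcases lt_or_gt_of_ne hij with h1 | h1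
  · exact key i j h1 he.symm
  · exact key j i h1 he

theorem triv (S : Finset (Pr F)) (N : ℕ) :
    ∃ T : Finset (Pr F), Disjoint T S ∧ RayTriv S N T := by
  obtain ⟨C, _, col, hc⟩ := exists_col S N
  have : Finite (Dv F ⧸ prin F) := Nat.finite_of_card_ne_zero (by
    change (prin F).index ≠ 0
    rw [index_prin]
    exact (classNumber_pos F).ne')
  let r : Dv F → Dv F := fun D => D.filter fun q => q ∉ S
  let c : Dv F → Dv F ⧸ prin F := fun D => (r D : Dv F ⧸ prin F)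
  have h1 : ∀ D, ∃ x : F, x ≠ 0 ∧ dv x = -r (Function.invFun c (c D)) + r D := fun D =>
    mem_prin.1 (QuotientAddGroup.eq.1 (Function.invFun_eq (f := c) ⟨D, rfl⟩))
  choose x hx0 hx using h1
  have hS : ∀ D, ∀ q ∈ S, og q (x D) = 0 := fun D q hq => by
    rw [← dv_apply, hx]
    simp [r, hq]
  let κ : Dv F → (Dv F ⧸ prin F) × C := fun D => (c D, col (x D))
  have := Fintype.ofFinite ((Dv F ⧸ prin F) × C)
  refine ⟨Finset.univ.biUnion fun k => (r (Function.invFun κ k)).support, ?_, fun D => ?_⟩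
  · rw [Finset.disjoint_left]
    intro q hq hqS
    obtain ⟨k, -, hk⟩ := Finset.mem_biUnion.1 hq
    exact Finsupp.mem_support_iff.1 hk (by simp [r, hqS])
  · have h2 : κ (Function.invFun κ (κ D)) = κ D := Function.invFun_eq ⟨D, rfl⟩
    set D' := Function.invFun κ (κ D) with hD'
    obtain ⟨h3, h4⟩ := Prod.mk.inj h2
    obtain ⟨h5, h6⟩ := hc _ _ (hx0 D) (hx0 D') (hS D) (hS D') h4.symm
    refine ⟨_, h5, h6, fun q hq hT => ?_⟩
    have h7 : r D' q = 0 := by_contra fun h0 => hT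
      (Finset.mem_biUnion.2 ⟨κ D, Finset.mem_univ _, Finsupp.mem_support_iff.2 h0⟩)
    have h8 := congrArg (· q) (hx D)
    have h9 := congrArg (· q) (hx D')
    have h10 : r D q = D q := by simp [r, hq]
    simp only [dv_apply, Finsupp.add_apply, Finsupp.neg_apply, og] at h8 h9
    rw [h3] at h9
    rw [og, ord_div (hx0 D) (hx0 D'), h8, h9, h7, h10]
    ring

theorem exists_sign (ε : (F →+* ℝ) → Prop) :
    ∃ z : F, ∀ φ : F →+* ℝ, (ε φ → 0 < φ z) ∧ (¬ ε φ → φ z < 0) := by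
  obtain ⟨z, hz⟩ := (InfinitePlace.denseRange_algebraMap_pi F).exists_dist_lt
    (fun v => if ∃ φ, plc φ = v ∧ ε φ then 1 else -1) one_pos
  refine ⟨z, fun φ => ?_⟩
  have h1 := (dist_le_pi_dist _ _ (plc φ)).trans_lt hz
  rw [dist_eq_norm] at h1
  have h2 : ∀ t : F, ‖(WithAbs.toAbs (plc φ).1 t : WithAbs (plc φ).1) -
      algebraMap F ((v : InfinitePlace F) → WithAbs v.1) z (plc φ)‖ = |φ t - φ z| := fun t => by
    rw [← map_sub, ← plc_apply]
    rfl
  constructor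
  · intro h
    rw [if_pos ⟨φ, rfl, h⟩] at h1
    have h3 := (h2 1).symm.trans_lt h1
    rw [map_one, abs_lt] at h3
    linarith [h3.2]
  · intro h
    rw [if_neg (by
      rintro ⟨ψ, h1, h2⟩
      exact h (plc_injective h1 ▸ h2))] at h1
    have h3 := (h2 (-1)).symm.trans_lt h1
    rw [map_neg, map_one, abs_lt] at h3
    linarith [h3.1]

theorem exists_mul (q : Pr F) (j : ℤ) (z : F) :
    ∃ n : ℕ, n ≠ 0 ∧ ∀ m : ℕ, n ∣ m → (m : F) * z ∈ pw (q.valuation F) j := by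
  have hn : ∀ m : ℕ, ((m : 𝓞 F) : F) = m := fun m => map_natCast (algebraMap (𝓞 F) F) m
  refine ⟨Ideal.absNorm q.asIdeal ^ (j - og q z).toNat,
    pow_ne_zero _ (Ideal.absNorm_eq_zero_iff.not.2 q.ne_bot), ?_⟩
  rintro _ ⟨m, rfl⟩
  have h1 : ((Ideal.absNorm q.asIdeal ^ (j - og q z).toNat * m : ℕ) : 𝓞 F) ∈
      q.asIdeal ^ (j - og q z).toNat := by
    rw [Nat.cast_mul, Nat.cast_pow]
    exact Ideal.mul_mem_right _ _ (Ideal.pow_mem_pow (Ideal.absNorm_mem _) _)
  have h2 := (ComplAux.int_mem_pw q _ _).2 h1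
  rw [hn] at h2
  have h3 : z ∈ pw (q.valuation F) (og q z) := mem_pw_iff.2 (Or.inr le_rfl)
  exact ComplAux.pw_mono (by omega) (pw_mul h2 h3)

theorem sgn (S : Finset (Pr F)) (N : ℕ) (ε : (F →+* ℝ) → Prop) :
    ∃ a : F, Ray S N a ∧ ∀ φ : F →+* ℝ, 0 < φ a ↔ ε φ := by
  obtain ⟨z, hz⟩ := exists_sign ε
  choose n hn0 hn using fun q : Pr F => exists_mul q ((N : ℤ) + 1) z
  have hd : ∏ q ∈ S, n q ≠ 0 := Finset.prod_ne_zero_iff.2 fun q _ => hn0 q
  set d := ∏ q ∈ S, n q with hdd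
  have h1 : ∀ᶠ M : ℕ in atTop, ∀ φ : F →+* ℝ, φ z < 0 → 1 + (M : ℝ) * φ z < 0 :=
    eventually_all.2 fun φ => by
      by_cases h : φ z < 0
      · filter_upwards [(tendsto_natCast_atTop_atTop (R := ℝ)).eventually_gt_atTop (1 / -φ z)]
          with M hM _
        rw [div_lt_iff₀ (by linarith)] at hM
        linarith
      · exact Eventually.of_forall fun M h' => absurd h' h
  obtain ⟨M0, hM0⟩ := eventually_atTop.1 h1
  have h2 : ∃ M, M0 ≤ M ∧ 1 + ((d * M : ℕ) : F) * z ≠ 0 := by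
    by_contra h
    push Not at h
    have h3 := h M0 le_rfl
    have h4 := h (M0 + 1) (by omega)
    push_cast at h3 h4
    have : (1 : F) = 0 := by
      linear_combination (M0 + 1 : F) * h3 - (M0 : F) * h4
    exact one_ne_zero this
  obtain ⟨M, hM, h3⟩ := h2
  refine ⟨1 + ((d * M : ℕ) : F) * z, ⟨h3, fun q hq => ?_⟩, fun φ => ?_⟩
  · rw [add_sub_cancel_left]
    exact hn q _ ((Finset.dvd_prod_of_mem n hq).mul_right M)
  · rw [map_add, map_one, map_mul, map_natCast]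
    constructor
    · intro h
      by_contra h'
      have h4 := hM0 (d * M) (hM.trans (Nat.le_mul_of_pos_left M (Nat.pos_of_ne_zero hd))) φ
        ((hz φ).2 h')
      linarith
    · intro h
      have h4 := (hz φ).1 h
      positivity

end RayTAux

theorem rayT : RayTA := fun _ _ _ =>
  ⟨RayTAux.triv, RayTAux.sgn, RayTAux.pow_ray⟩

end Pool.Agent.Stark.AR
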