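import Pool.Agent.Lib.MP_ca56d1_nt.AR.St

/-! The Artin reciprocity law from the cyclic case. -/

set_option linter.unusedSectionVars false

namespace Pool.Agent.Stark.AR

open NumberField IsDedekindDomain StarkStmt UniqueFactorizationMonoid
open scoped IsMulCommutative Classical

namespace RecAux

variable {K L : Type} [Field K] [NumberField K] [Field L] [NumberField L] [Algebra K L]

theorem one (hT : TowA) (h1 : GrpSt) (h2 : CaseA) [IsAbelianGalois K L] (S : Finset (Pr K))
    (hS : UnrO L S) (g : L ≃ₐ[K] L) :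
    ∃ N, ∀ a : K, Ray S N a → PosR L a → ev (fr K L) (dv a) = g → g = 1 := by
  by_cases hg : g = 1
  · exact ⟨0, fun _ _ _ _ => hg⟩
  obtain ⟨H, p, hp, hgH, hc, hpg⟩ := h1.sep g hg
  have hT' := hT K L (IntermediateField.fixedField H)
  have e := IsGalois.normalAutEquivQuotient H
  obtain ⟨N, hN⟩ := h2 K (IntermediateField.fixedField H) p S hp
    (isCyclic_of_surjective e e.surjective) (hpg.of_equiv e) (hT'.bot S hS)
  refine ⟨N, fun a ha hp hev => absurd ?_ hgH⟩
  have h3 := hN a ha fun φ hφ => hp φ (hT'.ramR φ hφ)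
  have h4 : AlgEquiv.restrictNormalHom (IntermediateField.fixedField H) (ev (fr K L) (dv a)) = 1 := by
    rw [← h3]
    refine (map_ev (Γ' := IntermediateField.fixedField H ≃ₐ[K] IntermediateField.fixedField H)
      (AlgEquiv.restrictNormalHom (IntermediateField.fixedField H)) (fr K L)
      (dv a)).trans (ev_congr fun q hq => ?_)
    have hq' : q ∉ S := fun h => hq (ha.og_eq h)
    ext x
    have h5 := hT'.res inferInstance S hS q hq' x
    have h6 := AlgEquiv.restrictNormal_commutes (fr K L q) (IntermediateField.fixedField H) x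
    exact h6.trans h5
  rw [hev, ← MonoidHom.mem_ker, IntermediateField.restrictNormalHom_ker,
    IntermediateField.fixingSubgroup_fixedField] at h4
  exact h4

variable [IsAbelianGalois K L]

theorem artin_eq (I : Ideal (𝓞 K)) :
    artin K L I = ((normalizedFactors I).map (frob K L)).prod := by
  rw [artin, ← Multiset.coe_toList (normalizedFactors I), Multiset.map_coe, Multiset.prod_coe,
    Multiset.coe_toList]

theorem artin_mul {I J : Ideal (𝓞 K)} (hI : I ≠ ⊥) (hJ : J ≠ ⊥) :
    artin K L (I * J) = artin K L I * artin K L J := by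
  rw [artin_eq, artin_eq, artin_eq, normalizedFactors_mul hI hJ, Multiset.map_add,
    Multiset.prod_add]

theorem artin_pow (q : Pr K) (n : ℕ) : artin K L (q.asIdeal ^ n) = fr K L q ^ n := by
  rw [artin_eq, normalizedFactors_pow, normalizedFactors_irreducible q.irreducible, normalize_eq,
    Multiset.map_nsmul, Multiset.prod_nsmul, Multiset.map_singleton, Multiset.prod_singleton, fr]

theorem artin_prod (P : Finset (Pr K)) (n : Pr K → ℕ) :
    artin K L (∏ q ∈ P, q.asIdeal ^ n q) = ∏ q ∈ P, fr K L q ^ n q := by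
  induction P using Finset.induction_on with
  | empty => rw [Finset.prod_empty, Finset.prod_empty, artin_eq, normalizedFactors_one]; rfl
  | insert q P hq ih =>
    rw [Finset.prod_insert hq, Finset.prod_insert hq, artin_mul (pow_ne_zero _ q.ne_bot)
      (Finset.prod_ne_zero_iff.2 fun v _ => pow_ne_zero _ v.ne_bot), ih, artin_pow]

theorem artin_span {x : 𝓞 K} (hx : x ≠ 0) :
    artin K L (Ideal.span {x}) = ev (fr K L) (dv (x : K)) := by
  have h : ∀ q ∉ (dv (x : K)).support, og q (x : K) = 0 := fun q hq =>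
    Finsupp.notMem_support_iff.1 hq
  rw [ComplAux.span_eq_prod hx _ h, artin_prod, ev_eq_prod _ _ _ h]
  refine Finset.prod_congr rfl fun q _ => ?_
  rw [dv_apply, ← zpow_natCast, Int.toNat_of_nonneg (og_nonneg q x)]

end RecAux

open RecAux

theorem recS (hT : TowA) (h1 : GrpSt) (h2 : CaseA) : RecA := by
  intro K L _ _ _ _ _ _ S hS
  choose N hN using one hT h1 h2 S hS
  refine ⟨Finset.univ.sup N, fun a ha hp => ?_⟩
  exact hN _ a (ha.mono subset_rfl (Finset.le_sup (Finset.mem_univ _))) hp rfl

theorem artinS (h : RecA) : ArtinA := by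
  intro K L _ _ _ _ _ hab S hS
  obtain ⟨N, hN⟩ := h K L S hS
  refine ⟨N, fun I J x y hI hy hIJ hr hp => ?_⟩
  have hy' : (y : K) ≠ 0 := by simpa using hy
  have hx' : (x : K) ≠ 0 := fun h0 => hr.1 (by rw [h0, zero_div])
  have hx : x ≠ 0 := by simpa using hx'
  have hsy : Ideal.span {y} ≠ ⊥ := by simpa using hy
  have hsx : Ideal.span {x} ≠ ⊥ := by simpa using hx
  have hJ : J ≠ ⊥ := by
    rintro rfl
    exact mul_ne_zero hI hsy (hIJ.trans (Ideal.bot_mul _))
  have h1 := hN _ hr hp
  rw [div_eq_mul_inv, dv_mul hx' (inv_ne_zero hy'), dv_inv, ev_add, ev_neg,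
    mul_inv_eq_one] at h1
  have h2 := congrArg (artin K L) hIJ
  rw [artin_mul hI hsy, artin_mul hJ hsx, artin_span hx, artin_span hy, h1] at h2
  exact mul_right_cancel h2

end Pool.Agent.Stark.AR
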