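import Pool.Agent.Lib.MP_ca56d1_nt.AR.St

/-! The logarithmic embedding of a subgroup of finite index of the `T`-units. -/

namespace Pool.Agent.Stark.AR

open NumberField IsDedekindDomain StarkStmt Filter Topology MeasureTheory
open scoped IsMulCommutative Classical

namespace SpanAux

open Module SUnitAux NumberField.Units NumberField.Units.dirichletUnitTheorem

/-- a subgroup with torsion quotient has full rank -/
lemma rk_of_tors {A B : Type*} [AddCommGroup A] [AddCommGroup B] [Module.Finite ℤ B] (i : A →+ B)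
    (hi : Function.Injective i) (h : ∀ b, ∃ n : ℕ, n ≠ 0 ∧ n • b ∈ i.range) :
    finrank ℤ A = finrank ℤ B := by
  have h1 := rk_exact i (QuotientAddGroup.mk' i.range) hi (QuotientAddGroup.mk'_surjective _)
    fun b => QuotientAddGroup.eq_zero_iff b
  have : Module.Finite ℤ (B ⧸ i.range) := Module.Finite.of_surjective
    (QuotientAddGroup.mk' i.range).toIntLinearMap (QuotientAddGroup.mk'_surjective _)
  have h2 : finrank ℤ (B ⧸ i.range) = 0 := by
    refine Module.finrank_eq_zero_iff.2 fun x => ?_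
    obtain ⟨b, rfl⟩ := QuotientAddGroup.mk_surjective x
    obtain ⟨n, hn, hb⟩ := h b
    refine ⟨n, by exact_mod_cast hn, ?_⟩
    rw [natCast_zsmul, ← QuotientAddGroup.mk_nsmul, QuotientAddGroup.eq_zero_iff]
    exact hb
  omega

variable {F : Type} [Field F] [NumberField F]

/-- the section of the projection to the logarithmic space -/
noncomputable def sec : logSpace F →ₗ[ℝ] (InfinitePlace F → ℝ) :=
  LinearMap.pi fun w => ((w.mult : ℝ)⁻¹) •
    if h : w = w₀ then -∑ w', LinearMap.proj w' else LinearMap.proj ⟨w, h⟩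

lemma sec_eq (a : InfinitePlace F → ℝ) (ha : ∑ w, (w.mult : ℝ) * a w = 0) :
    sec (fun w => (w.1.mult : ℝ) * a w.1) = a := by
  funext w
  have hw : (w.mult : ℝ) ≠ 0 := by exact_mod_cast w.mult_pos.ne'
  rw [Fintype.sum_eq_add_sum_subtype_ne _ w₀, add_eq_zero_iff_neg_eq] at ha
  by_cases h : w = w₀
  · subst h
    have h1 : sec (fun w => (w.1.mult : ℝ) * a w.1) w₀ = ((w₀ : InfinitePlace F).mult : ℝ)⁻¹ *
        -∑ w : {w : InfinitePlace F // w ≠ w₀}, (w.1.mult : ℝ) * a w.1 := by simp [sec]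
    rw [h1, ← ha, neg_neg, inv_mul_cancel_left₀ hw]
  · simp [sec, h, hw]

/-- Dirichlet's theorem, archimedean form -/
lemma arch (W : Submodule ℝ (InfinitePlace F → ℝ)) (h1 : (fun _ => 1) ∈ W)
    (hu : ∀ u : (𝓞 F)ˣ, (fun w : InfinitePlace F => Real.log (w ((u : 𝓞 F) : F))) ∈ W)
    (a : InfinitePlace F → ℝ) : a ∈ W := by
  have h2 : ∀ v, sec v ∈ W := fun v => by
    have h3 : Submodule.span ℝ (unitLattice F : Set (logSpace F)) ≤ W.comap sec := by
      refine Submodule.span_le.2 ?_
      rintro _ ⟨u, -, rfl⟩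
      have h4 := sec_eq _ (sum_mult_mul_log (Additive.toMul u))
      exact Submodule.mem_comap.2 (h4.symm ▸ hu (Additive.toMul u))
    exact h3 (unitLattice_span_eq_top F ▸ Submodule.mem_top)
  have h5 : (0 : ℝ) < ∑ w : InfinitePlace F, (w.mult : ℝ) :=
    Finset.sum_pos (fun w _ => by exact_mod_cast w.mult_pos) Finset.univ_nonempty
  set c := (∑ w, (w.mult : ℝ) * a w) / ∑ w : InfinitePlace F, (w.mult : ℝ) with hc
  have h6 := sec_eq (fun w => a w - c) (by
    simp only [mul_sub, Finset.sum_sub_distrib, ← Finset.sum_mul]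
    rw [hc, mul_div_cancel₀ _ h5.ne', sub_self])
  have h7 := W.add_mem (h6 ▸ h2 _) (W.smul_mem c h1)
  convert h7 using 1
  funext w
  simp

/-- the logarithmic embedding -/
noncomputable def lg (T : Finset (Pr F)) (u : Fˣ) : InfinitePlace F ⊕ T → ℝ :=
  Sum.elim (fun w => Real.log (w (u : F))) fun q => (og q.1 (u : F) : ℝ)

lemma lg_pow (T : Finset (Pr F)) (u : Fˣ) (k : ℕ) : lg T (u ^ k) = (k : ℝ) • lg T u := by
  funext i
  rcases i with w | q
  · simp [lg]
  · simp [lg, og, ord_pow]

/-- extension by zero -/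
def ext0 (T : Finset (Pr F)) : (InfinitePlace F → ℝ) →ₗ[ℝ] (InfinitePlace F ⊕ T → ℝ) where
  toFun a := Sum.elim a fun _ => 0
  map_add' a b := by
    funext i
    rcases i with w | q <;> simp
  map_smul' c a := by
    funext i
    rcases i with w | q <;> simp

lemma span_top (T : Finset (Pr F)) (W : Submodule ℝ (InfinitePlace F ⊕ T → ℝ))
    (h1 : (Sum.elim (fun _ => 1) fun _ => 0) ∈ W) (hu : ∀ x ∈ SU T, lg T x ∈ W) : W = ⊤ := by
  have h2 : ∀ a, ext0 T a ∈ W := arch (W.comap (ext0 T)) h1 fun u => by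
    have h3 := hu _ (incl T u).2
    refine Submodule.mem_comap.2 ?_
    convert h3 using 1
    funext i
    rcases i with w | q
    · rfl
    · exact (Int.cast_eq_zero.2 ((isU_iff.2 ⟨u, rfl⟩).2 q.1)).symm
  rw [eq_top_iff, ← (Pi.basisFun ℝ (InfinitePlace F ⊕ T)).span_eq, Submodule.span_le]
  rintro _ ⟨i, rfl⟩
  rw [SetLike.mem_coe, Pi.basisFun_apply]
  rcases i with w | q
  · convert h2 (Pi.single w 1) using 1
    funext j
    rcases j with w' | q' <;> simp [ext0, Pi.single_apply]
  · obtain ⟨x, hx, e⟩ := mem_prin.1 ((prin F).nsmul_index_mem (Finsupp.single q.1 1))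
    have e' := fun q => DFunLike.congr_fun e q
    have h0 : ((prin F).index : ℝ) ≠ 0 := by exact_mod_cast index_prin_ne
    have h3 := hu (Units.mk0 x hx) fun p hp => by
      have h4 : q.1 ≠ p := fun h => hp (h ▸ q.2)
      simpa [Finsupp.single_apply, h4] using e' p
    have h4 := W.smul_mem ((prin F).index : ℝ)⁻¹
      (W.sub_mem h3 (h2 fun w => Real.log (w x)))
    convert h4 using 1
    funext j
    rcases j with w' | q'
    · simp [ext0, lg]
    · by_cases h6 : q = q'
      · subst h6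
        have h5 : og q.1 x = (prin F).index := by simpa using e' q.1
        simp [ext0, lg, h5, h0]
      · have h7 : q.1 ≠ q'.1 := fun h => h6 (Subtype.ext h)
        have h5 : og q'.1 x = 0 := by simpa [Finsupp.single_apply, h7] using e' q'.1
        simp [ext0, lg, h5, Ne.symm h6]

end SpanAux

theorem spanS : SpanA := by
  intro F _ _ T U hU hk
  have hi : Function.Injective (MonoidHom.toAdditive (Subgroup.inclusion hU)) :=
    Subgroup.inclusion_injective hU
  refine ⟨Module.Finite.of_injective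
    (MonoidHom.toAdditive (Subgroup.inclusion hU)).toIntLinearMap hi, ?_, ?_⟩
  · rw [SpanAux.rk_of_tors _ hi fun b => ?_, SUnitAux.rk_SU]
    obtain ⟨k, hk0, h⟩ := hk _ (Additive.toMul b).2
    exact ⟨k, hk0, Additive.ofMul ⟨_, h⟩, rfl⟩
  · refine SpanAux.span_top T _ (Submodule.subset_span (Set.mem_insert _ _)) fun x hx => ?_
    obtain ⟨k, hk0, h⟩ := hk x hx
    have h0 : (k : ℝ) ≠ 0 := by exact_mod_cast hk0
    rw [← Submodule.smul_mem_iff _ h0, ← SpanAux.lg_pow]
    exact Submodule.subset_span (Set.mem_insert_of_mem _ ⟨_, h, rfl⟩)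

end Pool.Agent.Stark.AR
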