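import Pool.Agent.Lib.MP_ca56d1_nt.AR.St

/-! The pole of the Mellin transform of a theta series with periodic weight. -/

namespace Pool.Agent.Stark.AR

open Complex MeasureTheory ThetaAux Set

namespace ThWAux

theorem final (F : ℝ → ℂ) (hF : Continuous F) (μ : ℂ) (n C1 C2 : ℝ) (hn : 1 ≤ n)
    (h1 : ∀ τ : ℝ, τ ≤ 0 → ‖F τ - μ * (Real.exp (-(n * τ)) : ℝ)‖ ≤ C1)
    (h2 : ∀ τ : ℝ, 0 ≤ τ → ‖F τ‖ * Real.exp ((2 * n + 1) * τ) ≤ C2) (s : ℝ) (hs : 1 < s)
    (hs2 : s ≤ 2) : ‖(∫ τ : ℝ, F τ * cexp ((n : ℂ) * s * τ)) - μ / (n * (s - 1))‖ ≤ C1 + C2 := by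
  have hne : ∀ τ : ℝ, ‖cexp ((n : ℂ) * s * τ)‖ = Real.exp (n * s * τ) := fun τ => by
    rw [← ofReal_mul, ← ofReal_mul, norm_exp_ofReal]
  have hC1 : 0 ≤ C1 := (norm_nonneg _).trans (h1 0 le_rfl)
  have hre : 0 < ((n : ℂ) * (s - 1)).re := by
    have : (n : ℂ) * (s - 1) = ((n * (s - 1) : ℝ) : ℂ) := by push_cast; ring
    rw [this, ofReal_re]
    have : 0 < s - 1 := by linarith
    positivity
  let G : ℝ → ℂ := fun τ => (F τ - μ * (Real.exp (-(n * τ)) : ℝ)) * cexp ((n : ℂ) * s * τ)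
  have hG : ∀ᵐ τ ∂(volume.restrict (Iic (0 : ℝ))), ‖G τ‖ ≤ C1 * Real.exp τ := by
    refine (ae_restrict_iff' measurableSet_Iic).2 (.of_forall fun τ hτ => ?_)
    rw [norm_mul, hne]
    have h0 : τ ≤ 0 := hτ
    refine mul_le_mul (h1 τ hτ) (Real.exp_le_exp.2 ?_) (Real.exp_pos _).le hC1
    have : 1 ≤ n * s := by nlinarith
    nlinarith
  have hb1 : IntegrableOn (fun τ : ℝ => C1 * Real.exp τ) (Iic 0) :=
    (integrableOn_exp_Iic 0).const_mul C1
  have hGi : IntegrableOn G (Iic 0) :=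
    hb1.mono' (Continuous.aestronglyMeasurable (by fun_prop)) hG
  have hH : ∀ᵐ τ ∂(volume.restrict (Ioi (0 : ℝ))),
      ‖F τ * cexp ((n : ℂ) * s * τ)‖ ≤ C2 * Real.exp (-τ) := by
    refine (ae_restrict_iff' measurableSet_Ioi).2 (.of_forall fun τ hτ => ?_)
    have h0 : 0 < τ := hτ
    rw [norm_mul, hne]
    refine le_trans ?_ (mul_le_mul_of_nonneg_right (h2 τ h0.le) (Real.exp_pos _).le)
    rw [mul_assoc ‖F τ‖, ← Real.exp_add]
    refine mul_le_mul_of_nonneg_left (Real.exp_le_exp.2 ?_) (norm_nonneg _)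
    have : 0 ≤ n * τ := by positivity
    nlinarith
  have hb2 : IntegrableOn (fun τ : ℝ => C2 * Real.exp (-τ)) (Ioi 0) :=
    (integrableOn_exp_neg_Ioi 0).const_mul C2
  have hHi : IntegrableOn (fun τ : ℝ => F τ * cexp ((n : ℂ) * s * τ)) (Ioi 0) :=
    hb2.mono' (Continuous.aestronglyMeasurable (by fun_prop)) hH
  have hE : IntegrableOn (fun τ : ℝ => μ * cexp ((n : ℂ) * (s - 1) * τ)) (Iic 0) :=
    (integrableOn_exp_mul_complex_Iic hre 0).const_mul μ
  have hsplit : (fun τ : ℝ => F τ * cexp ((n : ℂ) * s * τ)) =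
      fun τ : ℝ => G τ + μ * cexp ((n : ℂ) * (s - 1) * τ) := by
    funext τ
    simp only [G]
    rw [sub_mul, mul_assoc μ, ofReal_exp, ← exp_add]
    have : ((-(n * τ) : ℝ) : ℂ) + n * s * τ = n * (s - 1) * τ := by push_cast; ring
    rw [this]
    ring
  have hL : IntegrableOn (fun τ : ℝ => F τ * cexp ((n : ℂ) * s * τ)) (Iic 0) := by
    rw [hsplit]
    exact hGi.add hE
  rw [← intervalIntegral.integral_Iic_add_Ioi hL hHi]
  have e1 : ∫ τ in Iic (0 : ℝ), F τ * cexp ((n : ℂ) * s * τ) =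
      (∫ τ in Iic (0 : ℝ), G τ) + μ / (n * (s - 1)) := by
    rw [hsplit, integral_add hGi hE, integral_const_mul, integral_exp_mul_complex_Iic hre]
    simp [div_eq_mul_inv]
  rw [e1, add_right_comm, add_sub_cancel_right]
  refine (norm_add_le _ _).trans (add_le_add ?_ ?_)
  · refine (norm_integral_le_of_norm_le hb1 hG).trans ?_
    rw [integral_const_mul, integral_exp_Iic_zero, mul_one]
  · refine (norm_integral_le_of_norm_le hb2 hH).trans ?_
    rw [integral_const_mul, integral_exp_neg_Ioi_zero, mul_one]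

theorem bdd {δ : ℝ} (hδ : 0 < δ) (m : ℕ) : ∃ C : ℝ, 0 ≤ C ∧ ∀ u : ℝ, 0 ≤ u →
    Real.exp (-δ * Real.exp u ^ 2) * Real.exp (m * u) ≤ C := by
  refine ⟨m.factorial / δ ^ m, by positivity, fun u hu => ?_⟩
  have h1 : 1 ≤ Real.exp u := Real.one_le_exp hu
  have h2 := Real.pow_div_factorial_le_exp (δ * Real.exp u) (by positivity) m
  have h3 : Real.exp (δ * Real.exp u) ≤ Real.exp (δ * Real.exp u ^ 2) :=
    Real.exp_le_exp.2 (mul_le_mul_of_nonneg_left (by nlinarith) hδ.le)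
  have h4 := h2.trans h3
  rw [div_le_iff₀ (by positivity), mul_pow] at h4
  rw [Real.exp_nat_mul, neg_mul, Real.exp_neg, le_div_iff₀ (by positivity), mul_assoc,
    inv_mul_le_iff₀ (Real.exp_pos _)]
  linarith

variable {ι : Type} [Fintype ι] [DecidableEq ι]

theorem coset {B : Matrix ι ι ℝ} (hB : B.det ≠ 0) (a c : ι → ℝ) :
    ‖(∑' k : ι → ℤ, cexp (-Real.pi * ∑ i, ((Real.exp (2 * a i) : ℝ) : ℂ) *
        ((lpt B k i + c i : ℝ) : ℂ) ^ 2)) - ((1 / |B.det| * Real.exp (-∑ i, a i) : ℝ) : ℂ)‖ ≤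
      1 / |B.det| * Real.exp (-∑ i, a i) * th (B⁻¹).transpose (-a) := by
  rw [poisson_gauss B hB (fun i => ((Real.exp (2 * a i) : ℝ) : ℂ))
    (fun i => by rw [ofReal_re]; exact Real.exp_pos _) c]
  have e1 : (∏ i, 1 / ((Real.exp (2 * a i) : ℝ) : ℂ) ^ (1 / 2 : ℂ)) =
      ((Real.exp (-∑ i, a i) : ℝ) : ℂ) := by
    rw [← Finset.sum_neg_distrib, Real.exp_sum, Complex.ofReal_prod]
    refine Finset.prod_congr rfl fun i _ => ?_
    have h1 : ((1 / 2 : ℂ)) = ((1 / 2 : ℝ) : ℂ) := by push_cast; ring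
    rw [h1, ← Complex.ofReal_cpow (Real.exp_pos _).le, ← Real.exp_mul, Real.exp_neg]
    have h2 : 2 * a i * (1 / 2) = a i := by ring
    rw [h2]
    push_cast
    rw [one_div]
  set B' := (B⁻¹).transpose with hB'
  let g : (ι → ℤ) → ℂ := fun k => cexp (-Real.pi * ∑ i, ((lpt B' k i : ℝ) : ℂ) ^ 2 /
    ((Real.exp (2 * a i) : ℝ) : ℂ) + 2 * Real.pi * I * ((∑ i, lpt B' k i * c i : ℝ) : ℂ))
  have hg : ∀ k, ‖g k‖ = tm B' (-a) k := fun k => by
    have h1 : -Real.pi * ∑ i, ((lpt B' k i : ℝ) : ℂ) ^ 2 / ((Real.exp (2 * a i) : ℝ) : ℂ) =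
        ((-Real.pi * ∑ i, Real.exp (2 * (-a) i) * lpt B' k i ^ 2 : ℝ) : ℂ) := by
      rw [ofReal_mul, ofReal_neg, ofReal_sum]
      congr 1
      refine Finset.sum_congr rfl fun i _ => ?_
      rw [Pi.neg_apply, mul_neg, Real.exp_neg, ofReal_mul, ofReal_inv, ofReal_pow,
        div_eq_mul_inv, mul_comm]
    have h2 : 2 * Real.pi * I * ((∑ i, lpt B' k i * c i : ℝ) : ℂ) =
        ((2 * Real.pi * ∑ i, lpt B' k i * c i : ℝ) : ℂ) * I := by
      rw [ofReal_mul, ofReal_mul]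
      push_cast
      ring
    simp only [g]
    rw [exp_add, norm_mul, h1, h2, norm_exp_ofReal, norm_exp_ofReal_mul_I, mul_one, tm]
  have hs : Summable (tm B' (-a)) := summable_tm (det_inv_ne hB) _
  have hgs : Summable g := .of_norm (hs.congr fun k => (hg k).symm)
  have hg0 : g 0 = 1 := by
    have : lpt B' 0 = 0 := by
      unfold lpt
      have : (fun j : ι => (((0 : ι → ℤ) j : ℤ) : ℝ)) = 0 := by
        funext j; simp
      rw [this, Matrix.mulVec_zero]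
    simp [g, this]
  have h3 : ‖(∑' k, g k) - 1‖ ≤ th B' (-a) := by
    have h4 := one_add_th (det_inv_ne hB) (-a)
    rw [hs.tsum_eq_add_tsum_ite 0, tm_zero, add_right_inj] at h4
    rw [hgs.tsum_eq_add_tsum_ite 0, hg0, add_sub_cancel_left, h4]
    refine tsum_of_norm_bounded (Summable.hasSum ?_) fun k => ?_
    · refine Summable.of_nonneg_of_le (fun k => ?_) (fun k => ?_) hs
      · split_ifs
        · exact le_rfl
        · exact (tm_pos _ _ _).le
      · split_ifs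
        · exact (tm_pos _ _ _).le
        · exact le_rfl
    · split_ifs
      · simp
      · exact (hg k).le
  rw [e1, ← ofReal_mul, ← mul_sub_one, norm_mul, norm_real, Real.norm_of_nonneg (by positivity)]
  exact mul_le_mul_of_nonneg_left h3 (by positivity)

/-- The weighted theta series. -/
noncomputable def thw (B : Matrix ι ι ℝ) (ω : (ι → ℤ) → ℂ) (a : ι → ℝ) : ℂ :=
  ∑' k : {k : ι → ℤ // k ≠ 0}, ω k.1 * (tm B a k.1 : ℝ)

omit [DecidableEq ι] in
theorem norm_term (B : Matrix ι ι ℝ) {ω : (ι → ℤ) → ℂ} (hω : ∀ k, ‖ω k‖ ≤ 1) (a : ι → ℝ)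
    (k : ι → ℤ) : ‖ω k * (tm B a k : ℝ)‖ ≤ tm B a k := by
  rw [norm_mul, norm_real, Real.norm_of_nonneg (tm_pos _ _ _).le]
  exact mul_le_of_le_one_left (tm_pos _ _ _).le (hω k)

theorem norm_thw {B : Matrix ι ι ℝ} (hB : B.det ≠ 0) {ω : (ι → ℤ) → ℂ} (hω : ∀ k, ‖ω k‖ ≤ 1)
    (a : ι → ℝ) : ‖thw B ω a‖ ≤ th B a :=
  tsum_of_norm_bounded ((summable_tm hB a).subtype _).hasSum fun k => norm_term B hω a k.1

theorem continuous_thw {B : Matrix ι ι ℝ} (hB : B.det ≠ 0) {ω : (ι → ℤ) → ℂ}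
    (hω : ∀ k, ‖ω k‖ ≤ 1) : Continuous (thw B ω) := by
  rw [continuous_iff_continuousAt]
  intro a₀
  have hopen : IsOpen {a : ι → ℝ | ∀ i, a₀ i - 1 < a i} := by
    have : {a : ι → ℝ | ∀ i, a₀ i - 1 < a i} = ⋂ i, {a : ι → ℝ | a₀ i - 1 < a i} := by
      ext a; simp
    rw [this]
    exact isOpen_iInter_of_finite fun i => isOpen_lt continuous_const (continuous_apply i)
  have hmem : a₀ ∈ {a : ι → ℝ | ∀ i, a₀ i - 1 < a i} := fun i => by linarith
  refine ContinuousOn.continuousAt ?_ (hopen.mem_nhds hmem)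
  refine continuousOn_tsum (u := fun k : {k : ι → ℤ // k ≠ 0} => tm B (fun i => a₀ i - 1) k.1)
    (fun k => (continuous_const.mul
      (continuous_ofReal.comp (continuous_tm B k.1))).continuousOn) ((summable_tm hB _).subtype _) ?_
  intro k a ha
  exact (norm_term B hω a k.1).trans (tm_mono B (fun i => (ha i).le) k.1)

theorem thw_est {B : Matrix ι ι ℝ} (hB : B.det ≠ 0) {ω : (ι → ℤ) → ℂ} (hω : ∀ k, ‖ω k‖ ≤ 1)
    {d : ℕ} (hd : d ≠ 0) (hp : ∀ k j, ω (k + d • j) = ω k) (a : ι → ℝ) :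
    ‖thw B ω a - (∑ c : ι → Fin d, ω fun i => ((c i : ℕ) : ℤ)) *
        ((1 / |((d : ℝ) • B).det| * Real.exp (-∑ i, a i) : ℝ) : ℂ)‖ ≤
      1 + Fintype.card (ι → Fin d) * (1 / |((d : ℝ) • B).det| * Real.exp (-∑ i, a i) *
        th (((d : ℝ) • B)⁻¹).transpose (-a)) := by
  have : NeZero d := ⟨hd⟩
  have hB' : ((d : ℝ) • B).det ≠ 0 := by
    rw [Matrix.det_smul]
    exact mul_ne_zero (pow_ne_zero _ (Nat.cast_ne_zero.2 hd)) hB
  have hs : Summable fun k => ω k * (tm B a k : ℝ) :=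
    .of_norm_bounded (summable_tm hB a) (norm_term B hω a)
  have h1 : thw B ω a = (∑' k, ω k * (tm B a k : ℝ)) - ω 0 := by
    have h := hs.sum_add_tsum_subtype_compl {0}
    rw [Finset.sum_singleton, tm_zero, ofReal_one, mul_one] at h
    rw [← h, add_sub_cancel_left, thw]
    exact (Equiv.subtypeEquivRight (p := fun k : ι → ℤ => k ≠ 0)
      (q := fun k : ι → ℤ => k ∉ ({0} : Finset (ι → ℤ))) (fun k => by simp)).tsum_eq
        (fun k => ω k.1 * (tm B a k.1 : ℝ))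
  let e : (ι → Fin d) × (ι → ℤ) ≃ (ι → ℤ) :=
    ((Equiv.prodComm _ _).trans (Equiv.arrowProdEquivProdArrow ι (fun _ => ℤ) fun _ => Fin d).symm).trans
      (Equiv.piCongrRight fun _ => (Int.divModEquiv d).symm)
  have he : ∀ c j, e (c, j) = (fun i => ((c i : ℕ) : ℤ)) + d • j := fun c j => by
    funext i
    simp [e, Int.divModEquiv, Equiv.arrowProdEquivProdArrow]
    ring
  have h2 : ∑' k, ω k * (tm B a k : ℝ) = ∑ c : ι → Fin d, (ω fun i => ((c i : ℕ) : ℤ)) *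
      ∑' j : ι → ℤ, cexp (-Real.pi * ∑ i, ((Real.exp (2 * a i) : ℝ) : ℂ) *
        ((lpt ((d : ℝ) • B) j i + lpt B (fun i => ((c i : ℕ) : ℤ)) i : ℝ) : ℂ) ^ 2) := by
    have hs' : Summable fun p => ω (e p) * (tm B a (e p) : ℝ) := e.summable_iff.2 hs
    rw [← e.tsum_eq, hs'.tsum_prod, tsum_fintype]
    refine Finset.sum_congr rfl fun c _ => ?_
    rw [← tsum_mul_left]
    refine tsum_congr fun j => ?_
    rw [he, hp, tm_cast]
    congr 3
    refine Finset.sum_congr rfl fun i _ => ?_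
    congr 3
    simp only [lpt, Matrix.mulVec, dotProduct, Pi.add_apply, Pi.smul_apply, Matrix.smul_apply,
      Pi.zero_apply, add_zero, smul_eq_mul, ← Finset.sum_add_distrib]
    refine Finset.sum_congr rfl fun x _ => ?_
    rw [nsmul_eq_mul]
    push_cast
    ring
  rw [h1, h2, sub_right_comm, Finset.sum_mul, ← Finset.sum_sub_distrib, add_comm]
  refine (norm_sub_le _ _).trans (add_le_add ?_ (hω 0))
  rw [← nsmul_eq_mul, ← Finset.card_univ, ← Finset.sum_const]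
  refine norm_sum_le_of_le _ fun c _ => ?_
  rw [← mul_sub, norm_mul]
  exact (mul_le_of_le_one_left (norm_nonneg _) (hω _)).trans (coset hB' a _)

variable {κ : Type} {r : ℕ}

omit [DecidableEq ι] in
theorem fthw_eq (B : Matrix ι ι ℝ) (pl : ι → κ) (l : Fin r → κ → ℝ) (ω : (ι → ℤ) → ℂ) (τ : ℝ) :
    fthw B pl l ω τ =
      ∫ t in Icc (0 : Fin r → ℝ) 1, thw B ω fun i => ∑ j, t j * l j (pl i) + τ := by
  unfold fthw
  rw [setIntegral_congr_set (box_ae r)]
  rfl

omit [DecidableEq ι] in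
theorem lin_bd (pl : ι → κ) (l : Fin r → κ → ℝ) {t : Fin r → ℝ} (ht : t ∈ Icc (0 : Fin r → ℝ) 1)
    (i : ι) : |∑ j, t j * l j (pl i)| ≤ ∑ i, ∑ j, |l j (pl i)| := by
  have h1 : ∑ j, |l j (pl i)| ≤ ∑ i, ∑ j, |l j (pl i)| :=
    Finset.single_le_sum (f := fun i => ∑ j, |l j (pl i)|)
      (fun i _ => Finset.sum_nonneg fun j _ => abs_nonneg _) (Finset.mem_univ i)
  refine ((Finset.abs_sum_le_sum_abs _ _).trans (Finset.sum_le_sum fun j _ => ?_)).trans h1
  rw [abs_mul, abs_of_nonneg (ht.1 j)]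
  exact mul_le_of_le_one_left (abs_nonneg _) (ht.2 j)

end ThWAux

open ThWAux in
theorem thW : ThWSt := by
  intro ι κ _ _ _ r B pl l ω d hB hl hd hω hp
  have hB' : ((d : ℝ) • B).det ≠ 0 := by
    rw [Matrix.det_smul]
    exact mul_ne_zero (pow_ne_zero _ (Nat.cast_ne_zero.2 hd)) hB
  set L := ∑ i, ∑ j, |l j (pl i)| with hL
  set n := Fintype.card ι with hn
  obtain ⟨C1, δ1, hδ1, h1⟩ := th_decay (det_inv_ne hB') L
  obtain ⟨C2, δ2, hδ2, h2⟩ := th_decay hB L
  obtain ⟨E1, hE1, e1⟩ := bdd hδ1 n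
  obtain ⟨E2, hE2, e2⟩ := bdd hδ2 (2 * n + 1)
  have hc : ∀ τ : ℝ, Continuous fun t : Fin r → ℝ =>
      thw B ω fun i => ∑ j, t j * l j (pl i) + τ := fun τ =>
    (continuous_thw hB hω).comp (by fun_prop)
  have hF : Continuous (fthw B pl l ω) := by
    rw [funext (fthw_eq B pl l ω)]
    exact continuous_parametric_integral_of_continuous
      (f := fun (τ : ℝ) (t : Fin r → ℝ) => thw B ω fun i => ∑ j, t j * l j (pl i) + τ)
      ((continuous_thw hB hω).comp (by fun_prop)) isCompact_Icc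
  set M : ℂ := ∑ c : ι → Fin d, ω fun i => ((c i : ℕ) : ℤ) with hM
  set D : ℝ := 1 / |((d : ℝ) • B).det| with hD
  have hD0 : 0 ≤ D := by positivity
  refine ⟨(1 + Fintype.card (ι → Fin d) * (D * (|C1| * E1))) + |C2| * E2, fun s hs hs2 => ?_⟩
  have hn1 : (1 : ℝ) ≤ n := by exact_mod_cast (Fintype.card_pos : 0 < Fintype.card ι)
  have key := final (fthw B pl l ω) hF (M * D) n
    (1 + Fintype.card (ι → Fin d) * (D * (|C1| * E1))) (|C2| * E2) hn1 ?_ ?_ s hs hs2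
  · rw [ofReal_natCast] at key
    convert key using 3
    rw [hD, Matrix.det_smul, abs_mul, abs_pow, Nat.abs_cast, ← hn,
      ofReal_div, ofReal_mul, ofReal_pow, ofReal_natCast, ofReal_one]
    simp only [div_eq_mul_inv, mul_inv]
    ring
  · intro τ hτ
    have h3 : (M * D) * (Real.exp (-(n * τ)) : ℝ) =
        ∫ _t in Icc (0 : Fin r → ℝ) 1, M * ((D * Real.exp (-(n * τ)) : ℝ) : ℂ) := by
      rw [setIntegral_const, vol_Icc, one_smul, ofReal_mul, mul_assoc]
    rw [fthw_eq, h3, ← integral_sub ((hc τ).continuousOn.integrableOn_compact isCompact_Icc)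
      (continuous_const.continuousOn.integrableOn_compact isCompact_Icc)]
    refine (norm_setIntegral_le_of_norm_le_const isCompact_Icc.measure_lt_top fun t ht => ?_).trans
      (by rw [vol_Icc, mul_one])
    have h4 : ∑ i, (∑ j, t j * l j (pl i) + τ) = n * τ := by
      rw [Finset.sum_add_distrib, Finset.sum_comm]
      simp_rw [← Finset.mul_sum, hl]
      simp [hn]
    have h5 := thw_est hB hω hd hp fun i => ∑ j, t j * l j (pl i) + τ
    rw [h4] at h5
    refine h5.trans (add_le_add le_rfl (mul_le_mul_of_nonneg_left ?_ (by positivity)))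
    rw [mul_assoc]
    refine mul_le_mul_of_nonneg_left ?_ hD0
    have h6 := h1 (-τ) (by linarith) (-fun i => ∑ j, t j * l j (pl i) + τ) fun i => by
      have := (abs_le.1 (lin_bd pl l ht i)).2
      simp only [Pi.neg_apply]
      linarith
    have h7 := e1 (-τ) (by linarith)
    rw [mul_neg] at h7
    have h8 := h6.trans (mul_le_mul_of_nonneg_right (le_abs_self C1) (Real.exp_pos _).le)
    refine (mul_le_mul_of_nonneg_left h8 (Real.exp_pos _).le).trans ?_
    rw [mul_left_comm, mul_comm (Real.exp _)]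
    exact mul_le_mul_of_nonneg_left h7 (abs_nonneg _)
  · intro τ hτ
    have h3 : ‖fthw B pl l ω τ‖ ≤ |C2| * Real.exp (-δ2 * Real.exp τ ^ 2) := by
      rw [fthw_eq]
      refine (norm_setIntegral_le_of_norm_le_const isCompact_Icc.measure_lt_top
        fun t ht => ?_).trans (by rw [vol_Icc, mul_one])
      refine (norm_thw hB hω _).trans ((h2 τ hτ _ fun i => ?_).trans
        (mul_le_mul_of_nonneg_right (le_abs_self C2) (Real.exp_pos _).le))
      have := (abs_le.1 (lin_bd pl l ht i)).1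
      linarith
    have h4 := e2 τ hτ
    push_cast at h4
    refine (mul_le_mul_of_nonneg_right h3 (Real.exp_pos _).le).trans ?_
    rw [mul_assoc]
    exact mul_le_mul_of_nonneg_left h4 (abs_nonneg _)

end Pool.Agent.Stark.AR
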