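import Pool.Agent.Lib.MP_ca56d1_nt.AR.St

/-! The norm index of the `T`-units in the group `A`. -/

set_option linter.unusedSectionVars false

namespace Pool.Agent.Stark.AR

open NumberField IsDedekindDomain StarkStmt
open scoped Classical

namespace UnitsAux

variable {K L : Type} [Field K] [NumberField K] [Field L] [NumberField L] [Algebra K L]

theorem coe_smul (g : L ≃ₐ[K] L) (u : Lˣ) : ((g • u : Lˣ) : L) = g (u : L) := rfl

theorem og_mul' (Q : Pr L) (u v : Lˣ) : og Q ((u * v : Lˣ) : L) = og Q (u : L) + og Q (v : L) := by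
  rw [Units.val_mul, og, og, og, ord_mul u.ne_zero v.ne_zero]

theorem og_div' (Q : Pr L) (u v : Lˣ) : og Q ((u / v : Lˣ) : L) = og Q (u : L) - og Q (v : L) := by
  rw [Units.val_div_eq_div_val, og, og, og, ord_div u.ne_zero v.ne_zero]

theorem og_smul' (hG : GalSt K L) (g : L ≃ₐ[K] L) (Q : Pr L) (x : L) :
    og Q (g x) = og (g⁻¹ • Q) x := by
  rw [← hG.og_smul g (g⁻¹ • Q) x, smul_inv_smul]

/-- The action on a stable finite set of primes. -/
@[reducible] noncomputable def actT (hG : GalSt K L) {T : Finset (Pr K)} {TL : Finset (Pr L)}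
    (hT : ∀ Q, Q ∈ TL ↔ below K Q ∈ T) : MulAction (L ≃ₐ[K] L) TL where
  smul g Q := ⟨g • Q.1, by rw [hT, hG.below_smul, ← hT]; exact Q.2⟩
  one_smul Q := Subtype.ext (one_smul _ Q.1)
  mul_smul g h Q := Subtype.ext (mul_smul g h Q.1)

theorem h90 (hG : GalSt K L) {σ : L ≃ₐ[K] L} {S T : Finset (Pr K)} {SL TL : Finset (Pr L)} {N : ℕ}
    {A : Subgroup Lˣ} (D : Dat σ S T SL TL N A) (u : Lˣ) (hu : u ∈ A ⊓ SU TL)
    (h1 : nrm (L ≃ₐ[K] L) u = 1) : ∃ y ∈ A ⊓ SU TL, u = y / σ • y := by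
  have hab := D.ab
  have hgal : IsGalois K L := inferInstance
  obtain ⟨y, hy, hyu⟩ := D.h90 u hu.1 h1
  have step : ∀ Q : Pr L, Q ∉ TL → og (σ⁻¹ • Q) (y : L) = og Q (y : L) := fun Q hQ => by
    have h2 : og Q (u : L) = 0 := hu.2 Q hQ
    rw [hyu, og_div', coe_smul, og_smul' hG] at h2
    omega
  have hst : ∀ (g : L ≃ₐ[K] L) (Q : Pr L), Q ∉ TL → g • Q ∉ TL := fun g Q hQ h => by
    rw [D.hT, hG.below_smul, ← D.hT] at h
    exact hQ h
  have all : ∀ (g : L ≃ₐ[K] L) (Q : Pr L), Q ∉ TL → og (g • Q) (y : L) = og Q (y : L) := by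
    intro g
    have hg : g ∈ Subgroup.zpowers σ⁻¹ := by
      rw [Subgroup.zpowers_inv]
      exact D.gen g
    rw [mem_zpowers_iff_mem_range_orderOf] at hg
    obtain ⟨k, -, rfl⟩ := Finset.mem_image.1 hg
    induction k with
    | zero => intro Q _; rw [pow_zero, one_smul]
    | succ k ih =>
      intro Q hQ
      rw [pow_succ', mul_smul, step _ (hst _ Q hQ)]
      refine ih ?_ Q hQ
      rw [← mem_zpowers_iff_mem_range_orderOf]
      exact Subgroup.pow_mem _ (Subgroup.mem_zpowers _) _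
  choose up hup using below_surj (F := K) (K := L)
  have hfin : {q : Pr K | og (up q) (y : L) ≠ 0}.Finite := by
    refine ((og_finite (y : L)).image (below K)).subset fun q hq => ⟨up q, hq, hup q⟩
  obtain ⟨b, hb1, -, hb3⟩ := D.trivK (Finsupp.ofSupportFinite (fun q => og (up q) (y : L)) hfin)
  have hb4 := hG.ray_up S SL N b D.hS hb1
  set β : Lˣ := Units.mk0 (algebraMap K L b) hb4.1 with hβ
  have hβA : β ∈ A := D.ray β hb4
  have hyA : y / β ∈ A := A.div_mem hy hβA
  refine ⟨y / β, ⟨hyA, fun Q hQ => ?_⟩, ?_⟩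
  · by_cases hS : Q ∈ SL
    · exact D.unit _ hyA Q hS
    · have hq : below K Q ∉ S := fun h => hS ((D.hS Q).2 h)
      have hq' : below K Q ∉ T := fun h => hQ ((D.hT Q).2 h)
      obtain ⟨g, hg⟩ := hG.trans hgal Q (up (below K Q)) (hup _).symm
      have h3 := hb3 _ hq hq'
      rw [og_div', hβ, Units.val_mk0, og_algebraMap, D.unr Q hq, h3]
      change og Q (y : L) - ((1 : ℕ) : ℤ) * og (up (below K Q)) (y : L) = 0
      rw [← hg, all g Q hQ]
      simp
  · have hσ : σ • β = β := Units.ext (by rw [coe_smul, hβ, Units.val_mk0, AlgEquiv.commutes])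
    rw [hyu, smul_div', hσ, div_div_div_cancel_right]

theorem prod_le (hG : GalSt K L) [hgal : IsGalois K L] :
    (∏ v : InfinitePlace K, if v.IsUnramifiedIn L then 1 else 2) ≤
      2 ^ Nat.card {φ : K →+* ℝ // RamR L φ} := by
  rw [Finset.prod_ite, Finset.prod_const_one, one_mul, Finset.prod_const]
  refine Nat.pow_le_pow_right (by norm_num) ?_
  have hfin : Finite (K →+* ℝ) := Finite.of_injective _ (plc_injective (F := K))
  rw [← Nat.card_eq_finsetCard]
  refine Nat.card_le_card_of_surjective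
    (fun φ : {φ : K →+* ℝ // RamR L φ} => ⟨plc φ.1, by
      rw [Finset.mem_filter]
      exact ⟨Finset.mem_univ _, (hG.ramR_iff hgal φ.1).1 φ.2⟩⟩) ?_
  rintro ⟨v, hv⟩
  have hv' := (Finset.mem_filter.1 hv).2
  obtain ⟨w, rfl⟩ := InfinitePlace.comap_surjective (K := L) v
  have h1 : ¬ w.IsUnramified K := fun h => hv' (InfinitePlace.isUnramifiedIn_comap.2 h)
  obtain ⟨φ, hφ⟩ := exists_plc (InfinitePlace.not_isUnramified_iff.1 h1).2
  refine ⟨⟨φ, (hG.ramR_iff hgal φ).2 ?_⟩, Subtype.ext hφ⟩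
  rw [hφ]
  exact hv'

end UnitsAux

open UnitsAux

theorem units (hG : GalA) (hF : FrA) (h1 : HQSt) (h2 : RayTA) (h3 : SpanA) : UnitsA := by
  intro K L _ _ _ _ _ σ S T SL TL N A D
  have hG' := hG K L
  have hab := D.ab
  have hgal : IsGalois K L := inferInstance
  let _ := actT hG' D.hT
  have hsm : ∀ (g : L ≃ₐ[K] L) (Q : TL), (g • Q).1 = g • Q.1 := fun _ _ => rfl
  obtain ⟨hfin, hrk, hspan⟩ := h3 L TL (A ⊓ SU TL) inf_le_right fun x hx => by
    obtain ⟨k, hk, hr⟩ := (h2 L).pow SL N (x : L) x.ne_zero fun Q hQ => hx Q fun hQ' =>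
      Finset.disjoint_left.1 D.disj ((D.hT Q).1 hQ') ((D.hS Q).1 hQ)
    exact ⟨k, hk, D.ray _ (by rwa [Units.val_pow_eq_pow_val]), (SU TL).pow_mem hx k⟩
  have key := h1 (G := L ≃ₐ[K] L) (W := Lˣ) (X := InfinitePlace L ⊕ TL)
    (Y := InfinitePlace K ⊕ T) σ (A ⊓ SU TL)
    (fun u : Lˣ => (Sum.elim (fun w => Real.log (w (u : L))) fun q => (og q.1 (u : L) : ℝ) :
        InfinitePlace L ⊕ TL → ℝ)) (Sum.elim (fun _ => 1) fun _ => 0)
    (Sum.map (fun w => w.comap (algebraMap K L)) fun Q => ⟨below K Q.1, (D.hT _).1 Q.2⟩)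
    (Sum.elim (fun v => if v.IsUnramifiedIn L then 1 else 2) fun q => orderOf (fr K L q.1))
    D.gen ?_ ?_ ?_ ?_ ?_ hspan (h90 hG' D) ?_ ?_ ?_
  · refine ⟨key.1, ?_⟩
    rw [Nat.card_eq_fintype_card]
    refine key.2.trans ?_
    rw [Fintype.prod_sum_type]
    simp only [Sum.elim_inl, Sum.elim_inr]
    rw [Finset.prod_coe_sort T fun q => orderOf (fr K L q)]
    exact Nat.mul_le_mul_right _ (prod_le hG')
  · intro g u hu
    refine ⟨D.stab g u hu.1, fun Q hQ => ?_⟩
    rw [coe_smul, og_smul' hG']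
    refine hu.2 _ fun h => hQ ?_
    rw [D.hT, hG'.below_smul, ← D.hT] at h
    exact h
  · rw [hrk, Fintype.card_sum, Fintype.card_coe]
  · intro u v
    funext x
    rcases x with w | Q
    · simp only [Sum.elim_inl, Pi.add_apply, Units.val_mul, map_mul]
      exact Real.log_mul (w.pos_iff.2 u.ne_zero).ne' (w.pos_iff.2 v.ne_zero).ne'
    · simp only [Sum.elim_inr, Pi.add_apply]
      rw [og_mul', Int.cast_add]
  · intro g u x
    rcases x with w | Q
    · simp only [Sum.smul_inl, Sum.elim_inl, coe_smul, InfinitePlace.smul_apply,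
        AlgEquiv.symm_apply_apply]
    · simp only [Sum.smul_inr, Sum.elim_inr, coe_smul, hsm, hG'.og_smul]
  · intro g x
    rcases x with w | Q
    · simp only [Sum.smul_inl, Sum.elim_inl]
    · simp only [Sum.smul_inr, Sum.elim_inr]
  · rintro (v | q)
    · obtain ⟨w, rfl⟩ := InfinitePlace.comap_surjective (K := L) v
      exact ⟨Sum.inl w, rfl⟩
    · obtain ⟨Q, hQ⟩ := below_surj (K := L) q.1
      exact ⟨Sum.inr ⟨Q, (D.hT Q).2 (hQ ▸ q.2)⟩, congrArg Sum.inr (Subtype.ext hQ)⟩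
  · rintro (w | Q) (w' | Q')
    · simp only [Sum.map_inl, Sum.inl.injEq, Sum.smul_inl]
      exact InfinitePlace.mem_orbit_iff.symm
    · simp
    · simp
    · simp only [Sum.map_inr, Sum.inr.injEq, Sum.smul_inr, Subtype.ext_iff, hsm]
      refine ⟨hG'.trans hgal _ _, ?_⟩
      rintro ⟨g, hg⟩
      rw [← hg, hG'.below_smul]
  · rintro (w | Q)
    · have : MulAction.stabilizer (L ≃ₐ[K] L) (Sum.inl w : InfinitePlace L ⊕ TL) =
          MulAction.stabilizer (L ≃ₐ[K] L) w := by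
        ext g
        simp only [MulAction.mem_stabilizer_iff, Sum.smul_inl, Sum.inl.injEq]
      rw [this, InfinitePlace.card_stabilizer]
      simp only [Sum.map_inl, Sum.elim_inl, InfinitePlace.isUnramifiedIn_comap]
    · have : MulAction.stabilizer (L ≃ₐ[K] L) (Sum.inr Q : InfinitePlace L ⊕ TL) =
          MulAction.stabilizer (L ≃ₐ[K] L) Q.1 := by
        ext g
        simp only [MulAction.mem_stabilizer_iff, Sum.smul_inr, Sum.inr.injEq, Subtype.ext_iff, hsm]
      have he : eI K Q.1 = 1 := D.unr _ fun h =>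
        Finset.disjoint_left.1 D.disj ((D.hT _).1 Q.2) h
      rw [this, hG'.card_stab hgal, he, one_mul]
      exact ((hF K L).ord hab Q.1 he).symm

end Pool.Agent.Stark.AR
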