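import Pool.Agent.Lib.MP_ca56d1_nt.AR.Herb
import Pool.Agent.Lib.MP_ca56d1_nt.AR.Lat
import Pool.Agent.Lib.MP_ca56d1_nt.AR.HQ
import Pool.Agent.Lib.MP_ca56d1_nt.AR.Ord
import Pool.Agent.Lib.MP_ca56d1_nt.AR.Grp
import Pool.Agent.Lib.MP_ca56d1_nt.AR.RayT
import Pool.Agent.Lib.MP_ca56d1_nt.AR.Span
import Pool.Agent.Lib.MP_ca56d1_nt.AR.Cyc
import Pool.Agent.Lib.MP_ca56d1_nt.AR.Ps
import Pool.Agent.Lib.MP_ca56d1_nt.AR.ThW
import Pool.Agent.Lib.MP_ca56d1_nt.AR.UnfW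
import Pool.Agent.Lib.MP_ca56d1_nt.AR.Prin
import Pool.Agent.Lib.MP_ca56d1_nt.AR.LBd
import Pool.Agent.Lib.MP_ca56d1_nt.AR.Den
import Pool.Agent.Lib.MP_ca56d1_nt.AR.Gal
import Pool.Agent.Lib.MP_ca56d1_nt.AR.Fr
import Pool.Agent.Lib.MP_ca56d1_nt.AR.Tow
import Pool.Agent.Lib.MP_ca56d1_nt.AR.Filt
import Pool.Agent.Lib.MP_ca56d1_nt.AR.NB
import Pool.Agent.Lib.MP_ca56d1_nt.AR.Units
import Pool.Agent.Lib.MP_ca56d1_nt.AR.Idx
import Pool.Agent.Lib.MP_ca56d1_nt.AR.Sec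
import Pool.Agent.Lib.MP_ca56d1_nt.AR.Key
import Pool.Agent.Lib.MP_ca56d1_nt.AR.CycF
import Pool.Agent.Lib.MP_ca56d1_nt.AR.Pair
import Pool.Agent.Lib.MP_ca56d1_nt.AR.Rec

/-! The Artin reciprocity law for finite abelian extensions of number fields. -/

namespace Pool.Agent.Stark.AR

theorem hFr : FrA := frS gal

theorem hTow : TowA := tow gal hFr

theorem hSpl : SplA := spl hTow (spl1 gal hFr psS)

theorem hLBd : LBdA := lbd (prin thW unfW) mean

theorem hDen : DenA := den hLBd psS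

theorem hFirst : FirstA :=
  first (dat (filt gal) (nb gal) rayT) (units gal hFr (hqS herb lat perm) rayT spanS)
    (idx gal hFr rayT)

theorem hSec : SecA := sec hDen hSpl

theorem hPair : PairA :=
  pairS hFr hTow (artL ordS) (cycF hFr hTow) (key gal hTow hSec (cycR hFr (cyc gal))) hSpl

/-- The Artin reciprocity law, divisor form. -/
theorem hRec : RecA := recS hTow grp (caseS grp hSpl hFirst hPair)

/-- The Artin reciprocity law, ideal form. -/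
theorem hArtin : ArtinA := artinS hRec

end Pool.Agent.Stark.AR
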