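import Pool.Agent.Lib.MP_ca56d1_nt.Frob
import Pool.Agent.Lib.MP_ca56d1_nt.Euler
import Pool.Agent.Lib.MP_ca56d1_nt.SUnit

/-! Definitions for the proof of the Artin reciprocity law. -/

namespace Pool.Agent.Stark.AR

open NumberField IsDedekindDomain StarkStmt
open scoped Pointwise

section One

variable {F : Type*} [Field F] [NumberField F] {Γ Γ' : Type*} [CommGroup Γ] [CommGroup Γ']

/-- `a` is nonzero and congruent to one modulo `q ^ (N + 1)` for all `q` in `S`. -/
def Ray (S : Finset (Pr F)) (N : ℕ) (a : F) : Prop :=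
  a ≠ 0 ∧ ∀ q ∈ S, a - 1 ∈ pw (q.valuation F) ((N : ℤ) + 1)

/-- `a` is totally positive. -/
def Pos (a : F) : Prop := ∀ φ : F →+* ℝ, 0 < φ a

/-- The value of a function on primes at a divisor. -/
noncomputable def ev (c : Pr F → Γ) (D : Dv F) : Γ := D.prod fun q n => c q ^ n

/-- `c` kills the principal divisors of the wide ray. -/
def WRay (S : Finset (Pr F)) (N : ℕ) (c : Pr F → Γ) : Prop :=
  ∀ a : F, Ray S N a → ev c (dv a) = 1

/-- `c` kills the principal divisors of the narrow ray. -/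
def NRay (S : Finset (Pr F)) (N : ℕ) (c : Pr F → Γ) : Prop :=
  ∀ a : F, Ray S N a → Pos a → ev c (dv a) = 1

open scoped Classical in
/-- The prime sum over a set of primes. -/
noncomputable def ps (P : Set (Pr F)) (s : ℝ) : ℝ :=
  ∑' q : Pr F, if q ∈ P then (Ideal.absNorm q.asIdeal : ℝ) ^ (-s) else 0

/-- The primes of `T` generate the narrow ray class group. -/
def RayTriv (S : Finset (Pr F)) (N : ℕ) (T : Finset (Pr F)) : Prop :=
  ∀ D : Dv F, ∃ b : F, Ray S N b ∧ Pos b ∧ ∀ q, q ∉ S → q ∉ T → og q b = D q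

theorem Ray.og_eq {S : Finset (Pr F)} {N : ℕ} {a : F} (h : Ray S N a) {q : Pr F} (hq : q ∈ S) :
    og q a = 0 := by
  rcases mem_pw_iff.1 (h.2 q hq) with h1 | h1
  · rw [sub_eq_zero.1 h1, og, ord_one]
  · by_cases h0 : a - 1 = 0
    · rw [sub_eq_zero.1 h0, og, ord_one]
    · have := (ord_add_of_lt (w := q.valuation F) one_ne_zero h0 (by rw [ord_one]; omega)).2
      rwa [add_sub_cancel, ord_one] at this

theorem pw_mul {k : Type*} [Field k] {w : Valuation k (WithZero (Multiplicative ℤ))} {i j : ℤ}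
    {x y : k} (hx : x ∈ pw w i) (hy : y ∈ pw w j) : x * y ∈ pw w (i + j) := by
  rw [mem_pw] at *
  rw [map_mul, neg_add, WithZero.exp_add]
  exact mul_le_mul' hx hy

theorem Ray.one (S : Finset (Pr F)) (N : ℕ) : Ray S N (1 : F) :=
  ⟨one_ne_zero, fun q _ => by simp⟩

theorem Ray.mul {S : Finset (Pr F)} {N : ℕ} {a b : F} (ha : Ray S N a) (hb : Ray S N b) :
    Ray S N (a * b) := by
  refine ⟨mul_ne_zero ha.1 hb.1, fun q hq => ?_⟩
  have h1 : b ∈ pw (q.valuation F) 0 := ComplAux.mem_pw_zero.2 (hb.og_eq hq).ge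
  have h2 := pw_mul (ha.2 q hq) h1
  rw [add_zero] at h2
  have h3 := add_mem h2 (hb.2 q hq)
  convert h3 using 1
  ring

theorem Ray.inv {S : Finset (Pr F)} {N : ℕ} {a : F} (ha : Ray S N a) : Ray S N a⁻¹ := by
  refine ⟨inv_ne_zero ha.1, fun q hq => ?_⟩
  have h1 : a⁻¹ ∈ pw (q.valuation F) 0 := ComplAux.mem_pw_zero.2 (by
    have := ha.og_eq hq
    rw [og] at this
    rw [ord_inv, this, neg_zero])
  have h2 := neg_mem (pw_mul (ha.2 q hq) h1)
  rw [add_zero] at h2
  convert h2 using 1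
  have := ha.1
  field_simp
  ring

theorem Ray.div {S : Finset (Pr F)} {N : ℕ} {a b : F} (ha : Ray S N a) (hb : Ray S N b) :
    Ray S N (a / b) := by
  rw [div_eq_mul_inv]
  exact ha.mul hb.inv

theorem Ray.mono {S S' : Finset (Pr F)} {N N' : ℕ} {a : F} (ha : Ray S' N' a) (hS : S ⊆ S')
    (hN : N ≤ N') : Ray S N a :=
  ⟨ha.1, fun q hq => ComplAux.pw_mono (by omega) (ha.2 q (hS hq))⟩

theorem WRay.mono {S S' : Finset (Pr F)} {N N' : ℕ} {c : Pr F → Γ} (h : WRay S N c) (hS : S ⊆ S')
    (hN : N ≤ N') : WRay S' N' c := fun a ha => h a (ha.mono hS hN)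

theorem NRay.mono {S S' : Finset (Pr F)} {N N' : ℕ} {c : Pr F → Γ} (h : NRay S N c) (hS : S ⊆ S')
    (hN : N ≤ N') : NRay S' N' c := fun a ha => h a (ha.mono hS hN)

theorem RayTriv.mono {S T T' : Finset (Pr F)} {N : ℕ} (h : RayTriv S N T) (hT : T ⊆ T') :
    RayTriv S N T' := fun D => by
  obtain ⟨b, h1, h2, h3⟩ := h D
  exact ⟨b, h1, h2, fun q hq hq' => h3 q hq fun h => hq' (hT h)⟩

omit [NumberField F] in
@[simp] theorem ev_zero (c : Pr F → Γ) : ev c 0 = 1 := Finsupp.prod_zero_index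

omit [NumberField F] in
theorem ev_add (c : Pr F → Γ) (D D' : Dv F) : ev c (D + D') = ev c D * ev c D' :=
  Finsupp.prod_add_index' (fun _ => zpow_zero _) fun _ _ _ => zpow_add _ _ _

omit [NumberField F] in
@[simp] theorem ev_single (c : Pr F → Γ) (q : Pr F) (n : ℤ) :
    ev c (Finsupp.single q n) = c q ^ n := Finsupp.prod_single_index (zpow_zero _)

/-- `ev c` as a homomorphism. -/
noncomputable def evH (c : Pr F → Γ) : Multiplicative (Dv F) →* Γ where
  toFun D := ev c D.toAdd
  map_one' := ev_zero c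
  map_mul' _ _ := ev_add c _ _

omit [NumberField F] in
theorem ev_neg (c : Pr F → Γ) (D : Dv F) : ev c (-D) = (ev c D)⁻¹ :=
  map_inv (evH c) (Multiplicative.ofAdd D)

omit [NumberField F] in
theorem ev_sub (c : Pr F → Γ) (D D' : Dv F) : ev c (D - D') = ev c D / ev c D' :=
  map_div (evH c) (Multiplicative.ofAdd D) (Multiplicative.ofAdd D')

omit [NumberField F] in
theorem ev_congr {c c' : Pr F → Γ} {D : Dv F} (h : ∀ q, D q ≠ 0 → c q = c' q) :
    ev c D = ev c' D :=
  Finset.prod_congr rfl fun q hq => by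
    beta_reduce
    rw [h q (Finsupp.mem_support_iff.1 hq)]

omit [NumberField F] in
theorem map_ev (θ : Γ →* Γ') (c : Pr F → Γ) (D : Dv F) :
    θ (ev c D) = ev (fun q => θ (c q)) D := by
  simp only [ev, Finsupp.prod, map_prod, map_zpow]

omit [NumberField F] in
theorem ev_eq_prod (c : Pr F → Γ) (D : Dv F) (P : Finset (Pr F)) (h : ∀ q ∉ P, D q = 0) :
    ev c D = ∏ q ∈ P, c q ^ D q :=
  Finsupp.prod_of_support_subset _ (fun q hq => by
    by_contra h1
    exact Finsupp.mem_support_iff.1 hq (h q h1)) _ fun _ _ => zpow_zero _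

omit [NumberField F] in
theorem ev_mem (c : Pr F → Γ) (D : Dv F) (A : Subgroup Γ) (h : ∀ q, D q ≠ 0 → c q ∈ A) :
    ev c D ∈ A :=
  A.prod_mem fun q hq => A.zpow_mem (h q (Finsupp.mem_support_iff.1 hq)) _

theorem WRay.congr {S : Finset (Pr F)} {N : ℕ} {c c' : Pr F → Γ} (h : WRay S N c)
    (hc : ∀ q ∉ S, c' q = c q) : WRay S N c' := fun a ha =>
  (ev_congr fun q hq => hc q fun hS => hq (ha.og_eq hS)).trans (h a ha)

end One

section Two

variable (K : Type*) [Field K] [NumberField K] (L : Type*) [Field L] [NumberField L] [Algebra K L]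

/-- The Frobenius element as a function on primes. -/
noncomputable def fr (q : Pr K) : L ≃ₐ[K] L := frob K L q.asIdeal

variable {K} in
/-- `L / K` is unramified outside `S`. -/
def UnrO (S : Finset (Pr K)) : Prop := ∀ Q : Pr L, below K Q ∉ S → eI K Q = 1

variable {K} in
/-- The real embedding `φ` does not extend to a real embedding of `L`. -/
def RamR (φ : K →+* ℝ) : Prop := ¬ ∃ ψ : L →+* ℝ, ψ.comp (algebraMap K L) = φ

variable {K} in
/-- `a` is positive at all real places that ramify in `L`. -/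
def PosR (a : K) : Prop := ∀ φ : K →+* ℝ, RamR L φ → 0 < φ a

variable {L} in
/-- The inertia degree. -/
noncomputable def fI (Q : Pr L) : ℕ := Q.asIdeal.inertiaDeg (𝓞 K)

variable {L} in
/-- The norm of a divisor. -/
noncomputable def nm (D : Dv L) : Dv K :=
  D.sum fun Q n => Finsupp.single (below K Q) ((fI K Q : ℤ) * n)

/-- The Galois group acts on primes. -/
noncomputable instance actPr : MulAction (L ≃ₐ[K] L) (Pr L) where
  smul g Q := ⟨g • Q.asIdeal, Ideal.IsPrime.smul (H := Q.isPrime) g, fun h => Q.ne_bot (by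
    have := congrArg (g⁻¹ • ·) h
    simpa [Ideal.smul_bot] using this)⟩
  one_smul Q := HeightOneSpectrum.ext (one_smul _ Q.asIdeal)
  mul_smul g h Q := HeightOneSpectrum.ext (mul_smul g h Q.asIdeal)

omit [NumberField K] [NumberField L] in
variable {K L} in
theorem smul_asIdeal (g : L ≃ₐ[K] L) (Q : Pr L) : (g • Q).asIdeal = g • Q.asIdeal := rfl

variable {K} in
/-- The subgroup generated by ray divisors, norms and primes of `S`. -/
noncomputable def NN (S : Finset (Pr K)) (N : ℕ) : AddSubgroup (Dv K) :=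
  AddSubgroup.closure ({D | ∃ a : K, Ray S N a ∧ PosR L a ∧ dv a = D} ∪
    {D | ∃ (q : Pr K) (k : ℤ), (q ∈ S ∨ fr K L q ^ k = 1) ∧ Finsupp.single q k = D})

end Two

section Coh

variable (G : Type*) [Group G] [Fintype G] {W : Type*} [CommGroup W] [MulDistribMulAction G W]

/-- The norm map of a group action. -/
noncomputable def nrm : W →* W := ∏ g : G, MulDistribMulAction.toMonoidHom W g

theorem nrm_apply (x : W) : nrm G x = ∏ g : G, g • x := by
  simp [nrm]

/-- The order of the zeroth Tate cohomology group of a stable subgroup (zero if infinite). -/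
noncomputable def hz (U : Subgroup W) : ℕ := (U.map (nrm G)).relIndex (U ⊓ FixedPoints.subgroup G W)

end Coh

/-- The index `(U ∩ ker g : f U)`. -/
noncomputable def hi {W : Type*} [AddCommGroup W] (f g : W →+ W) (U : AddSubgroup W) : ℕ :=
  (U.map f).relIndex (U ⊓ g.ker)

end Pool.Agent.Stark.AR
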