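import Pool.Agent.Lib.MP_ca56d1_nt.AR.St

/-! The second inequality and the cyclic case of the reciprocity law. -/

namespace Pool.Agent.Stark.AR

open NumberField IsDedekindDomain StarkStmt Filter Topology
open scoped IsMulCommutative Classical

namespace SecAux

theorem graph {Γ G : Type} [Group Γ] [Group G] [Finite Γ] [Finite G] (A : Subgroup (Γ × G))
    (hs : ∀ g : G, ∃ x ∈ A, x.2 = g) (hc : Nat.card A ≤ Nat.card G) :
    ∃ θ : G →* Γ, ∀ x ∈ A, θ x.2 = x.1 := by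
  have h1 : Function.Bijective ((MonoidHom.snd Γ G).comp A.subtype) :=
    Function.Surjective.bijective_of_nat_card_le
      (fun g => (hs g).elim fun x hx => ⟨⟨x, hx.1⟩, hx.2⟩) hc
  refine ⟨((MonoidHom.fst Γ G).comp A.subtype).comp
    (MulEquiv.ofBijective _ h1).symm.toMonoidHom, fun x hx => ?_⟩
  have h2 : (MulEquiv.ofBijective _ h1).symm x.2 = ⟨x, hx⟩ :=
    (MulEquiv.symm_apply_eq _).2 rfl
  change ((MulEquiv.ofBijective _ h1).symm x.2).1.1 = x.1
  rw [h2]

theorem log_top : Tendsto (fun s : ℝ => Real.log (1 / (s - 1))) (𝓝[>] 1) atTop := by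
  refine Real.tendsto_log_atTop.comp ?_
  simp only [one_div]
  refine tendsto_inv_nhdsGT_zero.comp (tendsto_nhdsWithin_iff.2 ⟨?_, ?_⟩)
  · have h : Tendsto (fun s : ℝ => s - 1) (𝓝 1) (𝓝 (1 - 1)) :=
      (continuous_sub_right 1).tendsto 1
    rw [sub_self] at h
    exact h.mono_left nhdsWithin_le_nhds
  · exact eventually_nhdsWithin_of_forall fun s hs => Set.mem_Ioi.2 (sub_pos.2 (Set.mem_Ioi.1 hs))

theorem le_of_lim {f : ℝ → ℝ} {m n : ℕ} {C : ℝ} (hn : n ≠ 0)
    (h1 : Tendsto (fun s => f s / Real.log (1 / (s - 1))) (𝓝[>] 1) (𝓝 (1 / n)))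
    (h2 : ∀ᶠ s : ℝ in 𝓝[>] 1, m * f s ≤ Real.log (1 / (s - 1)) + C) : m ≤ n := by
  have h3 := (log_top.const_div_atTop C).const_add 1
  have h4 : (m : ℝ) * (1 / n) ≤ 1 + 0 := by
    refine le_of_tendsto_of_tendsto (h1.const_mul (m : ℝ)) h3 ?_
    filter_upwards [h2, log_top.eventually_gt_atTop 0] with s hs h0
    rw [← mul_div_assoc, div_le_iff₀ h0, add_mul, one_mul, div_mul_cancel₀ _ h0.ne']
    exact hs
  have h5 : (0 : ℝ) < n := Nat.cast_pos.2 (Nat.pos_of_ne_zero hn)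
  rw [add_zero, mul_one_div, div_le_one h5] at h4
  exact_mod_cast h4

theorem ev_cls {F : Type} [Field F] [NumberField F] (A : AddSubgroup (Dv F)) (D : Dv F) :
    ev (fun q => Multiplicative.ofAdd (QuotientAddGroup.mk' A (Finsupp.single q 1))) D =
      Multiplicative.ofAdd (QuotientAddGroup.mk' A D) := by
  induction D using Finsupp.induction_linear with
  | zero => rw [ev_zero, map_zero, ofAdd_zero]
  | add D D' h h' => rw [ev_add, h, h', map_add, ofAdd_add]
  | single q n => rw [ev_single, ← ofAdd_zsmul, ← map_zsmul, Finsupp.smul_single, smul_eq_mul,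
      mul_one]

end SecAux

open SecAux

theorem sec (h1 : DenA) (h2 : SplA) : SecA := by
  intro K L _ _ _ _ _ hab S N H Γ _ _ d hU hf hd hH
  set e : Pr K → Γ × ((L ≃ₐ[K] L) ⧸ H) := fun q => (d q, QuotientGroup.mk' H (fr K L q)) with he
  set A := Subgroup.closure (e '' {q | q ∉ S}) with hA
  have hm : ∀ q ∉ S, e q ∈ A := fun q hq => Subgroup.subset_closure ⟨q, hq, rfl⟩
  set c : Pr K → A := fun q => if h : q ∈ S then 1 else ⟨e q, hm q h⟩ with hc
  have hc1 : ∀ q ∉ S, (c q).1 = e q := fun q hq => by simp only [hc, dif_neg hq]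
  have hw : WRay S N c := fun a ha => by
    refine Subtype.ext ?_
    have h3 : (ev c (dv a)).1 = ev e (dv a) :=
      (map_ev A.subtype c _).trans (ev_congr fun q hq => hc1 q fun hS => hq (ha.og_eq hS))
    rw [h3]
    refine Prod.ext ((map_ev (MonoidHom.fst _ _) e _).trans (hd a ha)) ?_
    refine (map_ev (MonoidHom.snd _ _) e _).trans ?_
    refine (map_ev (QuotientGroup.mk' H) (fr K L) _).symm.trans ?_
    rw [hf a ha, map_one]
    rfl
  have ht : Subgroup.closure (c '' {q | q ∉ S}) = ⊤ := by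
    rw [eq_top_iff, ← Subgroup.closure_closure_coe_preimage (k := e '' {q | q ∉ S})]
    refine Subgroup.closure_mono ?_
    rintro x ⟨q, hq, hx⟩
    exact ⟨q, hq, Subtype.ext ((hc1 q hq).trans hx)⟩
  obtain ⟨C, hC⟩ := h1 K S N c hw ht
  have h4 : {q | q ∉ S ∧ c q = 1} = {q | q ∉ S ∧ fr K L q ∈ H} := by
    ext q
    refine and_congr_right fun hq => ?_
    rw [Subtype.ext_iff, hc1 q hq]
    refine ⟨fun h => (QuotientGroup.eq_one_iff _).1 (congrArg Prod.snd h), fun h => ?_⟩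
    exact Prod.ext (hH q hq h) ((QuotientGroup.eq_one_iff _).2 h)
  rw [h4] at hC
  have h5 := le_of_lim H.index_ne_zero_of_finite ((h2 K L).lim hab S hU H) hC
  have h6 : ∀ g : L ≃ₐ[K] L, ∃ x ∈ A, x.2 = QuotientGroup.mk' H g := fun g => by
    have h7 : g ∈ Subgroup.closure (fr K L '' {q | q ∉ S ∧ fr K L q ∈ (⊤ : Subgroup _)}) := by
      rw [(h2 K L).gen hab S hU ⊤]
      trivial
    induction h7 using Subgroup.closure_induction with
    | mem x hx =>
      obtain ⟨q, hq, rfl⟩ := hx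
      exact ⟨e q, hm q hq.1, rfl⟩
    | one => exact ⟨1, one_mem _, (map_one _).symm⟩
    | mul x y _ _ hx hy =>
      obtain ⟨u, hu, hx⟩ := hx
      obtain ⟨v, hv, hy⟩ := hy
      exact ⟨u * v, mul_mem hu hv, by rw [map_mul, ← hx, ← hy]; rfl⟩
    | inv x _ hx =>
      obtain ⟨u, hu, hx⟩ := hx
      exact ⟨u⁻¹, inv_mem hu, by rw [map_inv, ← hx]; rfl⟩
  obtain ⟨θ, hθ⟩ := graph A (fun g => by
    obtain ⟨g, rfl⟩ := QuotientGroup.mk'_surjective H g
    exact h6 g) h5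
  refine ⟨θ.comp (QuotientGroup.mk' H), fun q hq => hθ (e q) (hm q hq), fun h hh => ?_⟩
  have h8 : QuotientGroup.mk' H h = 1 := (QuotientGroup.eq_one_iff _).2 hh
  rw [MonoidHom.comp_apply, h8, map_one]

theorem caseS (h1 : GrpSt) (h2 : SplA) (h3 : FirstA) (h4 : PairA) : CaseA := by
  intro K L _ _ _ _ _ hab p S hp hcy hpg hU
  rcases subsingleton_or_nontrivial (L ≃ₐ[K] L) with hs | hs
  · exact ⟨0, fun _ _ _ => Subsingleton.elim _ _⟩
  obtain ⟨σ, ⟨p0, hp0, hσ⟩, hgen⟩ := h1.gen p _ hp hpg ((h2 K L).gen hab S hU ⊤)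
  obtain ⟨N, hN⟩ := h3 K L hab hcy S hU
  refine ⟨N, fun a ha hpos => ?_⟩
  have hfin : Finite (Dv K ⧸ NN L S N) :=
    Nat.finite_of_card_ne_zero (lt_of_lt_of_le Nat.card_pos hN).ne'
  set c : Pr K → Multiplicative (Dv K ⧸ NN L S N) := fun q =>
    Multiplicative.ofAdd (QuotientAddGroup.mk' (NN L S N) (Finsupp.single q 1)) with hc
  have e1 : ∀ D ∈ NN L S N, ev c D = 1 := fun D hD => by
    rw [hc, ev_cls, QuotientAddGroup.mk'_apply, (QuotientAddGroup.eq_zero_iff _).2 hD, ofAdd_zero]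
  have e2 : ∀ b : K, Ray S N b → PosR L b → ev c (dv b) = 1 := fun b hb hb' =>
    e1 _ (AddSubgroup.subset_closure (Or.inl ⟨b, hb, hb', rfl⟩))
  have e3 : ∀ (q : Pr K) (k : ℤ), q ∈ S ∨ fr K L q ^ k = 1 → c q ^ k = 1 := fun q k h => by
    rw [← ev_single]
    exact e1 _ (AddSubgroup.subset_closure (Or.inr ⟨q, k, h, rfl⟩))
  have e4 : ∀ (q : Pr K) (k : ℕ), fr K L q ^ k = 1 → c q ^ k = 1 := fun q k h => by
    rw [← zpow_natCast] at h ⊢
    exact e3 q k (Or.inr h)
  have e5 : ∀ q ∉ S, ∀ j : ℕ, fr K L q = σ ^ j → c q = c p0 ^ j := fun q hq j hj => by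
    obtain ⟨γ, hγ⟩ := h4 K L hab σ S N c ![p0, q] hU (fun b hb hb' => e2 b hb fun φ _ => hb' φ)
      (fun q _ => e4 q) (fun i => by
        fin_cases i
        · exact hp0.1
        · exact hq)
    have h5 : c p0 = γ ^ 1 := hγ 0 1 (by rw [pow_one]; exact hσ)
    have h6 : c q = γ ^ j := hγ 1 j hj
    rw [h5, h6, pow_one]
  have e6 : ∀ q : Pr K, ∃ j : ℕ, fr K L q = σ ^ j := fun q =>
    ((mem_powers_iff_mem_zpowers.2 (hgen (fr K L q))).imp fun _ h => h.symm)
  choose j hj using e6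
  have e7 : ∀ x, x ∈ Subgroup.zpowers (c p0) := fun x => by
    obtain ⟨D, hD⟩ := QuotientAddGroup.mk'_surjective (NN L S N) x.toAdd
    have h5 : ev c D = x := by rw [hc, ev_cls, hD, ofAdd_toAdd]
    rw [← h5]
    refine ev_mem c D _ fun q _ => ?_
    by_cases hq : q ∈ S
    · have h6 := e3 q 1 (Or.inl hq)
      rw [zpow_one] at h6
      rw [h6]
      exact one_mem _
    · rw [e5 q hq _ (hj q)]
      exact pow_mem (Subgroup.mem_zpowers _) _
  have e8 : orderOf (c p0) = orderOf σ := by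
    refine Nat.le_antisymm (Nat.le_of_dvd (orderOf_pos σ) (orderOf_dvd_of_pow_eq_one ?_)) ?_
    · exact e4 p0 _ (by rw [hσ, pow_orderOf_eq_one])
    · rw [orderOf_eq_card_of_forall_mem_zpowers hgen, orderOf_eq_card_of_forall_mem_zpowers e7]
      exact hN
  set J : Pr K → Multiplicative ℤ := fun q => Multiplicative.ofAdd (j q : ℤ) with hJ
  have e9 : ev (fr K L) (dv a) = σ ^ (ev J (dv a)).toAdd := by
    refine Eq.trans (ev_congr fun q _ => ?_) (map_ev (zpowersHom _ σ) J _).symm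
    rw [hj q, ← zpow_natCast]
    rfl
  have e10 : ev c (dv a) = c p0 ^ (ev J (dv a)).toAdd := by
    refine Eq.trans (ev_congr fun q hq => ?_) (map_ev (zpowersHom _ (c p0)) J _).symm
    rw [e5 q (fun hS => hq (ha.og_eq hS)) _ (hj q), ← zpow_natCast]
    rfl
  rw [e9, ← orderOf_dvd_iff_zpow_eq_one, ← e8, orderOf_dvd_iff_zpow_eq_one, ← e10]
  exact e2 a ha hpos

end Pool.Agent.Stark.AR
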