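import Pool.Agent.Lib.MP_ca56d1_nt.AR.St
import Pool.Agent.Lib.MP_ca56d1_nt.ZetaZero1

/-! Unfolding of a weighted theta series and sums over residue classes. -/

namespace Pool.Agent.Stark.AR

open NumberField IsDedekindDomain StarkStmt Complex MeasureTheory ZetaZeroAux
open scoped Classical

theorem unfW : UnfWSt := by
  intro ι κ A _ _ _ r B pl m l e J x f ω cf s hm hn hl hJ hJ0 hx hf hc hω hs hS
  have : Countable (A × (Fin r → ℤ)) := f.injective.countable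
  have := vol_inv (r := r)
  have hI := fun a => phi_mellin m hm l hl e J hJ hJ0 (x a) (hx a) s hs
  have hR := fun a => (phi_mellin m hm l hl e J hJ hJ0 (x a) (hx a) s.re hs)
  let G : A × (Fin r → ℤ) → (Fin r → ℝ) × ℝ → ℂ := fun q p => phiI m l (x q.1) s (sh q.2 p)
  let F : A × (Fin r → ℤ) → (Fin r → ℝ) × ℝ → ℂ := fun q p => cf q.1 * G q p
  have h0 : ∀ q, Integrable (G q) (volume.restrict (box r ×ˢ Set.univ)) := fun q =>
    ((hI q.1).1.comp_add_right _).integrableOn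
  have h1 : ∀ q, Integrable (F q) (volume.restrict (box r ×ˢ Set.univ)) := fun q =>
    (h0 q).const_mul _
  have h2' : Summable fun q => ∫ p in box r ×ˢ Set.univ, ‖G q p‖ := by
    refine (summable_prod_of_nonneg fun q => integral_nonneg fun _ => norm_nonneg _).2
      ⟨fun a => (unfold_box (hI a).1.norm).summable, ?_⟩
    refine (hS.mul_left ((∏ w, Gammaℝ (m w * s.re) / 2) / J).re).congr fun a => ?_
    rw [(unfold_box (hI a).1.norm).tsum_eq]
    simp_rw [norm_phiI]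
    have := integral_re (hR a).1
    simp only [RCLike.re_to_complex] at this
    rw [this, (hR a).2, ← ofReal_neg, ← ofReal_cpow (Finset.prod_nonneg fun w _ =>
      pow_nonneg (hx a w).le _), re_mul_ofReal]
  have h2 : Summable fun q => ∫ p in box r ×ˢ Set.univ, ‖F q p‖ :=
    h2'.of_nonneg_of_le (fun q => integral_nonneg fun _ => norm_nonneg _) fun q =>
      integral_mono (h1 q).norm (h0 q).norm fun p => by
        change ‖cf q.1 * G q p‖ ≤ ‖G q p‖
        rw [norm_mul]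
        exact mul_le_of_le_one_left (norm_nonneg _) (hc _)
  have h3 : ∀ p : (Fin r → ℝ) × ℝ, ∑' q, F q p
      = (∑' k : {k : ι → ℤ // k ≠ 0}, ω k.1 * (Real.exp (-Real.pi *
        ∑ i, Real.exp (2 * (∑ j, p.1 j * l j (pl i) + p.2)) * lpt B k.1 i ^ 2) : ℝ)) *
        cexp (Fintype.card ι * s * p.2) := by
    intro p
    rw [← tsum_mul_right, ← f.tsum_eq]
    refine tsum_congr fun ⟨a, k⟩ => ?_
    rw [hf a k fun w => Real.exp (2 * (∑ j, p.1 j * l j w + p.2)), hω, mul_assoc]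
    simp only [F, G, phiI, sh, hn, Prod.fst_add, Prod.snd_add, add_zero, Pi.add_apply]
    congr 6
    ext w
    rw [mul_pow, ← mul_assoc, ← Real.exp_nat_mul, ← Real.exp_add]
    simp only [add_mul, Finset.sum_add_distrib]
    congr 2
    push_cast
    ring
  have h4 := hasSum_integral_of_summable_integral_norm h1 h2
  have h5 := (h4.prod_fiberwise fun a => unfold_box ((hI a).1.const_mul (cf a))).tsum_eq
  have h6 := integrable_tsum h1 h2
  have h7 : (volume : Measure ((Fin r → ℝ) × ℝ)).restrict (box r ×ˢ Set.univ)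
      = (volume.restrict (box r)).prod volume := by
    rw [Measure.volume_eq_prod, ← Measure.prod_restrict, Measure.restrict_univ]
  rw [h7] at h5 h6
  rw [integral_prod_symm _ h6] at h5
  simp_rw [integral_const_mul, (hI _).2, h3, integral_mul_const] at h5
  rw [← tsum_mul_left]
  simp_rw [mul_left_comm _ (cf _)]
  rw [h5]
  rfl

namespace UnfWAux

variable {R : Type} [CommRing R]

theorem out_mk (𝔫 : Ideal R) (w : R → ℂ) (h : ∀ x, ∀ y ∈ 𝔫, w (x + y) = w x) (x : R) :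
    w (Quotient.out (Ideal.Quotient.mk 𝔫 x)) = w x := by
  have h1 : Quotient.out (Ideal.Quotient.mk 𝔫 x) - x ∈ 𝔫 :=
    Ideal.Quotient.eq.1 (Ideal.Quotient.mk_out _)
  rw [← h x _ h1, add_sub_cancel]

theorem crt (𝔟 𝔪 𝔫 : Ideal R) [Fintype (R ⧸ 𝔫)] [Fintype (R ⧸ 𝔟)] (w : R → ℂ) (h1 : 𝔫 ≤ 𝔟)
    (h2 : 𝔫 ≤ 𝔪) (hc : IsCoprime 𝔟 𝔪) (hw : ∀ x, ∀ y ∈ 𝔪, w (x + y) = w x) :
    (Fintype.card (R ⧸ 𝔟) : ℂ) *
      ∑ x : R ⧸ 𝔫, (if Quotient.out x ∈ 𝔟 then w (Quotient.out x) else 0) =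
      ∑ x : R ⧸ 𝔫, w (Quotient.out x) := by
  obtain ⟨b, hb, c, hc', hbc⟩ := Ideal.isCoprime_iff_exists.1 hc
  let v : R → ℂ := fun x => if x ∈ 𝔟 then w x else 0
  have hv : ∀ x, ∀ y ∈ 𝔫, v (x + y) = v x := fun x y hy => by
    simp only [v, hw x y (h2 hy), Ideal.add_mem_iff_left _ (h1 hy)]
  have h3 : ∀ X : R ⧸ 𝔫, w (Quotient.out X) =
      ∑ y : R ⧸ 𝔟, v (Quotient.out (X - Ideal.Quotient.mk 𝔫 (Quotient.out y * c))) := fun X => by
    have h4 : ∀ y : R ⧸ 𝔟, v (Quotient.out (X - Ideal.Quotient.mk 𝔫 (Quotient.out y * c))) =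
        if Ideal.Quotient.mk 𝔟 (Quotient.out X) = y then w (Quotient.out X) else 0 := fun y => by
      have h5 : X - Ideal.Quotient.mk 𝔫 (Quotient.out y * c) =
          Ideal.Quotient.mk 𝔫 (Quotient.out X - Quotient.out y * c) := by
        rw [map_sub, Ideal.Quotient.mk_out]
      have h6 : Quotient.out X - Quotient.out y * c =
          Quotient.out X - Quotient.out y + Quotient.out y * b := by
        linear_combination (-Quotient.out y) * hbc
      have h7 : Quotient.out X - Quotient.out y * c ∈ 𝔟 ↔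
          Ideal.Quotient.mk 𝔟 (Quotient.out X) = y := by
        rw [h6, Ideal.add_mem_iff_left _ (𝔟.mul_mem_left _ hb), ← Ideal.Quotient.eq,
          Ideal.Quotient.mk_out]
      rw [h5, out_mk 𝔫 v hv]
      simp only [v, h7]
      rw [sub_eq_add_neg, hw _ _ (neg_mem (𝔪.mul_mem_left _ hc'))]
    simp only [h4, Finset.sum_ite_eq, Finset.mem_univ, if_true]
  rw [Finset.sum_congr rfl fun X _ => h3 X, Finset.sum_comm]
  have h8 : ∀ t : R ⧸ 𝔫, ∑ X : R ⧸ 𝔫, v (Quotient.out (X - t)) = ∑ X : R ⧸ 𝔫, v (Quotient.out X) :=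
    fun t => Equiv.sum_comp (Equiv.subRight t) fun X => v (Quotient.out X)
  simp only [h8, Finset.sum_const, Finset.card_univ, nsmul_eq_mul]
  rfl

theorem zero (𝔪 𝔫 : Ideal R) [Fintype (R ⧸ 𝔫)] (w : R → ℂ) (u : R) (z : ℂ) (h2 : 𝔫 ≤ 𝔪)
    (hc : IsCoprime (Ideal.span {u}) 𝔪) (hw : ∀ x, ∀ y ∈ 𝔪, w (x + y) = w x)
    (hu : ∀ x, w (u * x) = z * w x) (hz : z ≠ 1) : ∑ x : R ⧸ 𝔫, w (Quotient.out x) = 0 := by
  obtain ⟨b, hb, c, hc', hbc⟩ := Ideal.isCoprime_iff_exists.1 hc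
  obtain ⟨a, rfl⟩ := Ideal.mem_span_singleton'.1 hb
  have h1 : Ideal.Quotient.mk 𝔫 a * Ideal.Quotient.mk 𝔫 u + Ideal.Quotient.mk 𝔫 c = 1 := by
    rw [← map_mul, ← map_add, hbc, map_one]
  set a' := Ideal.Quotient.mk 𝔫 a
  set u' := Ideal.Quotient.mk 𝔫 u with hu'
  set c' := Ideal.Quotient.mk 𝔫 c with hc''
  let e : (R ⧸ 𝔫) × (R ⧸ 𝔫) ≃ (R ⧸ 𝔫) × (R ⧸ 𝔫) :=
    { toFun := fun p => (u' * p.1 + c' * p.2, -p.1 + a' * p.2)
      invFun := fun p => (a' * p.1 - c' * p.2, p.1 + u' * p.2)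
      left_inv := fun p => Prod.ext (by linear_combination p.1 * h1)
        (by linear_combination p.2 * h1)
      right_inv := fun p => Prod.ext (by linear_combination p.1 * h1)
        (by linear_combination p.2 * h1) }
  have h3 := Equiv.sum_comp e fun p => w (Quotient.out p.1)
  have h4 : ∀ p, w (Quotient.out (e p).1) = z * w (Quotient.out p.1) := fun p => by
    have h5 : (e p).1 = Ideal.Quotient.mk 𝔫 (u * Quotient.out p.1 + c * Quotient.out p.2) := by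
      rw [map_add, map_mul, map_mul, Ideal.Quotient.mk_out, Ideal.Quotient.mk_out]
      rfl
    rw [h5, out_mk 𝔫 w fun x y hy => hw x y (h2 hy), hw _ _ (𝔪.mul_mem_right _ hc'), hu]
  simp only [h4, Fintype.sum_prod_type, Finset.sum_const, Finset.card_univ, nsmul_eq_mul,
    ← Finset.mul_sum] at h3
  have h6 : (Fintype.card (R ⧸ 𝔫) : ℂ) ≠ 0 := Nat.cast_ne_zero.2 Fintype.card_ne_zero
  rw [mul_left_comm] at h3
  have h7 := mul_left_cancel₀ h6 h3
  exact (mul_eq_zero.1 (by linear_combination h7 : (z - 1) * ∑ x : R ⧸ 𝔫, w (Quotient.out x) = 0)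
    ).resolve_left (sub_ne_zero.2 hz)

end UnfWAux

theorem mean : MeanA := fun F _ _ => by
  constructor
  · intro 𝔟 𝔪 𝔫 w h0 h1 h2 hc hw
    have := Ideal.finiteQuotientOfFreeOfNeBot 𝔫 h0
    have := Ideal.finiteQuotientOfFreeOfNeBot 𝔟 fun h => h0 (le_bot_iff.1 (h ▸ h1))
    have := Fintype.ofFinite (𝓞 F ⧸ 𝔫)
    have := Fintype.ofFinite (𝓞 F ⧸ 𝔟)
    rw [rs, rs, finsum_eq_sum_of_fintype, finsum_eq_sum_of_fintype, Ideal.absNorm_apply,
      Submodule.cardQuot_apply, Nat.card_eq_fintype_card]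
    exact UnfWAux.crt 𝔟 𝔪 𝔫 w h1 h2 hc hw
  · intro 𝔪 𝔫 w u z h0 h2 hc hw hu hz
    have := Ideal.finiteQuotientOfFreeOfNeBot 𝔫 h0
    have := Fintype.ofFinite (𝓞 F ⧸ 𝔫)
    rw [rs, finsum_eq_sum_of_fintype]
    exact UnfWAux.zero 𝔪 𝔫 w u z h2 hc hw hu hz

end Pool.Agent.Stark.AR
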