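import Pool.Agent.Lib.MP_ca56d1_nt.AR.St

/-! Herbrand's lemma and the cohomology of permutation lattices. -/

namespace Pool.Agent.Stark.AR

open scoped Classical

namespace HerbAux

theorem split {W : Type} [AddCommGroup W] (f : W →+ W) (U U' : AddSubgroup W) (h : U' ≤ U) :
    (U' ⊓ f.ker).relIndex (U ⊓ f.ker) * (U'.map f).relIndex (U.map f) = U'.relIndex U := by
  have h1 := AddSubgroup.relIndex_inf_mul_relIndex U' ((U'.map f).comap f) U
  rw [inf_of_le_left (AddSubgroup.le_comap_map f U'), AddSubgroup.relIndex_comap,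
    AddSubgroup.comap_map_eq, sup_inf_assoc_of_le _ h, AddSubgroup.relIndex_sup_left] at h1
  rw [← h1, ← AddSubgroup.inf_relIndex_right U' (f.ker ⊓ U), inf_comm U f.ker,
    ← AddSubgroup.inf_relIndex_right (U' ⊓ f.ker) (f.ker ⊓ U), inf_assoc, ← inf_assoc f.ker,
    inf_idem]

theorem tower {W : Type} [AddCommGroup W] (f g : W →+ W) (U U' : AddSubgroup W) (h : U' ≤ U)
    (hgf : ∀ x, g (f x) = 0) (hU : ∀ x ∈ U, f x ∈ U) (hU' : ∀ x ∈ U', f x ∈ U') :
    (U'.map f).relIndex (U.map f) * hi f g U =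
      hi f g U' * (U' ⊓ g.ker).relIndex (U ⊓ g.ker) := by
  have a1 : ∀ V : AddSubgroup W, (∀ x ∈ V, f x ∈ V) → V.map f ≤ V ⊓ g.ker := by
    rintro V hV _ ⟨x, hx, rfl⟩
    exact ⟨hV x hx, hgf x⟩
  unfold hi
  rw [AddSubgroup.relIndex_mul_relIndex _ _ _ (AddSubgroup.map_mono h) (a1 U hU),
    AddSubgroup.relIndex_mul_relIndex _ _ _ (a1 U' hU') (inf_le_inf_right _ h)]

theorem card_sum {G X : Type} [Group G] [Fintype G] [MulAction G X] (x : X) (h0 : G) (w : ℤ) :
    ∑ h : G, (if h⁻¹ • x = h0 • x then w else 0) = Nat.card (MulAction.stabilizer G x) * w := by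
  rw [← Equiv.sum_comp (Equiv.mulRight h0⁻¹)]
  have e : ∀ h : G, ((Equiv.mulRight h0⁻¹) h)⁻¹ • x = h0 • x ↔ h ∈ MulAction.stabilizer G x := by
    intro h
    rw [Equiv.coe_mulRight, mul_inv_rev, inv_inv, mul_smul, smul_left_cancel_iff,
      ← MulAction.mem_stabilizer_iff, inv_mem_iff]
  simp only [e]
  rw [← Finset.sum_filter, Finset.sum_const, nsmul_eq_mul, Nat.card_eq_fintype_card,
    Fintype.card_subtype]

end HerbAux

open HerbAux in
theorem herb : HerbSt where
  fin f g U U' h h0 hfg hgf hU hU' := by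
    have a1 := split f U U' h
    have a2 := split g U U' h
    have a3 := tower f g U U' h hgf (fun x hx => (hU x hx).1) fun x hx => (hU' x hx).1
    have a4 := tower g f U U' h hfg (fun x hx => (hU x hx).2) fun x hx => (hU' x hx).2
    refine mul_left_cancel₀ h0 ?_
    nth_rewrite 1 [← a1]
    rw [← a2]
    calc _ = ((U'.map f).relIndex (U.map f) * hi f g U) *
          (hi g f U' * (U' ⊓ f.ker).relIndex (U ⊓ f.ker)) := by ring
      _ = (hi f g U' * (U' ⊓ g.ker).relIndex (U ⊓ g.ker)) *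
          ((U'.map g).relIndex (U.map g) * hi g f U) := by rw [a3, a4]
      _ = _ := by ring
  map φ f' g' f g hφ hf hg := by
    unfold hi
    rw [← AddSubgroup.relIndex_map_map_of_injective _ _ hφ]
    congr 1
    · ext y
      constructor
      · rintro ⟨_, ⟨x, rfl⟩, rfl⟩
        exact ⟨f' x, ⟨x, trivial, rfl⟩, hf x⟩
      · rintro ⟨_, ⟨x, -, rfl⟩, rfl⟩
        exact ⟨φ x, ⟨x, rfl⟩, (hf x).symm⟩
    · ext y
      constructor
      · rintro ⟨⟨x, rfl⟩, hx⟩
        refine ⟨x, ⟨trivial, hφ ?_⟩, rfl⟩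
        rw [hg x, map_zero]
        exact hx
      · rintro ⟨x, ⟨-, hx⟩, rfl⟩
        refine ⟨⟨x, rfl⟩, ?_⟩
        have hx' : g' x = 0 := hx
        change g (φ x) = 0
        rw [← hg x, hx', map_zero]

open HerbAux in
theorem perm : PermSt := by
  intro G X Y _ _ _ _ _ σ π s f g hσ hπ horb hs hf hg
  obtain ⟨sec, hsec⟩ := hπ.hasRightInverse
  let ψ : (Y → ℤ) →+ (X → ℤ) :=
    { toFun := fun v x => v (π x), map_zero' := rfl, map_add' := fun _ _ => rfl }
  have hψ : Function.Injective ψ := fun v v' h => funext fun y => by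
    have h1 : v (π (sec y)) = v' (π (sec y)) := congrFun h (sec y)
    rwa [hsec y] at h1
  have hπ' : ∀ (h : G) x, π (h • x) = π x := fun h x => ((horb x _).2 ⟨h, rfl⟩).symm
  have e1 : (⊤ : AddSubgroup (X → ℤ)) ⊓ g.ker = (⊤ : AddSubgroup (Y → ℤ)).map ψ := by
    ext u
    constructor
    · rintro ⟨-, hu⟩
      have hu' : ∀ x, u (σ⁻¹ • x) = u x := fun x => by
        have h1 : g u x = 0 := congrFun (show g u = 0 from hu) x
        rw [hg] at h1
        exact (sub_eq_zero.1 h1).symm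
      let A : Subgroup G :=
        { carrier := {h | ∀ x, u (h • x) = u x}
          one_mem' := fun x => by rw [one_smul]
          mul_mem' := fun {a b} ha hb x => by rw [mul_smul, ha, hb]
          inv_mem' := fun {a} ha x => by rw [← ha (a⁻¹ • x), smul_inv_smul] }
      have hA : σ ∈ A := A.inv_mem_iff.1 hu'
      refine ⟨fun y => u (sec y), trivial, funext fun x => ?_⟩
      obtain ⟨h, hh⟩ := (horb x (sec (π x))).1 (hsec (π x)).symm
      change u (sec (π x)) = u x
      rw [← hh]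
      exact Subgroup.zpowers_le_of_mem hA (hσ h) x
    · rintro ⟨v, -, rfl⟩
      refine ⟨trivial, funext fun x => ?_⟩
      rw [hg]
      change v (π x) - v (π (σ⁻¹ • x)) = 0
      rw [hπ', sub_self]
  have e2 : (AddSubgroup.pi Set.univ fun y => AddSubgroup.zmultiples (s y : ℤ)).map ψ ≤
      (⊤ : AddSubgroup (X → ℤ)).map f := by
    rintro _ ⟨v, hv, rfl⟩
    choose w hw using fun y => AddSubgroup.mem_zmultiples_iff.1 (hv y trivial)
    refine ⟨fun x => if x = sec (π x) then w (π x) else 0, trivial, funext fun x => ?_⟩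
    obtain ⟨h, hh⟩ := (horb x (sec (π x))).1 (hsec (π x)).symm
    rw [hf]
    simp only [hπ']
    rw [← hh, card_sum, hs]
    change _ = v (π x)
    rw [← hw, smul_eq_mul, mul_comm]
  unfold hi
  rw [e1]
  refine (AddSubgroup.relIndex_dvd_of_le_left _ e2).trans (dvd_of_eq ?_)
  rw [AddSubgroup.relIndex_map_map_of_injective _ _ hψ, AddSubgroup.relIndex_top_right,
    AddSubgroup.index_pi]
  simp [Int.index_zmultiples]

end Pool.Agent.Stark.AR
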