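import Pool.Agent.Lib.MP_ca56d1_nt.AR.Defs
import Pool.Agent.Lib.MP_ca56d1_nt.Theta
import Pool.Agent.Lib.MP_ca56d1_nt.Phi

/-! Statements of the steps of the proof of the Artin reciprocity law. -/

namespace Pool.Agent.Stark.AR

open NumberField IsDedekindDomain StarkStmt Filter Topology MeasureTheory
open scoped IsMulCommutative Classical

/-! ### Abstract algebra -/

/-- Herbrand's lemma and transfer along an injective map. -/
structure HerbSt : Prop where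
  fin : ∀ {W : Type} [AddCommGroup W] (f g : W →+ W) (U U' : AddSubgroup W), U' ≤ U →
    U'.relIndex U ≠ 0 → (∀ x, f (g x) = 0) → (∀ x, g (f x) = 0) →
    (∀ x ∈ U, f x ∈ U ∧ g x ∈ U) → (∀ x ∈ U', f x ∈ U' ∧ g x ∈ U') →
    hi f g U * hi g f U' = hi f g U' * hi g f U
  map : ∀ {P W : Type} [AddCommGroup P] [AddCommGroup W] (φ : P →+ W) (f' g' : P →+ P)
    (f g : W →+ W), Function.Injective φ → (∀ x, φ (f' x) = f (φ x)) → (∀ x, φ (g' x) = g (φ x)) →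
    hi f g φ.range = hi f' g' ⊤

/-- A lattice contains a permutation lattice of finite index. -/
def LatSt : Prop :=
  ∀ {G X M : Type} [Group G] [Fintype G] [Fintype X] [MulAction G X] [AddCommGroup M]
    [Module.Finite ℤ M] (ρ : Representation ℤ G M) (l : M →+ (X → ℝ)),
    Module.finrank ℤ M = Fintype.card X → (∀ g m x, l (ρ g m) (g • x) = l m x) →
    Submodule.span ℝ (Set.range l) = ⊤ →
    ∃ φ : (X → ℤ) →+ M, Function.Injective φ ∧ φ.range.index ≠ 0 ∧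
      ∀ (g : G) (f : X → ℤ), φ (fun x => f (g⁻¹ • x)) = ρ g (φ f)

/-- The zeroth cohomology of a permutation lattice. -/
def PermSt : Prop :=
  ∀ {G X Y : Type} [Group G] [Fintype G] [Fintype X] [MulAction G X] [Fintype Y] (σ : G)
    (π : X → Y) (s : Y → ℕ) (f g : (X → ℤ) →+ (X → ℤ)), (∀ h, h ∈ Subgroup.zpowers σ) →
    Function.Surjective π → (∀ x x', π x = π x' ↔ ∃ h : G, h • x = x') →
    (∀ x, Nat.card (MulAction.stabilizer G x) = s (π x)) →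
    (∀ u x, f u x = ∑ h : G, u (h⁻¹ • x)) → (∀ u x, g u x = u x - u (σ⁻¹ • x)) →
    hi f g ⊤ ∣ ∏ y, s y

/-- The Herbrand quotient of a group of units. -/
def HQSt : Prop :=
  ∀ {G W X Y : Type} [Group G] [Fintype G] [CommGroup W] [MulDistribMulAction G W] [Fintype X]
    [MulAction G X] [Fintype Y] (σ : G) (U : Subgroup W) [Module.Finite ℤ (Additive U)]
    (l : W → X → ℝ) (e : X → ℝ) (π : X → Y) (s : Y → ℕ), (∀ h, h ∈ Subgroup.zpowers σ) →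
    (∀ (g : G), ∀ u ∈ U, g • u ∈ U) → Module.finrank ℤ (Additive U) + 1 = Fintype.card X →
    (∀ u v, l (u * v) = l u + l v) → (∀ (g : G) u x, l (g • u) (g • x) = l u x) →
    (∀ (g : G) x, e (g • x) = e x) → Submodule.span ℝ (insert e (l '' U)) = ⊤ →
    (∀ u ∈ U, nrm G u = 1 → ∃ y ∈ U, u = y / σ • y) →
    Function.Surjective π → (∀ x x', π x = π x' ↔ ∃ h : G, h • x = x') →
    (∀ x, Nat.card (MulAction.stabilizer G x) = s (π x)) →
    hz G U ≠ 0 ∧ Fintype.card G * hz G U ≤ ∏ y, s y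

/-- Moduli with prescribed order of `a`. -/
def OrdSt : Prop :=
  ∀ a n D : ℕ, 2 ≤ a → n ≠ 0 → D ≠ 0 → ∃ m r : ℕ, 2 < m ∧ Odd r ∧ m.Coprime (D * a) ∧
    ∀ i : ℕ, a ^ i ≡ 1 [MOD m] ↔ n * r ∣ i

/-- Artin's lemma, group theoretic form. -/
def ArtLSt : Prop :=
  ∀ {G : Type} [CommGroup G] (n D : ℕ) (a : Fin 2 → ℕ) (σ : G) (φ : Fin 2 → G), n ≠ 0 → D ≠ 0 →
    (∀ i, 2 ≤ a i) → σ ^ n = 1 → (∀ i, φ i ^ n = 1) →
    ∃ (m : ℕ) (H : Fin 2 → Subgroup (G × (ZMod m)ˣ)), m ≠ 0 ∧ m.Coprime D ∧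
      (∀ i, m.Coprime (a i)) ∧ (∀ i g, (g, 1) ∈ H i → g = 1) ∧ (∀ i g, (g, -1) ∉ H i) ∧
      (∀ i, ∀ u : (ZMod m)ˣ, (u : ZMod m) = a i → (φ i, u) ∈ H i) ∧ ∃ u, ∀ i, (σ, u) ∈ H i

/-- Cyclic quotients of prime power order separate points; generators of cyclic `p`-groups. -/
structure GrpSt : Prop where
  sep : ∀ {G : Type} [CommGroup G] [Finite G] (g : G), g ≠ 1 → ∃ (H : Subgroup G) (p : ℕ),
    p.Prime ∧ g ∉ H ∧ IsCyclic (G ⧸ H) ∧ IsPGroup p (G ⧸ H)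
  gen : ∀ {G : Type} [Group G] [Finite G] [IsCyclic G] [Nontrivial G] (p : ℕ) (X : Set G),
    p.Prime → IsPGroup p G → Subgroup.closure X = ⊤ → ∃ σ ∈ X, ∀ h, h ∈ Subgroup.zpowers σ

/-! ### One number field -/

section One

variable (F : Type) [Field F] [NumberField F]

/-- Finiteness of ray class groups and approximation with signs. -/
structure RayTSt : Prop where
  triv : ∀ (S : Finset (Pr F)) (N : ℕ), ∃ T : Finset (Pr F), Disjoint T S ∧ RayTriv S N T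
  sgn : ∀ (S : Finset (Pr F)) (N : ℕ) (ε : (F →+* ℝ) → Prop), ∃ a : F, Ray S N a ∧
    ∀ φ : F →+* ℝ, 0 < φ a ↔ ε φ
  pow : ∀ (S : Finset (Pr F)) (N : ℕ) (x : F), x ≠ 0 → (∀ q ∈ S, og q x = 0) →
    ∃ k : ℕ, k ≠ 0 ∧ Ray S N (x ^ k)

/-- The logarithmic embedding of a subgroup of finite index of the `T`-units. -/
def SpanSt : Prop :=
  ∀ (T : Finset (Pr F)) (U : Subgroup Fˣ), U ≤ SU T → (∀ x ∈ SU T, ∃ k : ℕ, k ≠ 0 ∧ x ^ k ∈ U) →
    Module.Finite ℤ (Additive U) ∧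
    Module.finrank ℤ (Additive U) + 1 = Fintype.card (InfinitePlace F) + T.card ∧
    Submodule.span ℝ (insert (Sum.elim (fun _ => 1) fun _ => 0)
      ((fun u : Fˣ => (Sum.elim (fun w => Real.log (w (u : F))) fun q => (og q.1 (u : F) : ℝ) :
        InfinitePlace F ⊕ T → ℝ)) '' U)) = ⊤

/-- Absolute norms of principal ideals in a totally complex field. -/
def CycSt : Prop :=
  IsEmpty (F →+* ℝ) → ∀ (S : Finset (Pr F)) (m : ℕ) (κ : Pr F → (ZMod m)ˣ), m ≠ 0 →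
    (∀ q ∉ S, (m : 𝓞 F) ∉ q.asIdeal) →
    (∀ q ∉ S, (κ q : ZMod m) = Ideal.absNorm q.asIdeal) → ∃ N, WRay S N κ

/-- Prime sums. -/
structure PsSt : Prop where
  summable : ∀ (P : Set (Pr F)) (s : ℝ), 1 < s →
    Summable fun q : Pr F => if q ∈ P then (Ideal.absNorm q.asIdeal : ℝ) ^ (-s) else 0
  mono : ∀ (P P' : Set (Pr F)) (s : ℝ), 1 < s → P ⊆ P' → ps P s ≤ ps P' s
  fin : ∀ (S : Finset (Pr F)) (P : Set (Pr F)) (s : ℝ), 1 < s →
    ps P s ≤ ps {q | q ∉ S ∧ q ∈ P} s + S.card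
  lim : Tendsto (fun s : ℝ => ps (Set.univ : Set (Pr F)) s / Real.log (1 / (s - 1))) (𝓝[>] 1) (𝓝 1)

end One

/-- The weighted theta series averaged over the unit cube. -/
noncomputable def fthw {ι κ : Type} [Fintype ι] {r : ℕ} (B : Matrix ι ι ℝ) (pl : ι → κ)
    (l : Fin r → κ → ℝ) (ω : (ι → ℤ) → ℂ) (τ : ℝ) : ℂ :=
  ∫ t in box r, ∑' k : {k : ι → ℤ // k ≠ 0}, ω k.1 * (Real.exp (-Real.pi *
    ∑ i, Real.exp (2 * (∑ j, t j * l j (pl i) + τ)) * lpt B k.1 i ^ 2) : ℝ)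

/-- The pole of the Mellin transform of a theta series with periodic weight. -/
def ThWSt : Prop :=
  ∀ {ι κ : Type} [Fintype ι] [DecidableEq ι] [Nonempty ι] {r : ℕ} (B : Matrix ι ι ℝ) (pl : ι → κ)
    (l : Fin r → κ → ℝ) (ω : (ι → ℤ) → ℂ) (d : ℕ), B.det ≠ 0 → (∀ j, ∑ i, l j (pl i) = 0) →
    d ≠ 0 → (∀ k, ‖ω k‖ ≤ 1) → (∀ k j, ω (k + d • j) = ω k) →
    ∃ C : ℝ, ∀ s : ℝ, 1 < s → s ≤ 2 →
      ‖(∫ τ : ℝ, fthw B pl l ω τ * Complex.exp ((Fintype.card ι : ℂ) * s * τ)) -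
        (∑ a : ι → Fin d, ω fun i => ((a i : ℕ) : ℤ)) /
          ((d : ℂ) ^ Fintype.card ι * (|B.det| : ℝ) * Fintype.card ι * (s - 1))‖ ≤ C

/-- Unfolding of a weighted theta series. -/
def UnfWSt : Prop :=
  ∀ {ι κ A : Type} [Fintype ι] [DecidableEq ι] [Fintype κ] {r : ℕ} (B : Matrix ι ι ℝ) (pl : ι → κ)
    (m : κ → ℕ) (l : Fin r → κ → ℝ) (e : Option (Fin r) ≃ κ) (J : ℝ) (x : A → κ → ℝ)
    (f : A × (Fin r → ℤ) ≃ {k : ι → ℤ // k ≠ 0}) (ω : (ι → ℤ) → ℂ) (cf : A → ℂ) (s : ℂ),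
    (∀ w, 0 < m w) → ∑ w, m w = Fintype.card ι → (∀ j, ∑ w, (m w : ℝ) * l j w = 0) →
    J = |(Matrix.of fun i j : Option (Fin r) => i.elim 1 fun i' => l i' (e j)).det| → J ≠ 0 →
    (∀ a w, 0 < x a w) →
    (∀ a k (c : κ → ℝ), ∑ i, c (pl i) * lpt B (f (a, k)).1 i ^ 2
      = ∑ w, c w * (Real.exp (∑ j, k j * l j w) * x a w) ^ 2) →
    (∀ a, ‖cf a‖ ≤ 1) → (∀ a k, ω (f (a, k)).1 = cf a) → 0 < s.re →
    (Summable fun a => (∏ w, x a w ^ m w) ^ (-s.re)) →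
    ∫ τ : ℝ, fthw B pl l ω τ * Complex.exp ((Fintype.card ι : ℂ) * s * τ)
      = (∏ w, Complex.Gammaℝ (m w * s) / 2) / J *
        ∑' a, cf a * ((∏ w, x a w ^ m w : ℝ) : ℂ) ^ (-s)

/-- The sum of `w` over a system of residues. -/
noncomputable def rs {F : Type} [Field F] (𝔪 : Ideal (𝓞 F)) (w : 𝓞 F → ℂ) : ℂ :=
  ∑ᶠ x : 𝓞 F ⧸ 𝔪, w (Quotient.out x)

section One

variable (F : Type) [Field F] [NumberField F]

/-- The pole of a Dirichlet series over principal ideals with periodic coefficients. -/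
def PrinSt : Prop :=
  ∃ (κ : ℝ → ℂ) (B : ℝ), (∀ s, 1 < s → s ≤ 2 → ‖κ s‖ ≤ B) ∧
    ∀ (d : ℕ) (W : Ideal (𝓞 F) → ℂ) (w : 𝓞 F → ℂ), d ≠ 0 →
      (∀ x, x ≠ 0 → W (Ideal.span {x}) = w x) → (∀ I, ¬ I.IsPrincipal → W I = 0) →
      (∀ x, ‖w x‖ ≤ 1) → (∀ x y, w (x + d * y) = w x) →
      ∃ C : ℝ, ∀ s : ℝ, 1 < s → s ≤ 2 →
        ‖(∑' I : {I : Ideal (𝓞 F) // I ≠ ⊥}, W I.1 * (Ideal.absNorm I.1 : ℂ) ^ (-(s : ℂ))) -
          κ s * rs (Ideal.span {(d : 𝓞 F)}) w / ((d : ℂ) ^ Module.finrank ℚ F * (s - 1))‖ ≤ C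

/-- Sums over residue classes. -/
structure MeanSt : Prop where
  crt : ∀ (𝔟 𝔪 𝔫 : Ideal (𝓞 F)) (w : 𝓞 F → ℂ), 𝔫 ≠ ⊥ → 𝔫 ≤ 𝔟 → 𝔫 ≤ 𝔪 → IsCoprime 𝔟 𝔪 →
    (∀ x, ∀ y ∈ 𝔪, w (x + y) = w x) →
    Ideal.absNorm 𝔟 * rs 𝔫 (fun x => if x ∈ 𝔟 then w x else 0) = rs 𝔫 w
  zero : ∀ (𝔪 𝔫 : Ideal (𝓞 F)) (w : 𝓞 F → ℂ) (u : 𝓞 F) (z : ℂ), 𝔫 ≠ ⊥ → 𝔫 ≤ 𝔪 →
    IsCoprime (Ideal.span {u}) 𝔪 → (∀ x, ∀ y ∈ 𝔪, w (x + y) = w x) → (∀ x, w (u * x) = z * w x) →
    z ≠ 1 → rs 𝔫 w = 0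

/-- The `L`-series of a nontrivial ray class character is bounded to the right of one. -/
def LBdSt : Prop :=
  ∀ (S : Finset (Pr F)) (N : ℕ) (χ : Pr F → ℂˣ) (c : Ideal (𝓞 F) → ℂ),
    (∀ q, ‖(χ q : ℂ)‖ = 1) → (∀ q : Pr F, c q.asIdeal = χ q) → WRay S N χ → (∃ q ∉ S, χ q ≠ 1) →
    ∃ C : ℝ, ∀ s : ℝ, 1 < s → s ≤ 2 → ‖Lfun S c s‖ ≤ C

/-- The density bound (second inequality, analytic form). -/
def DenSt : Prop :=
  ∀ (S : Finset (Pr F)) (N : ℕ) {Γ : Type} [CommGroup Γ] [Finite Γ] (c : Pr F → Γ), WRay S N c →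
    Subgroup.closure (c '' {q | q ∉ S}) = ⊤ → ∃ C : ℝ, ∀ᶠ s : ℝ in 𝓝[>] 1,
      Nat.card Γ * ps {q | q ∉ S ∧ c q = 1} s ≤ Real.log (1 / (s - 1)) + C

end One

/-! ### Extensions -/

section Two

variable (K L : Type) [Field K] [NumberField K] [Field L] [NumberField L] [Algebra K L]

/-- Primes, divisors and norms in an extension. -/
structure GalSt : Prop where
  og_smul : ∀ (g : L ≃ₐ[K] L) (Q : Pr L) (x : L), og (g • Q) (g x) = og Q x
  pw_smul : ∀ (g : L ≃ₐ[K] L) (Q : Pr L) (x : L) (j : ℤ),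
    g x ∈ pw ((g • Q).valuation L) j ↔ x ∈ pw (Q.valuation L) j
  below_smul : ∀ (g : L ≃ₐ[K] L) (Q : Pr L), below K (g • Q) = below K Q
  trans : IsGalois K L → ∀ Q Q' : Pr L, below K Q = below K Q' → ∃ g : L ≃ₐ[K] L, g • Q = Q'
  norm_eq : ∀ Q : Pr L, Ideal.absNorm Q.asIdeal = Ideal.absNorm (below K Q).asIdeal ^ fI K Q
  fI_pos : ∀ Q : Pr L, 0 < fI K Q
  card_stab : IsGalois K L → ∀ Q : Pr L,
    Nat.card (MulAction.stabilizer (L ≃ₐ[K] L) Q) = eI K Q * fI K Q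
  pw_up : ∀ (Q : Pr L) (t : K) (j : ℤ),
    algebraMap K L t ∈ pw (Q.valuation L) (eI K Q * j) ↔ t ∈ pw ((below K Q).valuation K) j
  dv_norm : IsGalois K L → ∀ a : L, a ≠ 0 → dv (Algebra.norm K a) = nm K (dv a)
  ev_nm : ∀ {Γ : Type} [CommGroup Γ] (c : Pr K → Γ) (D : Dv L),
    ev c (nm K D) = ev (fun Q => c (below K Q) ^ fI K Q) D
  nrm_eq : IsGalois K L → ∀ x : Lˣ,
    ((nrm (L ≃ₐ[K] L) x : Lˣ) : L) = algebraMap K L (Algebra.norm K (x : L))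
  ray_up : ∀ (S : Finset (Pr K)) (SL : Finset (Pr L)) (N : ℕ) (a : K),
    (∀ Q, Q ∈ SL ↔ below K Q ∈ S) → Ray S N a → Ray SL N (algebraMap K L a)
  ray_norm : IsGalois K L → ∀ (S : Finset (Pr K)) (SL : Finset (Pr L)) (N : ℕ),
    (∀ Q, Q ∈ SL ↔ below K Q ∈ S) → ∃ N', ∀ a : L, Ray SL N' a → Ray S N (Algebra.norm K a)
  norm_pos : ∀ (φ : K →+* ℝ) (a : L), RamR L φ → a ≠ 0 → 0 < φ (Algebra.norm K a)
  ramR_iff : IsGalois K L → ∀ φ : K →+* ℝ, RamR L φ ↔ ¬ (plc φ).IsUnramifiedIn L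

/-- Frobenius elements of an abelian extension. -/
structure FrSt : Prop where
  inert : IsGalois K L → ∀ Q : Pr L,
    eI K Q = 1 ↔ ∀ g : L ≃ₐ[K] L, (∀ x : 𝓞 L, g • x - x ∈ Q.asIdeal) → g = 1
  spec : IsAbelianGalois K L → ∀ (Q : Pr L) (x : 𝓞 L),
    fr K L (below K Q) • x - x ^ Ideal.absNorm (below K Q).asIdeal ∈ Q.asIdeal
  uniq : IsAbelianGalois K L → ∀ (Q : Pr L) (g : L ≃ₐ[K] L), eI K Q = 1 →
    (∀ x : 𝓞 L, g • x - x ^ Ideal.absNorm (below K Q).asIdeal ∈ Q.asIdeal) →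
    g = fr K L (below K Q)
  ord : IsAbelianGalois K L → ∀ Q : Pr L, eI K Q = 1 → orderOf (fr K L (below K Q)) = fI K Q
  zeta : IsGalois K L → ∀ (m : ℕ) (ζ : L) (q : Pr K), m ≠ 0 → IsPrimitiveRoot ζ m →
    (m : 𝓞 K) ∉ q.asIdeal → fr K L q ζ = ζ ^ Ideal.absNorm q.asIdeal
  sep : ∀ (m : ℕ) (ζ : L) (Q : Pr L) (g : L ≃ₐ[K] L), m ≠ 0 → IsPrimitiveRoot ζ m →
    (m : 𝓞 L) ∉ Q.asIdeal → (∀ x : 𝓞 L, g • x - x ∈ Q.asIdeal) → g ζ = ζ

/-- Frobenius elements in towers `K ⊆ M ⊆ L`. -/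
structure TowSt (M : Type) [Field M] [NumberField M] [Algebra K M] [Algebra M L]
    [IsScalarTower K M L] : Prop where
  below_below : ∀ Q : Pr L, below K (below M Q) = below K Q
  eI_mul : ∀ Q : Pr L, eI K Q = eI M Q * eI K (below M Q)
  bot : ∀ S : Finset (Pr K), UnrO L S → UnrO M S
  top : ∀ (S : Finset (Pr K)) (SM : Finset (Pr M)), (∀ Q, Q ∈ SM ↔ below K Q ∈ S) →
    UnrO L S → UnrO L SM
  res : IsAbelianGalois K L → ∀ (S : Finset (Pr K)), UnrO L S → ∀ q ∉ S, ∀ x : M,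
    fr K L q (algebraMap M L x) = algebraMap M L (fr K M q x)
  up : IsAbelianGalois K L → ∀ (S : Finset (Pr K)), UnrO L S → ∀ Q : Pr M, below K Q ∉ S →
    ∀ x : L, fr M L Q x = (fr K L (below K Q) ^ fI K Q) x
  fix : IsAbelianGalois K L → ∀ (S : Finset (Pr K)), UnrO L S → ∀ Q : Pr M, below K Q ∉ S →
    (∀ y : M, fr K L (below K Q) (algebraMap M L y) = algebraMap M L y) → fI K Q = 1
  ramR : ∀ φ : K →+* ℝ, RamR M φ → RamR L φ

/-- Vanishing of the first cohomology of a group of principal units of a filtration. -/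
def FiltSt : Prop :=
  IsGalois K L → ∀ (σ : L ≃ₐ[K] L) (M : ℤ → AddSubgroup L), (∀ h, h ∈ Subgroup.zpowers σ) →
    Antitone M → (∀ (g : L ≃ₐ[K] L) k, ∀ x ∈ M k, g x ∈ M k) → (∀ x, ∃ k, x ∈ M k) →
    (∀ j k, ∀ a ∈ M j, ∀ b ∈ M k, a * b ∈ M (j + k + 1)) →
    (∀ k, ∀ a ∈ M k, ∑ g : L ≃ₐ[K] L, g a ∈ M (k + 1) → ∃ b ∈ M k, a - (b - σ b) ∈ M (k + 1)) →
    ∃ A : Subgroup Lˣ, (∀ x, x ∈ A ↔ (x : L) - 1 ∈ M 0) ∧
      ∀ x ∈ A, nrm (L ≃ₐ[K] L) x = 1 → ∃ y ∈ A, x = y / σ • y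

/-- The filtration attached to a normal basis. -/
def NBSt : Prop :=
  IsGalois K L → ∀ (σ : L ≃ₐ[K] L) (S : Finset (Pr K)) (SL : Finset (Pr L)),
    (∀ h, h ∈ Subgroup.zpowers σ) → (∀ Q, Q ∈ SL ↔ below K Q ∈ S) →
    ∃ (M : ℤ → AddSubgroup L) (N : ℕ),
    Antitone M ∧ (∀ (g : L ≃ₐ[K] L) k, ∀ x ∈ M k, g x ∈ M k) ∧ (∀ x, ∃ k, x ∈ M k) ∧
    (∀ j k, ∀ a ∈ M j, ∀ b ∈ M k, a * b ∈ M (j + k + 1)) ∧
    (∀ k, ∀ a ∈ M k, ∑ g : L ≃ₐ[K] L, g a ∈ M (k + 1) → ∃ b ∈ M k, a - (b - σ b) ∈ M (k + 1)) ∧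
    (∀ a ∈ M 0, ∀ Q ∈ SL, a ∈ pw (Q.valuation L) 1) ∧
    ∀ a : L, (∀ Q ∈ SL, a ∈ pw (Q.valuation L) ((N : ℤ) + 1)) → a ∈ M 0

variable {K L} in
/-- The data used in the proof of the first inequality. -/
structure Dat (σ : L ≃ₐ[K] L) (S T : Finset (Pr K)) (SL TL : Finset (Pr L)) (N : ℕ)
    (A : Subgroup Lˣ) : Prop where
  ab : IsAbelianGalois K L
  gen : ∀ h, h ∈ Subgroup.zpowers σ
  unr : UnrO L S
  hS : ∀ Q, Q ∈ SL ↔ below K Q ∈ S
  hT : ∀ Q, Q ∈ TL ↔ below K Q ∈ T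
  disj : Disjoint T S
  trivK : RayTriv S N T
  trivL : RayTriv SL N TL
  stab : ∀ g : L ≃ₐ[K] L, ∀ x ∈ A, g • x ∈ A
  unit : ∀ x ∈ A, ∀ Q ∈ SL, og Q (x : L) = 0
  ray : ∀ x : Lˣ, Ray SL N (x : L) → x ∈ A
  h90 : ∀ x ∈ A, nrm (L ≃ₐ[K] L) x = 1 → ∃ y ∈ A, x = y / σ • y

/-- Existence of the data. -/
def DatSt : Prop :=
  IsAbelianGalois K L → ∀ (σ : L ≃ₐ[K] L) (S : Finset (Pr K)), (∀ h, h ∈ Subgroup.zpowers σ) →
    UnrO L S → ∃ T SL TL N A, Dat σ S T SL TL N A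

/-- The norm index of the `T`-units in `A`. -/
def UnitsSt : Prop :=
  ∀ (σ : L ≃ₐ[K] L) S T SL TL N A, Dat σ S T SL TL N A →
    hz (L ≃ₐ[K] L) (A ⊓ SU TL) ≠ 0 ∧
    Nat.card (L ≃ₐ[K] L) * hz (L ≃ₐ[K] L) (A ⊓ SU TL) ≤
      2 ^ Nat.card {φ : K →+* ℝ // RamR L φ} * ∏ q ∈ T, orderOf (fr K L q)

/-- From the norm index of units to the norm index of ideals. -/
def IdxSt : Prop :=
  ∀ (σ : L ≃ₐ[K] L) S T SL TL N A, Dat σ S T SL TL N A →
    (NN L S N).index ≠ 0 ∧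
    (hz (L ≃ₐ[K] L) (A ⊓ SU TL) ≠ 0 →
      2 ^ Nat.card {φ : K →+* ℝ // RamR L φ} * ∏ q ∈ T, orderOf (fr K L q) ≤
        hz (L ≃ₐ[K] L) (A ⊓ SU TL) * (NN L S N).index)

/-- The first inequality. -/
def FirstSt : Prop :=
  IsAbelianGalois K L → IsCyclic (L ≃ₐ[K] L) → ∀ S : Finset (Pr K), UnrO L S →
    ∃ N, Nat.card (L ≃ₐ[K] L) ≤ (NN L S N).index

/-- The density of completely split primes. -/
def Spl1St : Prop :=
  IsAbelianGalois K L → ∀ S : Finset (Pr K), UnrO L S →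
    Tendsto (fun s : ℝ => ps {q | q ∉ S ∧ fr K L q = 1} s / Real.log (1 / (s - 1))) (𝓝[>] 1)
      (𝓝 (1 / Nat.card (L ≃ₐ[K] L)))

/-- The density of primes with Frobenius element in a subgroup; generation. -/
structure SplSt : Prop where
  lim : IsAbelianGalois K L → ∀ S : Finset (Pr K), UnrO L S → ∀ H : Subgroup (L ≃ₐ[K] L),
    Tendsto (fun s : ℝ => ps {q | q ∉ S ∧ fr K L q ∈ H} s / Real.log (1 / (s - 1))) (𝓝[>] 1)
      (𝓝 (1 / H.index))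
  gen : IsAbelianGalois K L → ∀ S : Finset (Pr K), UnrO L S → ∀ H : Subgroup (L ≃ₐ[K] L),
    Subgroup.closure (fr K L '' {q | q ∉ S ∧ fr K L q ∈ H}) = H

/-- The second inequality for an extension that satisfies the reciprocity law. -/
def SecSt : Prop :=
  ∀ [IsAbelianGalois K L] (S : Finset (Pr K)) (N : ℕ) (H : Subgroup (L ≃ₐ[K] L))
    {Γ : Type} [CommGroup Γ] [Finite Γ] (d : Pr K → Γ), UnrO L S → WRay S N (fr K L) →
    WRay S N d → (∀ q ∉ S, fr K L q ∈ H → d q = 1) →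
    ∃ θ : (L ≃ₐ[K] L) →* Γ, (∀ q ∉ S, θ (fr K L q) = d q) ∧ ∀ h ∈ H, θ h = 1

/-- The reciprocity law for cyclotomic extensions of totally complex fields. -/
def CycRSt : Prop :=
  ∀ [IsAbelianGalois K L] (S : Finset (Pr K)) (m : ℕ) (ζ : L), IsEmpty (K →+* ℝ) → m ≠ 0 →
    IsPrimitiveRoot ζ m → (∀ q ∉ S, (m : 𝓞 K) ∉ q.asIdeal) →
    (∀ g : L ≃ₐ[K] L, g ζ = ζ → g = 1) → ∃ N, WRay S N (fr K L)

/-- The key step: a ray class function on a cyclotomic subgroup. -/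
def KeySt : Prop :=
  IsAbelianGalois K L → ∀ (S : Finset (Pr K)) (N m : ℕ) (ζ : L) (H H' : Subgroup (L ≃ₐ[K] L))
    {Γ : Type} [CommGroup Γ] [Finite Γ] (c : Pr K → Γ), UnrO L S → m ≠ 0 → IsPrimitiveRoot ζ m →
    (∀ q ∉ S, (m : 𝓞 K) ∉ q.asIdeal) → (∀ g ∈ H, g ζ = ζ → g = 1) → (∀ g ∈ H, g ζ ≠ ζ⁻¹) →
    NRay S N c → (∀ q ∉ S, ∀ k : ℕ, fr K L q ^ k ∈ H' → c q ^ k = 1) →
    ∃ θ : H →* Γ, (∀ q ∉ S, ∀ h : fr K L q ∈ H, θ ⟨_, h⟩ = c q) ∧ ∀ g : H, g.1 ∈ H' → θ g = 1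

/-- The cyclotomic extension of `L` of level prime to the discriminant. -/
def CycFSt : Prop :=
  IsAbelianGalois K L → ∀ m : ℕ, m ≠ 0 → m.Coprime (discr L).natAbs →
    IsAbelianGalois K (CyclotomicField m L) ∧
    ∃ (ζ : CyclotomicField m L)
      (Φ : (CyclotomicField m L ≃ₐ[K] CyclotomicField m L) →* (L ≃ₐ[K] L) × (ZMod m)ˣ),
      IsPrimitiveRoot ζ m ∧ Function.Bijective Φ ∧
      (∀ g x, g (algebraMap L _ x) = algebraMap L _ ((Φ g).1 x)) ∧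
      (∀ g, g ζ = ζ ^ ((Φ g).2 : ZMod m).val) ∧
      ∀ S S' : Finset (Pr K), UnrO L S → S ⊆ S' → (∀ q ∉ S', (m : 𝓞 K) ∉ q.asIdeal) →
        UnrO (CyclotomicField m L) S'

/-- Comparison of two primes. -/
def PairSt : Prop :=
  IsAbelianGalois K L → ∀ (σ : L ≃ₐ[K] L) (S : Finset (Pr K)) (N : ℕ)
    {Γ : Type} [CommGroup Γ] [Finite Γ] (c : Pr K → Γ) (p : Fin 2 → Pr K), UnrO L S →
    NRay S N c → (∀ q ∉ S, ∀ k : ℕ, fr K L q ^ k = 1 → c q ^ k = 1) → (∀ i, p i ∉ S) →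
    ∃ γ : Γ, ∀ i (j : ℕ), fr K L (p i) = σ ^ j → c (p i) = γ ^ j

/-- The reciprocity law for cyclic extensions of prime power degree. -/
def CaseSt : Prop :=
  ∀ [IsAbelianGalois K L] (p : ℕ) (S : Finset (Pr K)), p.Prime → IsCyclic (L ≃ₐ[K] L) →
    IsPGroup p (L ≃ₐ[K] L) → UnrO L S →
    ∃ N, ∀ a : K, Ray S N a → PosR L a → ev (fr K L) (dv a) = 1

/-- The Artin reciprocity law, divisor form. -/
def RecSt : Prop :=
  ∀ [IsAbelianGalois K L] (S : Finset (Pr K)), UnrO L S →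
    ∃ N, ∀ a : K, Ray S N a → PosR L a → ev (fr K L) (dv a) = 1

/-- The Artin reciprocity law, ideal form. -/
def ArtinSt : Prop :=
  IsAbelianGalois K L → ∀ S : Finset (Pr K), UnrO L S →
    ∃ N, ∀ (I J : Ideal (𝓞 K)) (x y : 𝓞 K), I ≠ ⊥ → y ≠ 0 →
      I * Ideal.span {y} = J * Ideal.span {x} → Ray S N ((x : K) / y) → PosR L ((x : K) / y) →
      artin K L I = artin K L J

end Two

/-- `RayTSt` for all number fields. -/
def RayTA : Prop := ∀ (F : Type) [Field F] [NumberField F], RayTSt F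

/-- `SpanSt` for all number fields. -/
def SpanA : Prop := ∀ (F : Type) [Field F] [NumberField F], SpanSt F

/-- `CycSt` for all number fields. -/
def CycA : Prop := ∀ (F : Type) [Field F] [NumberField F], CycSt F

/-- `PsSt` for all number fields. -/
def PsA : Prop := ∀ (F : Type) [Field F] [NumberField F], PsSt F

/-- `PrinSt` for all number fields. -/
def PrinA : Prop := ∀ (F : Type) [Field F] [NumberField F], PrinSt F

/-- `MeanSt` for all number fields. -/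
def MeanA : Prop := ∀ (F : Type) [Field F] [NumberField F], MeanSt F

/-- `LBdSt` for all number fields. -/
def LBdA : Prop := ∀ (F : Type) [Field F] [NumberField F], LBdSt F

/-- `DenSt` for all number fields. -/
def DenA : Prop := ∀ (F : Type) [Field F] [NumberField F], DenSt F

/-- `GalSt` for all extensions of number fields. -/
def GalA : Prop :=
  ∀ (K L : Type) [Field K] [NumberField K] [Field L] [NumberField L] [Algebra K L], GalSt K L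

/-- `FrSt` for all extensions of number fields. -/
def FrA : Prop :=
  ∀ (K L : Type) [Field K] [NumberField K] [Field L] [NumberField L] [Algebra K L], FrSt K L

/-- `FiltSt` for all extensions of number fields. -/
def FiltA : Prop :=
  ∀ (K L : Type) [Field K] [NumberField K] [Field L] [NumberField L] [Algebra K L], FiltSt K L

/-- `NBSt` for all extensions of number fields. -/
def NBA : Prop :=
  ∀ (K L : Type) [Field K] [NumberField K] [Field L] [NumberField L] [Algebra K L], NBSt K L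

/-- `DatSt` for all extensions of number fields. -/
def DatA : Prop :=
  ∀ (K L : Type) [Field K] [NumberField K] [Field L] [NumberField L] [Algebra K L], DatSt K L

/-- `UnitsSt` for all extensions of number fields. -/
def UnitsA : Prop :=
  ∀ (K L : Type) [Field K] [NumberField K] [Field L] [NumberField L] [Algebra K L], UnitsSt K L

/-- `IdxSt` for all extensions of number fields. -/
def IdxA : Prop :=
  ∀ (K L : Type) [Field K] [NumberField K] [Field L] [NumberField L] [Algebra K L], IdxSt K L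

/-- `FirstSt` for all extensions of number fields. -/
def FirstA : Prop :=
  ∀ (K L : Type) [Field K] [NumberField K] [Field L] [NumberField L] [Algebra K L], FirstSt K L

/-- `Spl1St` for all extensions of number fields. -/
def Spl1A : Prop :=
  ∀ (K L : Type) [Field K] [NumberField K] [Field L] [NumberField L] [Algebra K L], Spl1St K L

/-- `SplSt` for all extensions of number fields. -/
def SplA : Prop :=
  ∀ (K L : Type) [Field K] [NumberField K] [Field L] [NumberField L] [Algebra K L], SplSt K L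

/-- `SecSt` for all extensions of number fields. -/
def SecA : Prop :=
  ∀ (K L : Type) [Field K] [NumberField K] [Field L] [NumberField L] [Algebra K L], SecSt K L

/-- `CycRSt` for all extensions of number fields. -/
def CycRA : Prop :=
  ∀ (K L : Type) [Field K] [NumberField K] [Field L] [NumberField L] [Algebra K L], CycRSt K L

/-- `KeySt` for all extensions of number fields. -/
def KeyA : Prop :=
  ∀ (K L : Type) [Field K] [NumberField K] [Field L] [NumberField L] [Algebra K L], KeySt K L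

/-- `CycFSt` for all extensions of number fields. -/
def CycFA : Prop :=
  ∀ (K L : Type) [Field K] [NumberField K] [Field L] [NumberField L] [Algebra K L], CycFSt K L

/-- `PairSt` for all extensions of number fields. -/
def PairA : Prop :=
  ∀ (K L : Type) [Field K] [NumberField K] [Field L] [NumberField L] [Algebra K L], PairSt K L

/-- `CaseSt` for all extensions of number fields. -/
def CaseA : Prop :=
  ∀ (K L : Type) [Field K] [NumberField K] [Field L] [NumberField L] [Algebra K L], CaseSt K L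

/-- `RecSt` for all extensions of number fields. -/
def RecA : Prop :=
  ∀ (K L : Type) [Field K] [NumberField K] [Field L] [NumberField L] [Algebra K L], RecSt K L

/-- `ArtinSt` for all extensions of number fields. -/
def ArtinA : Prop :=
  ∀ (K L : Type) [Field K] [NumberField K] [Field L] [NumberField L] [Algebra K L], ArtinSt K L

/-- The tower statements for all towers. -/
def TowA : Prop :=
  ∀ (K L M : Type) [Field K] [NumberField K] [Field L] [NumberField L] [Algebra K L] [Field M]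
    [NumberField M] [Algebra K M] [Algebra M L] [IsScalarTower K M L], TowSt K L M

end Pool.Agent.Stark.AR
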