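import Pool.Agent.Lib.MP_ca56d1_nt.Abel

/-! Tate's criterion for a square root to generate an abelian extension. -/

namespace Pool.Agent.Stark.AR

open StarkStmt

variable {K H : Type*} [Field K] [Field H] [Algebra K H] [CharZero K]

theorem tate_crit [IsAbelianGalois K H] {ε : H} (hε : ε ≠ 0) {ι : Type*} (σ : ι → H ≃ₐ[K] H)
    (α : ι → H) (hgen : Subgroup.closure (Set.range σ) = ⊤) (h1 : ∀ i, σ i ε = α i ^ 2 * ε)
    (h2 : ∀ i j, σ j (α i) * α j = σ i (α j) * α i) : AbelRoot K 2 ε := by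
  intro β hβ
  let Ω := AlgebraicClosure H
  let j := algebraMap H Ω
  change β ^ 2 = j ε at hβ
  let ρ : (Ω ≃ₐ[K] Ω) →* (H ≃ₐ[K] H) := AlgEquiv.restrictNormalHom H
  have hρ : ∀ (s : Ω ≃ₐ[K] Ω) (x : H), s (j x) = j (ρ s x) := fun s x =>
    (AlgEquiv.restrictNormal_commutes s H x).symm
  have : IsAlgClosure K Ω := ⟨inferInstance, Algebra.IsAlgebraic.trans K H _⟩
  have hsurj : Function.Surjective ρ := AlgEquiv.restrictNormalHom_surjective Ω
  have hL : ∀ (s t : Ω ≃ₐ[K] Ω) (x : H), s (t (j x)) = t (s (j x)) := fun s t x => by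
    rw [hρ, hρ, hρ, hρ, ← AlgEquiv.mul_apply, ← AlgEquiv.mul_apply, mul_comm' (ρ s)]
  let X : Set (Ω ≃ₐ[K] Ω) := {s | ρ s = 1 ∨ ∃ i, ρ s = σ i}
  have hX : ∀ s, s ∈ Subgroup.closure X := by
    have key : ∀ g ∈ Subgroup.closure (Set.range σ), ∀ s, ρ s = g → s ∈ Subgroup.closure X := by
      intro g hg
      induction hg using Subgroup.closure_induction with
      | mem g hg =>
        obtain ⟨i, rfl⟩ := hg
        exact fun s hs => Subgroup.subset_closure (Or.inr ⟨i, hs⟩)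
      | one => exact fun s hs => Subgroup.subset_closure (Or.inl hs)
      | mul g g' _ _ h h' =>
        intro s hs
        obtain ⟨s1, hs1⟩ := hsurj g
        have := mul_mem (h s1 hs1) (h' (s1⁻¹ * s) (by rw [map_mul, map_inv, hs1, hs]; group))
        rwa [mul_inv_cancel_left] at this
      | inv g _ h =>
        intro s hs
        have := inv_mem (h s⁻¹ (by rw [map_inv, hs, inv_inv]))
        rwa [inv_inv] at this
    exact fun s => key _ (hgen ▸ Subgroup.mem_top _) s rfl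
  have hgenX : ∀ s ∈ X, ∃ (e : ℤ) (a : H), s β = e * j a * β ∧
      ((ρ s = 1 ∧ a = 1) ∨ ∃ i, ρ s = σ i ∧ a = α i) := by
    intro s hs
    have h3 : ∀ a : H, ρ s ε = a ^ 2 * ε → ∃ e : ℤ, s β = e * j a * β := fun a ha => by
      have h4 : s β ^ 2 = (j a * β) ^ 2 := by
        rw [← map_pow, hβ, hρ, ha, map_mul, map_pow, mul_pow, hβ]
      rcases sq_eq_sq_iff_eq_or_eq_neg.1 h4 with h5 | h5
      · exact ⟨1, by rw [h5]; simp⟩
      · exact ⟨-1, by rw [h5]; push_cast; ring⟩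
    rcases hs with hs | ⟨i, hs⟩
    · obtain ⟨e, he⟩ := h3 1 (by rw [hs]; simp)
      exact ⟨e, 1, he, Or.inl ⟨hs, rfl⟩⟩
    · obtain ⟨e, he⟩ := h3 (α i) (by rw [hs, h1])
      exact ⟨e, α i, he, Or.inr ⟨i, hs, rfl⟩⟩
  have hβ0 : β ≠ 0 := by
    rintro rfl
    rw [zero_pow two_ne_zero, eq_comm, map_eq_zero] at hβ
    exact hε hβ
  have hP : ∀ s : Ω ≃ₐ[K] Ω, ∃ a : H, s β = j a * β := by
    intro s
    induction hX s using Subgroup.closure_induction with
    | mem s hs =>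
      obtain ⟨e, a, he, -⟩ := hgenX s hs
      exact ⟨e * a, by rw [he, map_mul, map_intCast]⟩
    | one => exact ⟨1, by simp⟩
    | mul s t _ _ h h' =>
      obtain ⟨a, ha⟩ := h
      obtain ⟨b, hb⟩ := h'
      exact ⟨ρ s b * a, by rw [AlgEquiv.mul_apply, hb, map_mul, hρ, ha, map_mul, mul_assoc]⟩
    | inv s _ h =>
      obtain ⟨a, ha⟩ := h
      have ha0 : a ≠ 0 := by
        rintro rfl
        rw [map_zero, zero_mul, map_eq_zero] at ha
        exact hβ0 ha
      refine ⟨(ρ s⁻¹ a)⁻¹, ?_⟩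
      have h3 := congrArg (fun x => s⁻¹ x) ha
      beta_reduce at h3
      rw [← AlgEquiv.mul_apply, inv_mul_cancel, AlgEquiv.one_apply, map_mul, hρ] at h3
      have h4 : j (ρ s⁻¹ a) ≠ 0 := by simpa using ha0
      rw [map_inv₀, eq_inv_mul_iff_mul_eq₀ h4]
      exact h3.symm
  have step : ∀ t : Ω ≃ₐ[K] Ω, (∀ s ∈ X, s (t β) = t (s β)) → ∀ s : Ω ≃ₐ[K] Ω,
      s (t β) = t (s β) := by
    intro t ht s
    have ext : ∀ s : Ω ≃ₐ[K] Ω, s (t β) = t (s β) → ∀ a : H,
        s (t (j a * β)) = t (s (j a * β)) := fun s hs a => by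
      rw [map_mul, map_mul, map_mul, map_mul, hL, hs]
    induction hX s using Subgroup.closure_induction with
    | mem s hs => exact ht s hs
    | one => simp
    | mul s s' _ _ h h' =>
      obtain ⟨a, ha⟩ := hP s'
      rw [AlgEquiv.mul_apply, AlgEquiv.mul_apply, h', ha, ext s h]
    | inv s _ h =>
      obtain ⟨a, ha⟩ := hP s⁻¹
      apply s.injective
      rw [← AlgEquiv.mul_apply s s⁻¹, mul_inv_cancel, AlgEquiv.one_apply, ha, ext s h, ← ha,
        ← AlgEquiv.mul_apply s s⁻¹, mul_inv_cancel, AlgEquiv.one_apply]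
  have base : ∀ t ∈ X, ∀ s ∈ X, s (t β) = t (s β) := by
    intro t ht s hs
    obtain ⟨e, a, he, ha⟩ := hgenX s hs
    obtain ⟨e', b, he', hb⟩ := hgenX t ht
    have h3 : ρ s b * a = ρ t a * b := by
      rcases ha with ⟨h4, rfl⟩ | ⟨i, h4, rfl⟩ <;> rcases hb with ⟨h5, rfl⟩ | ⟨i', h5, rfl⟩
      · simp
      · simp [h4]
      · simp [h5]
      · rw [h4, h5, h2]
    have h4 := congrArg j h3
    rw [map_mul, map_mul] at h4
    rw [he', he, map_mul, map_mul, map_mul, map_mul, map_intCast, map_intCast, hρ, hρ, he, he']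
    linear_combination (e : Ω) * e' * β * h4
  exact abelian_of_comm β hL fun s t => step t (fun s' hs' => (step s' (base s' hs') t).symm) s

end Pool.Agent.Stark.AR
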